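import Pool.Agent.Lib.MP_e2f52c_an.Sheet

open MeasureTheory Set Filter Topology
open scoped ENNReal NNReal

namespace Pool.Agent.Lib.MP_e2f52c_an

noncomputable def zt (F : ℂ → ℂ) (z : ℂ) : ℂ := (F z ^ 3) ^ (2⁻¹ : ℂ)

noncomputable def gP (η F : ℂ → ℂ) (z : ℂ) : Multiset ℂ := {η z + zt F z, η z - zt F z}

lemma zt_sq (F : ℂ → ℂ) (z : ℂ) : zt F z ^ 2 = F z ^ 3 := Complex.cpow_ofNat_inv_pow _ 2

lemma gP_eq {η F : ℂ → ℂ} {z s : ℂ} (h : s ^ 2 = F z ^ 3) : gP η F z = {η z + s, η z - s} := by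
  rcases sq_eq_sq_iff_eq_or_eq_neg.1 ((zt_sq F z).trans h.symm) with h' | h'
  · rw [gP, h']
  · rw [gP, h', Multiset.pair_comm]; simp [sub_eq_add_neg]

lemma sgn_le (x y : ℂ) : ‖x - sgn x y * y‖ ≤ ‖x - y‖ := by
  unfold sgn
  split_ifs with h
  · simp
  · apply le_of_sq_le_sq _ (norm_nonneg _) |> fun h => h
    simp only [nsq]; simp at h ⊢; nlinarith

lemma sgn_ge (x y : ℂ) : ‖x‖ ^ 2 + ‖y‖ ^ 2 ≤ ‖x + sgn x y * y‖ ^ 2 := by
  unfold sgn
  split_ifs with h <;> simp only [nsq] <;> simp at h ⊢ <;> nlinarith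

lemma root_dist {x y u v : ℂ} (hx : x ^ 2 = u ^ 3) (hy : y ^ 2 = v ^ 3) (hu : ‖u‖ ≤ 1)
    (hv : ‖v‖ ≤ 1) : ‖x - sgn x y * y‖ ≤ 3 * ‖u - v‖ := by
  obtain ⟨R, hR⟩ : ∃ R, R = max ‖u‖ ‖v‖ := ⟨_, rfl⟩
  have u1 : ‖u‖ ≤ R := hR ▸ le_max_left _ _
  have v1 : ‖v‖ ≤ R := hR ▸ le_max_right _ _
  have R1 : R ≤ 1 := hR ▸ max_le hu hv
  have R0 : 0 ≤ R := (norm_nonneg _).trans u1
  have nx : ‖x‖ ^ 2 = ‖u‖ ^ 3 := by rw [← norm_pow, hx, norm_pow]
  have ny : ‖y‖ ^ 2 = ‖v‖ ^ 3 := by rw [← norm_pow, hy, norm_pow]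
  have h1 := sgn_ge x y
  have h2 : R ^ 3 ≤ ‖x‖ ^ 2 + ‖y‖ ^ 2 := by
    rw [nx, ny, hR]
    rcases max_choice ‖u‖ ‖v‖ with h | h <;> rw [h]
    · exact le_add_of_nonneg_right (by positivity)
    · exact le_add_of_nonneg_left (by positivity)
  have h3 : R ^ 2 ≤ ‖x + sgn x y * y‖ := by
    refine (abs_le_of_sq_le_sq' (le_trans ?_ (h2.trans h1)) (norm_nonneg _)).2
    nlinarith [pow_nonneg R0 3]
  have h4 : (x - sgn x y * y) * (x + sgn x y * y) = (u - v) * (u ^ 2 + u * v + v ^ 2) := by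
    rcases sgn_cases x y with h | h <;> rw [h] <;> push_cast <;> linear_combination hx - hy
  have h5 : ‖u ^ 2 + u * v + v ^ 2‖ ≤ 3 * R ^ 2 := by
    refine norm_add₃_le.trans ?_
    rw [norm_pow, norm_pow, norm_mul]
    have := mul_le_mul u1 v1 (norm_nonneg _) R0
    have := pow_le_pow_left₀ (norm_nonneg _) u1 2
    have := pow_le_pow_left₀ (norm_nonneg _) v1 2
    nlinarith
  have h6 := congrArg norm h4
  rw [norm_mul, norm_mul] at h6
  rcases R0.eq_or_lt with h | h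
  · rw [← h] at u1 v1
    have a := norm_le_zero_iff.1 u1
    have b := norm_le_zero_iff.1 v1
    simp only [a, b, ne_eq, OfNat.ofNat_ne_zero, not_false_eq_true, zero_pow,
      pow_eq_zero_iff] at hx hy
    simp [hx, hy]
  · refine le_of_mul_le_mul_right ?_ (pow_pos h 2)
    calc _ ≤ ‖x - sgn x y * y‖ * ‖x + sgn x y * y‖ := by gcongr
      _ ≤ ‖u - v‖ * (3 * R ^ 2) := by rw [h6]; gcongr
      _ = _ := by ring

lemma exists_branch {F : ℂ → ℂ} {z : ℂ} (hc : Continuous F) (h0 : F z ≠ 0) :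
    ∃ σ : ℂ → ℂ, (∀ w, σ w ^ 2 = F w ^ 3) ∧ (∀ᶠ w in 𝓝 z, ContinuousAt σ w) ∧ σ z ≠ 0 ∧
      (DifferentiableAt ℂ F z → DifferentiableAt ℂ σ z ∧
        ‖deriv σ z‖ ^ 2 = 9 / 4 * ‖F z‖ * ‖deriv F z‖ ^ 2) := by
  have hs : ∀ w, (zt F z * (F w / F z) * (F w / F z) ^ (2⁻¹ : ℂ)) ^ 2 = F w ^ 3 := fun w => by
    rw [mul_pow, mul_pow, zt_sq, Complex.cpow_ofNat_inv_pow]; field_simp
  have h1 : F z / F z ∈ Complex.slitPlane := by simp [h0]
  have hq : Continuous fun w => F w / F z := hc.div_const _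
  have hn : zt F z * (F z / F z) * (F z / F z) ^ (2⁻¹ : ℂ) ≠ 0 := fun h => by
    have := hs z
    rw [h] at this
    exact pow_ne_zero 3 h0 (by simpa using this.symm)
  refine ⟨_, hs, ?_, hn, fun hd => ?_⟩
  · filter_upwards [hq.continuousAt.eventually_mem (Complex.isOpen_slitPlane.mem_nhds h1)] with w hw
    exact (continuousAt_const.mul hq.continuousAt).mul (hq.continuousAt.cpow continuousAt_const hw)
  · have d : DifferentiableAt ℂ (fun w => zt F z * (F w / F z) * (F w / F z) ^ (2⁻¹ : ℂ)) z :=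
      ((hd.div_const _).const_mul _).mul ((hd.div_const _).cpow_const h1)
    refine ⟨d, ?_⟩
    have a := d.hasDerivAt.fun_pow 2
    simp only [hs] at a
    have b := congrArg (fun t => ‖t‖ ^ 2) (a.unique (hd.hasDerivAt.fun_pow 3))
    have c := congrArg norm (hs z)
    have n := norm_pos_iff.2 h0
    generalize zt F z * (F z / F z) * (F z / F z) ^ (2⁻¹ : ℂ) = s at *
    generalize deriv (fun w => zt F z * (F w / F z) * (F w / F z) ^ (2⁻¹ : ℂ)) z = s' at *
    simp only [norm_mul, norm_pow, mul_pow, Complex.norm_natCast] at b c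
    norm_num at b
    rw [c] at b
    refine mul_left_cancel₀ (pow_pos n 3).ne' ?_
    linear_combination b / 4

lemma slope_lim {f : ℂ → ℂ} {z : ℂ} (h : DifferentiableAt ℂ f z) (e : ℂ) :
    Tendsto (fun t : ℝ => (f (z + t * e) - f z) / t) (𝓝[≠] 0) (𝓝 (deriv f z * e)) := by
  have h1 : HasDerivAt (fun s : ℂ => z + s * e) e ((0 : ℝ) : ℂ) := by
    simpa using ((hasDerivAt_id ((0 : ℝ) : ℂ)).mul_const e).const_add z
  have h2 := (h.hasDerivAt.comp_of_eq _ h1 (by simp)).comp_ofReal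
  refine (hasDerivAt_iff_tendsto_slope_zero.1 h2).congr fun t => ?_
  simp [div_eq_inv_mul]

lemma quad_lim {f : ℂ → ℂ} {z : ℂ} (h : DifferentiableAt ℂ f z) :
    Tendsto (fun t : ℝ => quad (f z) (f (z + t * 1)) (f (z + t * 1 + t * Complex.I))
      (f (z + t * Complex.I)) / t ^ 2) (𝓝[>] 0) (𝓝 (2 * ‖deriv f z‖ ^ 2)) := by
  have hw : Continuous fun q : ℂ × ℂ => wedge q.1 q.2 := by unfold wedge; fun_prop
  have h1 := ((hw.tendsto _).comp ((slope_lim h (1 + Complex.I)).prodMk_nhds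
    ((slope_lim h Complex.I).sub (slope_lim h 1)))).mono_left
      (nhdsWithin_mono _ fun t (ht : 0 < t) => ht.ne')
  have e : wedge (deriv f z * (1 + Complex.I)) (deriv f z * Complex.I - deriv f z * 1) =
      2 * ‖deriv f z‖ ^ 2 := by rw [nsq]; simp [wedge]; ring
  simp only [e] at h1
  refine h1.congr' ?_
  filter_upwards [self_mem_nhdsWithin] with t (ht : 0 < t)
  simp only [Function.comp, quad_eq, ← sub_div, sub_sub_sub_cancel_right, mul_add, ← add_assoc]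
  simp only [wedge, Complex.div_ofReal_re, Complex.div_ofReal_im]
  field_simp

lemma sgn_wedge {x y a b : ℂ} (hx : x ^ 2 = a ^ 2) (hy : y ^ 2 = b ^ 2)
    (h : 0 < (a * (starRingEnd ℂ) b).re) : sgn x y * wedge x y = wedge a b := by
  rcases sq_eq_sq_iff_eq_or_eq_neg.1 hx with rfl | rfl <;>
    rcases sq_eq_sq_iff_eq_or_eq_neg.1 hy with rfl | rfl <;> unfold sgn wedge <;>
    simp at h ⊢
  · intro h'; linarith
  · rw [if_neg (by linarith)]; ring
  · rw [if_neg (by linarith)]; ring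
  · intro h'; linarith

lemma HasTrace.congr {k : ℕ} {σ : ℝ} {f : ℂ → Multiset ℂ} {τ τ' : ℝ → Multiset ℂ}
    (h : HasTrace k B σ f τ) (e : ∀ x ∈ seg B, τ x = τ' x) : HasTrace k B σ f τ' := by
  have hγ := (isOpen_seg (Metric.isOpen_ball : IsOpen B)).measurableSet
  refine ⟨fun x hx => e x hx ▸ h.1 x hx, fun T hT => ?_⟩
  obtain ⟨h1, v, h2, h3⟩ := h.2 T hT
  refine ⟨h1.ae_eq ((ae_restrict_iff' hγ).2 (Eventually.of_forall fun x hx => by
    simp only [e x hx])), v, h2, fun ψ hψ => ?_⟩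
  rw [h3 ψ hψ, setIntegral_congr_fun hγ fun x hx => by simp only [e x hx]; rfl]

lemma continuous_G {k : ℕ} (hk : Good k) {f : ℂ → Multiset ℂ} (hf : ∀ z, (f z).card = k) {K : ℝ}
    (h : ∀ z w, G (f z) (f w) ≤ K * ‖z - w‖) (T : Multiset ℂ) (hT : T.card = k) :
    Continuous fun z => G (f z) T :=
  (LipschitzWith.of_dist_le' (K := K) fun z w => by
    rw [Real.dist_eq, dist_eq_norm]
    exact (hk.abs_sub_le (hf z) (hf w) hT).trans (h z w)).continuous

lemma sheet_lip {k : ℕ} (hk : Good k) {σ : ℝ} (hσ : σ = 1 ∨ σ = -1) {f : ℂ → Multiset ℂ}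
    (hf : ∀ z, (f z).card = k) {K : ℝ} (h : ∀ z w, G (f z) (f w) ≤ K * ‖z - w‖)
    {ψ : ℂ → ℝ} (hm : Measurable ψ) {C : ℝ} (hb : ∀ z, ‖ψ z‖ ≤ C)
    (H5 : ∀ᵐ z, z ∈ side B σ → ∀ e : ℂ, ‖e‖ = 1 → ∀ c, ψ z < c →
      ∀ᶠ t : ℝ in 𝓝[≠] 0, G (f (z + t * e)) (f z) ≤ c * |t|) :
    IsBound k (side B σ) f (fun _ => ψ) ∧ HasTrace k B σ f (fun x => f x) := by
  have : IsFiniteMeasure (volume.restrict (side B σ)) :=
    isFiniteMeasure_restrict.2 ((measure_mono fun z hz => hz.1).trans_lt measure_ball_lt_top).ne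
  have l : ∀ (z e : ℂ) (s t : ℝ), ‖e‖ = 1 → G (f (z + s * e)) (f (z + t * e)) ≤ K * |s - t| := by
    intro z e s t he
    refine (h _ _).trans (le_of_eq ?_)
    rw [add_sub_add_left_eq_sub, ← sub_mul, norm_mul, he, mul_one, ← Complex.ofReal_sub,
      Complex.norm_real, Real.norm_eq_abs]
  exact sheet hk hσ hf (continuous_G hk hf h)
    (Eventually.of_forall fun y _ _ => ⟨K, fun s _ t _ => l _ _ s t (by simp)⟩)
    (Eventually.of_forall fun y => ⟨K, fun s _ t _ => l _ _ s t (by simp)⟩)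
    (MemLp.of_bound hm.aestronglyMeasurable C (Eventually.of_forall hb)) H5

lemma tendsto_pt (z e : ℂ) : Tendsto (fun t : ℝ => z + t * e) (𝓝 0) (𝓝 z) := by
  have : Continuous fun t : ℝ => z + t * e := by fun_prop
  simpa using this.tendsto 0

theorem assemble {η F g : ℂ → ℂ} {φ : ℝ → ℂ} {L : ℝ≥0} (lη : LipschitzWith L η)
    (lF : LipschitzWith L F) (lg : LipschitzWith L g) (bF : ∀ z, ‖F z‖ ≤ 1)
    (dη : ∀ z : ℂ, 0 < z.im → DifferentiableAt ℂ η z)
    (dF : ∀ z : ℂ, 0 < z.im → DifferentiableAt ℂ F z)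
    (dg : ∀ z : ℂ, z.im < 0 → DifferentiableAt ℂ g z) (nF : ∀ᵐ z : ℂ, 0 < z.im → F z ≠ 0)
    (hφ : Continuous φ) {L' : ℝ}
    (hL : ∀ x ∈ Icc (-1 : ℝ) 1, ∀ y ∈ Icc (-1 : ℝ) 1, ‖φ x - φ y‖ ≤ L' * |x - y|)
    (tr : ∀ x ∈ seg B, gP η F x = φ x ::ₘ {g x}) :
    DirMin 1 B φ (gP η F) (fun z => {g z}) := by
  obtain ⟨ψ, hψ⟩ : ∃ ψ : ℂ → ℝ, ψ = fun z => if 0 < z.im then
      √(2 * ‖deriv η z‖ ^ 2 + 2 * (9 / 4 * ‖F z‖ * ‖deriv F z‖ ^ 2)) else ‖deriv g z‖ := ⟨_, rfl⟩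
  have mψ : Measurable ψ := by
    have := lF.continuous.measurable
    rw [hψ]
    exact Measurable.ite (measurableSet_lt measurable_const Complex.measurable_im)
      (by fun_prop) (by fun_prop)
  have bψ : ∀ z, ‖ψ z‖ ≤ 3 * L := fun z => by
    have a := norm_deriv_le_of_lipschitz (x₀ := z) lη
    have b := norm_deriv_le_of_lipschitz (x₀ := z) lF
    have c := norm_deriv_le_of_lipschitz (x₀ := z) lg
    have L0 := L.coe_nonneg
    simp only [hψ]
    split_ifs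
    · rw [Real.norm_of_nonneg (Real.sqrt_nonneg _), Real.sqrt_le_left (by positivity)]
      calc _ ≤ 2 * (L : ℝ) ^ 2 + 2 * (9 / 4 * 1 * (L : ℝ) ^ 2) := by gcongr; exact bF z
        _ ≤ _ := by nlinarith
    · rw [norm_norm]; linarith
  have cP : ∀ z, (gP η F z).card = 2 := fun z => by simp [gP]
  obtain ⟨bp, tp⟩ := sheet_lip good_two (Or.inl rfl) cP (K := 5 * L) (fun z w => by
    have a := lη.norm_sub_le z w
    have b := (root_dist (zt_sq F z) (zt_sq F w) (bF z) (bF w)).trans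
      (mul_le_mul_of_nonneg_left (lF.norm_sub_le z w) (by norm_num))
    rw [gP, gP, G_pm, Real.sqrt_le_left (by positivity)]
    calc _ ≤ 2 * (L * ‖z - w‖) ^ 2 + 2 * (3 * (L * ‖z - w‖)) ^ 2 := by gcongr
      _ ≤ _ := by nlinarith [sq_nonneg (L * ‖z - w‖)]) mψ bψ (by
    filter_upwards [nF] with z hz hs e he c hc
    have hi := (mem_up.1 hs).2
    obtain ⟨σ, s1, -, -, s4⟩ := exists_branch lF.continuous (hz hi)
    obtain ⟨s4, s5⟩ := s4 (dF z hi)
    have t1 := ((((slope_lim (dη z hi) e).norm.pow 2).const_mul 2).add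
      (((slope_lim s4 e).norm.pow 2).const_mul 2)).sqrt
    simp only [hψ, if_pos hi] at hc
    rw [norm_mul (deriv η z), norm_mul (deriv σ z), he, mul_one, mul_one, s5] at t1
    filter_upwards [t1.eventually_lt_const hc, self_mem_nhdsWithin] with t ht h0
    have h0' : 0 < |t| := abs_pos.2 h0
    rw [gP_eq (s1 _), gP_eq (s1 _), G_pm]
    refine le_trans ?_ (mul_le_mul_of_nonneg_right ht.le h0'.le)
    rw [← Real.sqrt_sq h0'.le, ← Real.sqrt_mul (by positivity)]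
    apply Real.sqrt_le_sqrt
    simp only [norm_div, Complex.norm_real, Real.norm_eq_abs, div_pow]
    have := pow_le_pow_left₀ (norm_nonneg _) (sgn_le (σ (z + t * e)) (σ z)) 2
    field_simp
    linarith)
  obtain ⟨bm, tm⟩ := sheet_lip good_one (Or.inr rfl) (f := fun z => {g z}) (fun z => by simp)
    (K := L) (fun z w => by rw [G_single]; exact lg.norm_sub_le z w) mψ bψ (by
    refine Eventually.of_forall fun z hs e he c hc => ?_
    have hi := (mem_down.1 hs).2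
    have t1 := (slope_lim (dg z hi) e).norm
    simp only [hψ, if_neg hi.not_gt] at hc
    rw [norm_mul, he, mul_one] at t1
    filter_upwards [t1.eventually_lt_const hc, self_mem_nhdsWithin] with t ht h0
    have h0' : 0 < |t| := abs_pos.2 h0
    rw [norm_div, Complex.norm_real, Real.norm_eq_abs, div_lt_iff₀ h0'] at ht
    rw [G_single]; exact ht.le)
  refine dirMin_of_limit hφ hL ⟨⟨fun z _ => cP z, _, bp⟩, ⟨fun z _ => by simp, _, bm⟩, _, tm,
    tp.congr tr⟩ bp bm ?_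
  filter_upwards [nF, ae_im_ne] with z hz hn _
  have p1 := tendsto_pt z 1
  have p2 : Tendsto (fun t : ℝ => z + t * 1 + t * Complex.I) (𝓝 0) (𝓝 z) := by
    simpa only [mul_add, ← add_assoc] using tendsto_pt z (1 + Complex.I)
  have p3 := tendsto_pt z Complex.I
  rcases lt_or_gt_of_ne hn with hi | hi
  · have t1 := (quad_lim (dg z hi)).div_const 2
    have ev : ∀ᶠ w in 𝓝 z, w.im < 0 := Complex.continuous_im.continuousAt.eventually_lt_const hi
    simp only [hψ, if_neg hi.not_gt]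
    rw [mul_div_cancel_left₀ _ two_ne_zero] at t1
    refine t1.congr' (Eventually.filter_mono nhdsWithin_le_nhds ?_)
    filter_upwards [p1.eventually ev, p2.eventually ev, p3.eventually ev] with t a b c
    have e1 : ∀ w : ℂ, w.im < 0 → etaC φ (gP η F) (fun z => {g z}) w -
        xiC φ (gP η F) (fun z => {g z}) w = φ w.re := fun w hw => by
      simp only [etaC, xiC, if_neg hw.not_gt]; ring
    have e2 : ∀ w : ℂ, w.im < 0 → etaC φ (gP η F) (fun z => {g z}) w +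
        xiC φ (gP η F) (fun z => {g z}) w = g w := fun w hw => by
      simp only [etaC, xiC, if_neg hw.not_gt, Multiset.sum_singleton]; ring
    rw [Ar, ar_lower _ _ hi a b c (by rw [e1 _ c, e1 _ hi]; simp) (by rw [e1 _ b, e1 _ a]; simp),
      e2 _ hi, e2 _ a, e2 _ b, e2 _ c]
    ring
  · obtain ⟨σ, s1, -, s3, s4⟩ := exists_branch lF.continuous (hz hi)
    obtain ⟨s4, s5⟩ := s4 (dF z hi)
    have t1 := (quad_lim (dη z hi)).add (quad_lim s4)
    simp only [hψ, if_pos hi]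
    rw [Real.sq_sqrt (by positivity), ← s5]
    refine t1.congr' (Eventually.filter_mono nhdsWithin_le_nhds ?_)
    have ev : ∀ᶠ w in 𝓝 z, 0 < w.im := Complex.continuous_im.continuousAt.eventually_const_lt hi
    have ev2 : ∀ᶠ q : ℂ × ℂ in 𝓝 (z, z), 0 < (σ q.1 * (starRingEnd ℂ) (σ q.2)).re := by
      have c1 : ContinuousAt (fun q : ℂ × ℂ => σ q.1) (z, z) :=
        ContinuousAt.comp (g := σ) s4.continuousAt continuousAt_fst
      have c2 : ContinuousAt (fun q : ℂ × ℂ => σ q.2) (z, z) :=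
        ContinuousAt.comp (g := σ) s4.continuousAt continuousAt_snd
      refine (Complex.continuous_re.continuousAt.comp (c1.mul
        (Complex.continuous_conj.continuousAt.comp c2))).eventually_const_lt ?_
      simp only [Function.comp, Pi.mul_apply, Complex.mul_conj, Complex.ofReal_re]
      exact Complex.normSq_pos.2 s3
    have e1 : ∀ w w' : ℂ, 0 < w.im → 0 < w'.im → 0 < (σ w * (starRingEnd ℂ) (σ w')).re →
        om (etaC φ (gP η F) fun z => {g z}) (xiC φ (gP η F) fun z => {g z}) w w' =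
          wedge (η w) (η w') + wedge (σ w) (σ w') := fun w w' hw hw' h => by
      simp only [om, sg, etaC, xiC, if_pos hw, if_pos hw', hw.not_gt, false_and, if_false]
      rw [sgn_wedge (by rw [xi_sq, gP_eq (s1 w), wq_pm]) (by rw [xi_sq, gP_eq (s1 w'), wq_pm]) h,
        gP, gP, eta_pm, eta_pm]
    filter_upwards [p1.eventually ev, p2.eventually ev, p3.eventually ev,
      (tendsto_const_nhds.prodMk_nhds p1).eventually ev2, (p1.prodMk_nhds p2).eventually ev2,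
      (p3.prodMk_nhds p2).eventually ev2, (tendsto_const_nhds.prodMk_nhds p3).eventually ev2]
      with t a b c q1 q2 q3 q4
    rw [Ar, ar, e1 _ _ hi a q1, e1 _ _ a b q2, e1 _ _ c b q3, e1 _ _ hi c q4, quad, quad]
    ring

end Pool.Agent.Lib.MP_e2f52c_an
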