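import Mathlib

open Set Filter Topology

namespace Pool.Agent.Lib.MP_e2f52c_an

noncomputable def cant (b : ℕ → Bool) : ℝ :=
  Real.ofDigits (b := 64) fun i => if b i then 1 else 0

noncomputable def bin (b : ℕ → Bool) : ℝ :=
  Real.ofDigits (b := 2) fun i => if b i then 1 else 0

lemma cant_nonneg (b : ℕ → Bool) : 0 ≤ cant b := Real.ofDigits_nonneg _

lemma cant_le (b : ℕ → Bool) : cant b ≤ 1 / 32 := by
  rw [cant, Real.ofDigits_eq_sum_add_ofDigits _ 1]
  have := Real.ofDigits_le_one (b := 64) fun i => if b (i + 1) then 1 else 0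
  simp only [Finset.range_one, Finset.sum_singleton, Real.ofDigitsTerm]
  split_ifs <;> norm_num <;> linarith

lemma cant_sep {b c : ℕ → Bool} {n : ℕ} (h : ∀ i < n, b i = c i) (hn : b n ≠ c n) :
    ((64 : ℝ) ^ n)⁻¹ / 128 ≤ |cant b - cant c| := by
  have e : ∀ a : ℕ → Bool, cant a = (∑ i ∈ Finset.range n,
      Real.ofDigitsTerm (b := 64) (fun i => if a i then 1 else 0) i) +
      ((64 : ℝ) ^ n)⁻¹ / 64 * ((if a n then 1 else 0) + cant fun i => a (i + (n + 1))) := by
    intro a
    rw [cant, Real.ofDigits_eq_sum_add_ofDigits _ (n + 1), Finset.sum_range_succ, add_assoc]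
    congr 1
    simp only [Real.ofDigitsTerm, cant]
    generalize Real.ofDigits (b := 64) _ = r
    split_ifs
    · simp [pow_succ]; ring
    · simp [pow_succ]; left; ring
  have s : (∑ i ∈ Finset.range n, Real.ofDigitsTerm (b := 64) (fun i => if b i then 1 else 0) i) =
      ∑ i ∈ Finset.range n, Real.ofDigitsTerm (b := 64) (fun i => if c i then 1 else 0) i :=
    Finset.sum_congr rfl fun i hi => by simp [Real.ofDigitsTerm, h i (Finset.mem_range.1 hi)]
  rw [e b, e c, s, add_sub_add_left_eq_sub, ← mul_sub, abs_mul, abs_of_nonneg (by positivity)]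
  have a1 := cant_nonneg fun i => b (i + (n + 1))
  have a2 := cant_le fun i => b (i + (n + 1))
  have a3 := cant_nonneg fun i => c (i + (n + 1))
  have a4 := cant_le fun i => c (i + (n + 1))
  have : (1 / 2 : ℝ) ≤ |((if b n then 1 else 0) + cant fun i => b (i + (n + 1))) -
      ((if c n then 1 else 0) + cant fun i => c (i + (n + 1)))| := by
    rw [le_abs]
    cases hb : b n <;> cases hc : c n <;> simp [hb, hc] at hn ⊢
    · right; linarith
    · left; linarith
  calc ((64 : ℝ) ^ n)⁻¹ / 128 = ((64 : ℝ) ^ n)⁻¹ / 64 * (1 / 2) := by ring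
    _ ≤ _ := by gcongr

lemma bin_holder (b c : ℕ → Bool) : |bin b - bin c| ^ 6 ≤ 128 * |cant b - cant c| := by
  by_cases h : b = c
  · simp [h]
  have hex : ∃ n, b n ≠ c n := Function.ne_iff.1 h
  have h1 : ∀ i < Nat.find hex, b i = c i := fun i hi => not_not.1 (Nat.find_min hex hi)
  have h2 := cant_sep h1 (Nat.find_spec hex)
  have h3 : |bin b - bin c| ≤ (((2 : ℕ) : ℝ) ^ Nat.find hex)⁻¹ :=
    Real.abs_ofDigits_sub_ofDigits_le fun i hi => by simp [h1 i hi]
  calc |bin b - bin c| ^ 6 ≤ ((((2 : ℕ) : ℝ) ^ Nat.find hex)⁻¹) ^ 6 := by gcongr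
    _ = ((64 : ℝ) ^ Nat.find hex)⁻¹ := by
      rw [inv_pow, ← pow_mul, mul_comm, pow_mul]; norm_num
    _ ≤ _ := by linarith

lemma dimH_cant : 0 < dimH (range cant) := by
  have H : HolderOnWith 3 (1 / 6) (bin ∘ Function.invFun cant) (range cant) := by
    rintro x hx y hy
    have h := bin_holder (Function.invFun cant x) (Function.invFun cant y)
    rw [Function.invFun_eq hx, Function.invFun_eq hy] at h
    have h2 : |bin (Function.invFun cant x) - bin (Function.invFun cant y)| ≤
        3 * |x - y| ^ (1 / 6 : ℝ) := by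
      refine le_of_pow_le_pow_left₀ (n := 6) (by norm_num) (by positivity) ?_
      rw [mul_pow, ← Real.rpow_natCast (_ ^ (1 / 6 : ℝ)), ← Real.rpow_mul (abs_nonneg _)]
      norm_num
      nlinarith [abs_nonneg (x - y)]
    rw [edist_dist, edist_dist, Real.dist_eq, Real.dist_eq]
    refine (ENNReal.ofReal_le_ofReal h2).trans (le_of_eq ?_)
    rw [ENNReal.ofReal_mul (by norm_num), ← ENNReal.ofReal_rpow_of_nonneg (abs_nonneg _) (by norm_num)]
    norm_num
  have h1 := H.dimH_image_le (by norm_num)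
  have h2 : Icc (0 : ℝ) 1 ⊆ (bin ∘ Function.invFun cant) '' range cant := by
    intro y hy
    obtain ⟨d, -, rfl⟩ := Real.ofDigits_SurjOn (b := 2) (by norm_num) hy
    refine ⟨cant fun i => d i = 1, mem_range_self _, ?_⟩
    have h := bin_holder (Function.invFun cant (cant fun i => d i = 1)) fun i => d i = 1
    rw [Function.invFun_eq (f := cant) (mem_range_self _), sub_self, abs_zero, mul_zero] at h
    have h' := pow_eq_zero_iff (n := 6) (by norm_num) |>.1 (le_antisymm h (by positivity))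
    rw [abs_eq_zero, sub_eq_zero] at h'
    rw [Function.comp, h', bin]
    congr 1; funext i
    have : ∀ t : Fin 2, (if decide (t = 1) = true then 1 else 0) = t := by decide
    exact this _
  have h3 := (dimH_mono h2).trans h1
  rw [Real.dimH_of_nonempty_interior (by simp)] at h3
  rw [pos_iff_ne_zero]
  intro h0
  simp [h0] at h3

theorem exists_cantor : ∃ (E : Set ℝ) (p : ℕ → ℝ), IsCompact E ∧ (∀ x ∈ E, |x| < 1) ∧
    (∀ j, p j ∈ E) ∧
    (∀ x ∈ E, ∀ n : ℕ, ∃ j, 2 ^ n ≤ j ∧ j < 2 ^ (n + 1) ∧ |x - p j| ≤ (64 ^ n)⁻¹) ∧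
    0 < dimH ((fun x : ℝ => (x : ℂ)) '' E) := by
  refine ⟨range cant, fun j => cant j.testBit, isCompact_range ?_, ?_, fun j => mem_range_self _,
    ?_, ?_⟩
  · refine Real.continuous_ofDigits.comp (continuous_pi fun i => ?_)
    exact (continuous_of_discreteTopology (f := fun t : Bool => if t then (1 : Fin 64) else 0)).comp
      (continuous_apply i)
  · rintro _ ⟨b, rfl⟩
    rw [abs_of_nonneg (cant_nonneg b)]; linarith [cant_le b]
  · rintro _ ⟨b, rfl⟩ n
    have h := Nat.ofBits_lt_two_pow (fun i : Fin n => b i)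
    refine ⟨2 ^ n + Nat.ofBits (fun i : Fin n => b i), by omega, by rw [pow_succ]; omega, ?_⟩
    have := Real.abs_ofDigits_sub_ofDigits_le (b := 64) (n := n)
      (x := fun i => if b i then 1 else 0)
      (y := fun i => if (2 ^ n + Nat.ofBits (fun i : Fin n => b i)).testBit i then 1 else 0)
      fun i hi => by rw [Nat.testBit_two_pow_add_gt hi, Nat.testBit_ofBits_lt _ _ hi]
    simpa [cant] using this
  · rw [Complex.isometry_ofReal.dimH_image]; exact dimH_cant

end Pool.Agent.Lib.MP_e2f52c_an
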