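import Pool.Agent.Lib.MP_e2f52c_an.Trace

open MeasureTheory Set Filter Topology
open scoped ENNReal

namespace Pool.Agent.Lib.MP_e2f52c_an

lemma edge_bound {k : ℕ} (hk : Good k) {U : Set ℂ} (hU : IsOpen U) (hc : Convex ℝ U) (hUB : U ⊆ B)
    {f : ℂ → Multiset ℂ} (hf : ∀ z ∈ U, (f z).card = k) {φ : Fin 2 → ℂ → ℝ}
    (hb : IsBound k U f φ) (j : Fin 2) {Φ : ℂ → ℝ≥0∞}
    (hΦ : ∀ᵐ z, z ∈ U → ENNReal.ofReal (φ j z) ≤ Φ z) {h : ℝ} (hh : 0 < h) :
    ∀ᵐ z, z ∈ U → z + h * dir j ∈ U →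
      ENNReal.ofReal (G (f z) (f (z + h * dir j))) ≤ M Φ (dir j) h z := by
  obtain ⟨T, hT, hT'⟩ := hk.exists_seq
  have : ∀ n, ∀ᵐ z, z ∈ U → z + h * dir j ∈ U →
      ENNReal.ofReal |G (f (z + h * dir j)) (T n) - G (f z) (T n)| ≤ M Φ (dir j) h z := by
    intro n
    obtain ⟨h1, h2⟩ := hb.2 (T n) (hT n)
    obtain ⟨v, hv, hw, hvb⟩ := h2 j
    refine diff_bound hU hc (integrableOn_of_memLp hUB h1) (integrableOn_of_memLp hUB hv) hw ?_ hh
    filter_upwards [(ae_restrict_iff' hU.measurableSet).1 hvb, hΦ] with z a1 a2 hz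
    rw [Real.enorm_eq_ofReal_abs]
    exact (ENNReal.ofReal_le_ofReal (a1 hz)).trans (a2 hz)
  filter_upwards [ae_all_iff.2 this] with z hz h1 h2
  rw [hk.comm _ _ (hf _ h1) (hf _ h2)]
  exact hT' _ _ (hf _ h2) (hf _ h1) _ fun n => hz n h1 h2

lemma re_mem_seg {z : ℂ} (hz : z ∈ B) : z.re ∈ seg B := by
  simp only [Metric.mem_ball, dist_zero_right] at hz
  simpa [seg] using (Complex.abs_re_le_norm z).trans_lt hz

lemma trace_edge {k : ℕ} (hk : Good k) {σ : ℝ} (hσ : σ = 1 ∨ σ = -1)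
    {f : ℂ → Multiset ℂ} (hf : ∀ z ∈ side B σ, (f z).card = k) {φ : Fin 2 → ℂ → ℝ}
    (hb : IsBound k (side B σ) f φ) {τ : ℝ → Multiset ℂ} (hτ : HasTrace k B σ f τ)
    {Φ : ℂ → ℝ≥0∞} (hΦ : ∀ᵐ z, z ∈ side B σ → ENNReal.ofReal (φ 1 z) ≤ Φ z) :
    ∀ᵐ z, z ∈ side B σ → ENNReal.ofReal (G (f z) (τ z.re)) ≤
      M ((side B σ).indicator Φ) (-(σ * Complex.I)) 2 z := by
  obtain ⟨T, hT, hT'⟩ := hk.exists_seq
  have hS := isOpen_side (Metric.isOpen_ball : IsOpen B) σ
  have : ∀ n, ∀ᵐ z, z ∈ side B σ → ENNReal.ofReal |G (f z) (T n) - G (τ z.re) (T n)| ≤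
      M ((side B σ).indicator Φ) (-(σ * Complex.I)) 2 z := by
    intro n
    obtain ⟨h1, h2⟩ := hb.2 (T n) (hT n)
    obtain ⟨v, hv, hw, hvb⟩ := h2 1
    refine trace_bound hσ (τ := fun x => G (τ x) (T n))
      (integrableOn_of_memLp (fun z hz => hz.1) h1)
      (integrableOn_of_memLp (fun z hz => hz.1) hv) hw (hτ.2 _ (hT n)) ?_
    filter_upwards [(ae_restrict_iff' hS.measurableSet).1 hvb, hΦ] with z a1 a2 hz
    rw [Real.enorm_eq_ofReal_abs]
    exact (ENNReal.ofReal_le_ofReal (a1 hz)).trans (a2 hz)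
  filter_upwards [ae_all_iff.2 this] with z hz h1
  exact hT' _ _ (hf _ h1) (hτ.1 _ (re_mem_seg h1.1)) _ fun n => hz n h1

noncomputable def sg (ξ : ℂ → ℂ) (z w : ℂ) : ℝ :=
  if z.im < 0 ∧ w.im < 0 then 1 else sgn (ξ z) (ξ w)

noncomputable def len (η ξ : ℂ → ℂ) (z w : ℂ) : ℝ :=
  √(2 * ‖η z - η w‖ ^ 2 + 2 * ‖ξ z - sg ξ z w * ξ w‖ ^ 2)

structure Cfg (φ : ℝ → ℂ) (η ξ : ℂ → ℂ) (Φ : Fin 2 → ℂ → ℝ≥0∞) : Prop where
  mη : Measurable η
  mξ : Measurable ξ
  mΦ : ∀ j, Measurable (Φ j)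
  iη : MemLp η 2 (volume.restrict B)
  iξ : MemLp ξ 2 (volume.restrict B)
  iΦ : ∀ j, ∫⁻ z, Φ j z ^ 2 ≠ ∞
  low : ∀ᵐ z, z ∈ B → z.im < 0 → η z - ξ z = φ z.re
  vert : ∀ h : ℝ, 0 < h → ∀ᵐ z, z ∈ B → z + h * Complex.I ∈ B →
    ENNReal.ofReal (len η ξ z (z + h * Complex.I)) ≤ M (Φ 1) Complex.I h z
  horU : ∀ h : ℝ, 0 < h → ∀ᵐ z, z ∈ B → z + h * 1 ∈ B → 0 < z.im →
    ENNReal.ofReal (len η ξ z (z + h * 1)) ≤ M (Φ 0) 1 h z
  horL : ∀ h : ℝ, 0 < h → ∀ᵐ z, z ∈ B → z + h * 1 ∈ B → z.im < 0 →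
    ENNReal.ofReal ‖(η z + ξ z) - (η (z + h * 1) + ξ (z + h * 1))‖ ≤ M (Φ 0) 1 h z

noncomputable def etaC (φ : ℝ → ℂ) (fp fm : ℂ → Multiset ℂ) (z : ℂ) : ℂ :=
  if 0 < z.im then eta (fp z) else ((fm z).sum + φ z.re) / 2

noncomputable def xiC (φ : ℝ → ℂ) (fp fm : ℂ → Multiset ℂ) (z : ℂ) : ℂ :=
  if 0 < z.im then xi (fp z) else ((fm z).sum - φ z.re) / 2

lemma ae_im_ne : ∀ᵐ z : ℂ, z.im ≠ 0 := by
  have h : ∀ᵐ p : ℝ × ℝ, p.2 ≠ 0 :=
    (Measure.quasiMeasurePreserving_snd (μ := (volume : Measure ℝ)) (ν := (volume : Measure ℝ))).ae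
      (by simp [ae_iff] : ∀ᵐ y : ℝ, y ≠ 0)
  exact Complex.volume_preserving_equiv_real_prod.quasiMeasurePreserving.ae h

lemma mem_up {z : ℂ} : z ∈ side B 1 ↔ z ∈ B ∧ 0 < z.im := by simp [side]

lemma mem_down {z : ℂ} : z ∈ side B (-1) ↔ z ∈ B ∧ z.im < 0 := by simp [side]

lemma restrict_B_eq :
    volume.restrict B = volume.restrict (side B 1) + volume.restrict (side B (-1)) := by
  have hS := isOpen_side (Metric.isOpen_ball : IsOpen B) (-1)
  rw [← Measure.restrict_union _ hS.measurableSet]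
  · apply Measure.restrict_congr_set
    filter_upwards [ae_im_ne] with z hz
    apply propext
    change z ∈ B ↔ z ∈ side B 1 ∪ side B (-1)
    rw [mem_union, mem_up, mem_down]
    constructor
    · intro h; rcases lt_or_gt_of_ne hz with h' | h' <;> tauto
    · tauto
  · rw [disjoint_left]
    intro z h1 h2
    linarith [(mem_up.1 h1).2, (mem_down.1 h2).2]

lemma memLp_B {f : ℂ → ℂ} (h1 : MemLp f 2 (volume.restrict (side B 1)))
    (h2 : MemLp f 2 (volume.restrict (side B (-1)))) : MemLp f 2 (volume.restrict B) := by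
  rw [restrict_B_eq]
  have hm := aestronglyMeasurable_add_measure_iff.2 ⟨h1.1, h2.1⟩
  rw [memLp_two_iff_integrable_sq_norm hm]
  exact ((memLp_two_iff_integrable_sq_norm h1.1).1 h1).add_measure
    ((memLp_two_iff_integrable_sq_norm h2.1).1 h2)

lemma memLp_phi {φ : ℝ → ℂ} (hφ : Continuous φ) (σ : ℝ) :
    MemLp (fun z : ℂ => φ z.re) 2 (volume.restrict (side B σ)) := by
  have hS := isOpen_side (Metric.isOpen_ball : IsOpen B) σ
  have : IsFiniteMeasure (volume.restrict (side B σ)) :=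
    isFiniteMeasure_restrict.2 ((measure_mono fun z hz => hz.1).trans_lt measure_ball_lt_top).ne
  have hc : Continuous fun z : ℂ => φ z.re := by fun_prop
  obtain ⟨C, hC⟩ := (isCompact_closedBall (0 : ℂ) 1).exists_bound_of_continuousOn hc.continuousOn
  refine MemLp.of_bound hc.aestronglyMeasurable C ?_
  exact (ae_restrict_iff' hS.measurableSet).2
    (Eventually.of_forall fun z hz => hC z (Metric.ball_subset_closedBall hz.1))

lemma memLp_canon {φ : ℝ → ℂ} (hφ : Continuous φ) {fp fm : ℂ → Multiset ℂ}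
    (h1 : W12 2 (side B 1) fp) (h2 : W12 1 (side B (-1)) fm) :
    MemLp (etaC φ fp fm) 2 (volume.restrict B) ∧ MemLp (xiC φ fp fm) 2 (volume.restrict B) := by
  have hS := fun σ => (isOpen_side (Metric.isOpen_ball : IsOpen B) σ).measurableSet
  obtain ⟨c1, φp, b1⟩ := h1
  obtain ⟨c2, φm, b2⟩ := h2
  have c1' := (ae_restrict_iff' (μ := volume) (hS 1)).2 (Eventually.of_forall c1)
  have c2' := (ae_restrict_iff' (μ := volume) (hS (-1))).2 (Eventually.of_forall c2)
  obtain ⟨m1, m2⟩ := aemeasurable_eta_xi c1' fun T hT => (b1.2 T hT).1.1.aemeasurable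
  have m3 := aemeasurable_sum c2' fun T hT => (b2.2 T hT).1.1.aemeasurable
  have l1 : MemLp (fun z => eta (fp z)) 2 (volume.restrict (side B 1)) :=
    (b1.2 {0, 0} (by simp)).1.of_le m1.aestronglyMeasurable (c1'.mono fun z hz =>
      (norm_eta_le hz).1.trans (le_abs_self _))
  have l2 : MemLp (fun z => xi (fp z)) 2 (volume.restrict (side B 1)) :=
    (b1.2 {0, 0} (by simp)).1.of_le m2.aestronglyMeasurable (c1'.mono fun z hz =>
      (norm_eta_le hz).2.trans (le_abs_self _))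
  have l3 : MemLp (fun z => (fm z).sum) 2 (volume.restrict (side B (-1))) :=
    (b2.2 {0} (by simp)).1.of_le m3.aestronglyMeasurable (c2'.mono fun z hz => by
      obtain ⟨a, ha⟩ := Multiset.card_eq_one.1 hz
      simp [ha, G_single])
  have up : ∀ᵐ z ∂(volume.restrict (side B 1)), 0 < z.im :=
    (ae_restrict_iff' (hS 1)).2 (Eventually.of_forall fun z hz => (mem_up.1 hz).2)
  have dn : ∀ᵐ z ∂(volume.restrict (side B (-1))), ¬ 0 < z.im :=
    (ae_restrict_iff' (hS (-1))).2 (Eventually.of_forall fun z hz => (mem_down.1 hz).2.not_gt)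
  constructor
  · refine memLp_B (l1.ae_eq (up.mono fun z hz => by simp [etaC, hz])) ?_
    refine ((l3.add (memLp_phi hφ _)).mul_const (2 : ℂ)⁻¹).ae_eq (dn.mono fun z hz => ?_)
    simp [etaC, hz, div_eq_mul_inv]
  · refine memLp_B (l2.ae_eq (up.mono fun z hz => by simp [xiC, hz])) ?_
    refine ((l3.sub (memLp_phi hφ _)).mul_const (2 : ℂ)⁻¹).ae_eq (dn.mono fun z hz => ?_)
    simp [xiC, hz, div_eq_mul_inv]

lemma M_cross {Φ : ℂ → ℝ≥0∞} (hΦ : Measurable Φ) {z : ℂ} {h : ℝ} (h1 : z.im < 0)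
    (h2 : 0 < z.im + h) :
    M ((side B (-1)).indicator Φ) (-(((-1 : ℝ) : ℂ) * Complex.I)) 2 z +
      M ((side B 1).indicator Φ) (-(((1 : ℝ) : ℂ) * Complex.I)) 2 (z + h * Complex.I) ≤
      M Φ Complex.I h z := by
  have hS := fun σ => (isOpen_side (Metric.isOpen_ball : IsOpen B) σ).measurableSet
  have a1 : M ((side B (-1)).indicator Φ) (-(((-1 : ℝ) : ℂ) * Complex.I)) 2 z ≤
      M ((side B (-1)).indicator Φ) Complex.I h z := by
    simp only [M, ← lintegral_indicator measurableSet_Ioc]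
    refine lintegral_mono fun t => ?_
    simp only [Complex.ofReal_neg, Complex.ofReal_one, neg_mul, one_mul, neg_neg]
    by_cases ht : t ∈ Ioc (0 : ℝ) 2
    · rw [indicator_of_mem ht]
      by_cases hz : z + t * Complex.I ∈ side B (-1)
      · have := (mem_down.1 hz).2
        simp at this
        rw [indicator_of_mem (show t ∈ Ioc 0 h from ⟨ht.1, by linarith⟩)]
      · rw [indicator_of_notMem hz]; exact bot_le
    · rw [indicator_of_notMem ht]; exact bot_le
  have a2 : M ((side B 1).indicator Φ) (-(((1 : ℝ) : ℂ) * Complex.I)) 2 (z + h * Complex.I) ≤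
      M ((side B 1).indicator Φ) Complex.I h z := by
    simp only [M, ← lintegral_indicator measurableSet_Ioc]
    rw [← lintegral_sub_left_eq_self _ h]
    refine lintegral_mono fun t => ?_
    by_cases ht : h - t ∈ Ioc (0 : ℝ) 2
    · rw [indicator_of_mem ht]
      have e : z + h * Complex.I + ((h - t : ℝ) : ℂ) * -(((1 : ℝ) : ℂ) * Complex.I) =
        z + t * Complex.I := by push_cast; ring
      rw [e]
      by_cases hz : z + t * Complex.I ∈ side B 1
      · have := (mem_up.1 hz).2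
        simp at this
        rw [indicator_of_mem (show t ∈ Ioc 0 h from ⟨by linarith, by linarith [ht.1]⟩)]
      · rw [indicator_of_notMem hz]; exact bot_le
    · rw [indicator_of_notMem ht]; exact bot_le
  refine (add_le_add a1 a2).trans ?_
  simp only [M]
  have hm : Measurable fun t : ℝ => (side B (-1)).indicator Φ (z + t * Complex.I) :=
    (hΦ.indicator (hS _)).comp (by fun_prop)
  rw [← lintegral_add_left hm]
  refine lintegral_mono fun t => ?_
  by_cases hz : z + t * Complex.I ∈ side B 1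
  · have : z + t * Complex.I ∉ side B (-1) := fun h' => by
      linarith [(mem_up.1 hz).2, (mem_down.1 h').2]
    simp [indicator_of_mem hz, indicator_of_notMem this]
  · simp only [Function.comp, indicator_of_notMem hz, add_zero]
    exact indicator_le_self _ _ _

lemma sq_ofReal_le (x : ℝ) : ENNReal.ofReal x ^ 2 ≤ ENNReal.ofReal (x ^ 2) := by
  rcases le_total 0 x with h | h
  · rw [ENNReal.ofReal_pow h]
  · simp [ENNReal.ofReal_of_nonpos h]

lemma lintegral_sq_ne_top {μ : Measure ℂ} {f : ℂ → ℝ} (h : MemLp f 2 μ) :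
    ∫⁻ z, ENNReal.ofReal (f z ^ 2) ∂μ ≠ ∞ :=
  h.integrable_sq.lintegral_lt_top.ne

theorem exists_cfg {φ : ℝ → ℂ} (hφ : Continuous φ) {fp fm : ℂ → Multiset ℂ}
    (H : HalfValued 1 B φ fp fm) {φp φm : Fin 2 → ℂ → ℝ} (bp : IsBound 2 (side B 1) fp φp)
    (bm : IsBound 1 (side B (-1)) fm φm) :
    ∃ η ξ Φ, Cfg φ η ξ Φ ∧ (∀ᵐ z, z ∈ B → η z = etaC φ fp fm z ∧ ξ z = xiC φ fp fm z) ∧
      (∫⁻ z, Φ 0 z ^ 2) + ∫⁻ z, Φ 1 z ^ 2 ≤
        (∫⁻ z in side B 1, ∑ j, ENNReal.ofReal (φp j z ^ 2)) +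
          ∫⁻ z in side B (-1), ∑ j, ENNReal.ofReal (φm j z ^ 2) := by
  have hO := fun σ => isOpen_side (Metric.isOpen_ball : IsOpen B) σ
  have hS := fun σ => (hO σ).measurableSet
  have hC := fun σ => convex_side (convex_ball (0 : ℂ) 1) σ
  obtain ⟨w1, w2, τ, t2, t1⟩ := H
  obtain ⟨l1, l2⟩ := memLp_canon hφ w1 w2
  let η := l1.1.aemeasurable.mk _
  let ξ := l2.1.aemeasurable.mk _
  have hE : ∀ᵐ z, z ∈ B → η z = etaC φ fp fm z ∧ ξ z = xiC φ fp fm z := by
    filter_upwards [(ae_restrict_iff' measurableSet_ball).1 l1.1.aemeasurable.ae_eq_mk,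
      (ae_restrict_iff' measurableSet_ball).1 l2.1.aemeasurable.ae_eq_mk] with z a b hz
    exact ⟨(a hz).symm, (b hz).symm⟩
  let P : Fin 2 → ℂ → ℝ := fun j => (bp.1 j).1.aemeasurable.mk _
  let Q : Fin 2 → ℂ → ℝ := fun j => (bm.1 j).1.aemeasurable.mk _
  have mP : ∀ j, Measurable (P j) := fun j => (bp.1 j).1.aemeasurable.measurable_mk
  have mQ : ∀ j, Measurable (Q j) := fun j => (bm.1 j).1.aemeasurable.measurable_mk
  have eP : ∀ j, φp j =ᵐ[volume.restrict (side B 1)] P j :=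
    fun j => (bp.1 j).1.aemeasurable.ae_eq_mk
  have eQ : ∀ j, φm j =ᵐ[volume.restrict (side B (-1))] Q j :=
    fun j => (bm.1 j).1.aemeasurable.ae_eq_mk
  let Φ : Fin 2 → ℂ → ℝ≥0∞ := fun j z => (side B 1).indicator (fun z => ENNReal.ofReal (P j z)) z +
    (side B (-1)).indicator (fun z => ENNReal.ofReal (Q j z)) z
  have mΦ : ∀ j, Measurable (Φ j) := fun j =>
    ((mP j).ennreal_ofReal.indicator (hS _)).add ((mQ j).ennreal_ofReal.indicator (hS _))
  have bP : ∀ j, ∀ᵐ z, z ∈ side B 1 → ENNReal.ofReal (φp j z) ≤ Φ j z := fun j => by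
    filter_upwards [(ae_restrict_iff' (hS _)).1 (eP j)] with z a hz
    simp only [Φ, indicator_of_mem hz, a hz]; exact le_self_add
  have bQ : ∀ j, ∀ᵐ z, z ∈ side B (-1) → ENNReal.ofReal (φm j z) ≤ Φ j z := fun j => by
    filter_upwards [(ae_restrict_iff' (hS _)).1 (eQ j)] with z a hz
    simp only [Φ, indicator_of_mem hz, a hz]; exact le_add_self
  have iΦ : ∀ j, ∫⁻ z, Φ j z ^ 2 ≤ (∫⁻ z in side B 1, ENNReal.ofReal (φp j z ^ 2)) +
      ∫⁻ z in side B (-1), ENNReal.ofReal (φm j z ^ 2) := fun j => by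
    rw [lintegral_congr_ae ((eP j).mono fun z hz => by
        show ENNReal.ofReal (φp j z ^ 2) = ENNReal.ofReal (P j z ^ 2); rw [hz]),
      lintegral_congr_ae ((eQ j).mono fun z hz => by
        show ENNReal.ofReal (φm j z ^ 2) = ENNReal.ofReal (Q j z ^ 2); rw [hz]),
      ← lintegral_indicator (hS _), ← lintegral_indicator (hS _),
      ← lintegral_add_left (((mP j).pow_const 2).ennreal_ofReal.indicator (hS _))]
    refine lintegral_mono fun z => ?_
    by_cases h1 : z ∈ side B 1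
    · have h2 : z ∉ side B (-1) := fun h' => by linarith [(mem_up.1 h1).2, (mem_down.1 h').2]
      simp only [Φ, indicator_of_mem h1, indicator_of_notMem h2, add_zero]
      exact sq_ofReal_le _
    · by_cases h2 : z ∈ side B (-1)
      · simp only [Φ, indicator_of_mem h2, indicator_of_notMem h1, zero_add]
        exact sq_ofReal_le _
      · simp [Φ, indicator_of_notMem h1, indicator_of_notMem h2]
  have upper : ∀ z w, z ∈ side B 1 → w ∈ side B 1 →
      (η z = etaC φ fp fm z ∧ ξ z = xiC φ fp fm z) →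
      (η w = etaC φ fp fm w ∧ ξ w = xiC φ fp fm w) → len η ξ z w = G (fp z) (fp w) := by
    intro z w hz hw a b
    have h1 := (mem_up.1 hz).2
    have h2 := (mem_up.1 hw).2
    rw [G_eta_xi (w1.1 z hz) (w1.1 w hw), len, sg, if_neg (fun h => by linarith [h.1]), a.1, a.2,
      b.1, b.2]
    simp [etaC, xiC, h1, h2]
  have lower : ∀ z, z ∈ side B (-1) → (η z = etaC φ fp fm z ∧ ξ z = xiC φ fp fm z) →
      fm z = {η z + ξ z} ∧ η z - ξ z = φ z.re := by
    intro z hz a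
    have h1 := (mem_down.1 hz).2.not_gt
    obtain ⟨s, hs⟩ := Multiset.card_eq_one.1 (w2.1 z hz)
    rw [a.1, a.2]
    simp only [etaC, xiC, if_neg h1, hs, Multiset.sum_singleton]
    exact ⟨by congr 1; ring, by ring⟩
  refine ⟨η, ξ, Φ, ⟨l1.1.aemeasurable.measurable_mk, l2.1.aemeasurable.measurable_mk, mΦ,
    l1.ae_eq l1.1.aemeasurable.ae_eq_mk, l2.ae_eq l2.1.aemeasurable.ae_eq_mk, fun j => ?_,
    ?_, fun h hh => ?_, fun h hh => ?_, fun h hh => ?_⟩, hE, ?_⟩
  · exact ((iΦ j).trans_lt (ENNReal.add_lt_top.2 ⟨(lintegral_sq_ne_top (bp.1 j)).lt_top,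
      (lintegral_sq_ne_top (bm.1 j)).lt_top⟩)).ne
  · filter_upwards [hE] with z a hz hz'
    exact (lower z (mem_down.2 ⟨hz, hz'⟩) (a hz)).2
  · have e1 := edge_bound good_two (hO 1) (hC 1) (fun z hz => hz.1) w1.1 bp 1 (bP 1) hh
    have e2 := edge_bound good_one (hO (-1)) (hC (-1)) (fun z hz => hz.1) w2.1 bm 1 (bQ 1) hh
    have e3 := trace_edge good_two (Or.inl rfl) w1.1 bp t1 (bP 1)
    have e4 := trace_edge good_one (Or.inr rfl) w2.1 bm t2 (bQ 1)
    filter_upwards [hE, ae_add hE (h * Complex.I), ae_im_ne, ae_add ae_im_ne (h * Complex.I), e1,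
      e2, ae_add e3 (h * Complex.I), e4] with z a b n1 n2 e1 e2 e3 e4 hz hw
    have him : (z + h * Complex.I).im = z.im + h := by simp
    have hre : (z + h * Complex.I).re = z.re := by simp
    rcases lt_or_gt_of_ne n1 with c1 | c1
    · have hz' := mem_down.2 ⟨hz, c1⟩
      obtain ⟨f1, f2⟩ := lower z hz' (a hz)
      rcases lt_or_gt_of_ne n2 with c2 | c2
      · have hw' := mem_down.2 ⟨hw, c2⟩
        obtain ⟨f3, f4⟩ := lower _ hw' (b hw)
        refine le_trans (le_of_eq ?_) (e2 hz' hw')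
        change _ = ENNReal.ofReal (G (fm z) (fm (z + h * Complex.I)))
        rw [f1, f3, G_single, len, sg, if_pos ⟨c1, c2⟩]
        congr 1
        rw [hre, ← f2] at f4
        have : η z - η (z + h * Complex.I) = ξ z - ξ (z + h * Complex.I) := by
          linear_combination -f4
        rw [show η z + ξ z - (η (z + h * Complex.I) + ξ (z + h * Complex.I)) =
          2 * (ξ z - ξ (z + h * Complex.I)) by linear_combination this, this, norm_mul]
        simp only [Complex.ofReal_one, one_mul, Complex.norm_ofNat]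
        rw [Real.sqrt_eq_iff_mul_self_eq (by positivity) (by positivity)]; ring
      · have hw' := mem_up.2 ⟨hw, c2⟩
        have k1 : len η ξ z (z + h * Complex.I) =
            G {η z + ξ z, η z - ξ z} (fp (z + h * Complex.I)) := by
          conv_rhs => rw [eq_pm (w1.1 _ hw')]
          rw [G_pm, len, sg, if_neg (fun h => by linarith [h.2]), (b hw).1, (b hw).2]
          simp only [etaC, xiC, if_pos c2]
        obtain ⟨t, ht⟩ := Multiset.card_eq_one.1 (t2.1 _ (re_mem_seg hz))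
        have k2 := good_two.tri {η z + ξ z, η z - ξ z} (φ z.re ::ₘ τ z.re)
          (fp (z + h * Complex.I)) (by simp) (by simp [ht]) (w1.1 _ hw')
        have k3 : G {η z + ξ z, η z - ξ z} (φ z.re ::ₘ τ z.re) ≤ G (fm z) (τ z.re) := by
          rw [f1, ht, G_single, f2]
          change G _ {φ z.re, t} ≤ _
          rw [G_pair]
          refine (min_le_right _ _).trans (le_of_eq ?_)
          simp [D2]
        have k4 := e3 hw'
        rw [hre, good_two.comm _ _ (w1.1 _ hw') (by simp [ht])] at k4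
        refine le_trans ?_ (M_cross (mΦ 1) c1 (him ▸ c2))
        refine le_trans ?_ (add_le_add (e4 hz') k4)
        rw [k1]
        exact (ENNReal.ofReal_le_ofReal (k2.trans (add_le_add k3 le_rfl))).trans
          ENNReal.ofReal_add_le
    · have hz' := mem_up.2 ⟨hz, c1⟩
      have hw' := mem_up.2 ⟨hw, by rw [him]; linarith⟩
      rw [upper _ _ hz' hw' (a hz) (b hw)]
      exact e1 hz' hw'
  · have e1 := edge_bound good_two (hO 1) (hC 1) (fun z hz => hz.1) w1.1 bp 0 (bP 0) hh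
    filter_upwards [hE, ae_add hE (h * 1), e1] with z a b e1 hz hw c1
    have hz' := mem_up.2 ⟨hz, c1⟩
    have hw' := mem_up.2 ⟨hw, by simpa using c1⟩
    rw [upper _ _ hz' hw' (a hz) (b hw)]
    exact e1 hz' hw'
  · have e2 := edge_bound good_one (hO (-1)) (hC (-1)) (fun z hz => hz.1) w2.1 bm 0 (bQ 0) hh
    filter_upwards [hE, ae_add hE (h * 1), e2] with z a b e2 hz hw c1
    have hz' := mem_down.2 ⟨hz, c1⟩
    have hw' := mem_down.2 ⟨hw, by simpa using c1⟩
    rw [← G_single, ← (lower _ hz' (a hz)).1, ← (lower _ hw' (b hw)).1]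
    exact e2 hz' hw'
  · refine (add_le_add (iΦ 0) (iΦ 1)).trans (le_of_eq ?_)
    simp only [Fin.sum_univ_two]
    rw [lintegral_add_left' ((bp.1 0).1.aemeasurable.pow_const 2).ennreal_ofReal,
      lintegral_add_left' ((bm.1 0).1.aemeasurable.pow_const 2).ennreal_ofReal]
    ring

end Pool.Agent.Lib.MP_e2f52c_an
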