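import Mathlib

/-!
Definitions for `(Q - 1/2)`-valued functions in the case `m = n = 2`, with the flat interface
`γ = Ω ∩ ℝ`.  Domain and target `ℝ²` are both written `ℂ`.  An element of `𝒜_k(ℝ²)` is a multiset
of cardinality `k`.  Sobolev maps, energy and traces are those of Almgren in the intrinsic form of
De Lellis–Spadaro (Q-valued functions revisited, Definitions 0.5 and 0.7).
-/

open MeasureTheory Set
open scoped ENNReal ContDiff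

namespace Pool.Agent.Lib.MP_e2f52c_an

/-- Almgren's distance: the minimum of `(∑ |P i - R i|²)^(1/2)` over all enumerations
`P` of `T` and `R` of `S`. -/
noncomputable def G (T S : Multiset ℂ) : ℝ :=
  sInf {d | ∃ (k : ℕ) (P R : Fin k → ℂ), T = Finset.univ.val.map P ∧
    S = Finset.univ.val.map R ∧ d = √(∑ i, ‖P i - R i‖ ^ 2)}

/-- `ψ ∈ C_c^∞(U)`. -/
def Test (U : Set ℂ) (ψ : ℂ → ℝ) : Prop :=
  ContDiff ℝ ∞ ψ ∧ HasCompactSupport ψ ∧ tsupport ψ ⊆ U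

/-- The two coordinate directions. -/
def dir : Fin 2 → ℂ := ![1, Complex.I]

/-- `v` is the weak derivative of `u` in direction `e` on `U`. -/
def IsWeakDeriv (U : Set ℂ) (e : ℂ) (u v : ℂ → ℝ) : Prop :=
  ∀ ψ, Test U ψ → ∫ z in U, u z * fderiv ℝ ψ z e = -∫ z in U, v z * ψ z

/-- `φ j ∈ L²(U)`, and for every `T ∈ 𝒜_k` the function `G(f, T)` is in `W^{1,2}(U)` with
`|∂_j G(f, T)| ≤ φ j` almost everywhere. -/
def IsBound (k : ℕ) (U : Set ℂ) (f : ℂ → Multiset ℂ) (φ : Fin 2 → ℂ → ℝ) : Prop :=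
  (∀ j, MemLp (φ j) 2 (volume.restrict U)) ∧
  ∀ T : Multiset ℂ, T.card = k → MemLp (fun z => G (f z) T) 2 (volume.restrict U) ∧
    ∀ j, ∃ v, MemLp v 2 (volume.restrict U) ∧ IsWeakDeriv U (dir j) (fun z => G (f z) T) v ∧
      ∀ᵐ z ∂(volume.restrict U), |v z| ≤ φ j z

/-- `f ∈ W^{1,2}(U, 𝒜_k(ℝ²))`. -/
def W12 (k : ℕ) (U : Set ℂ) (f : ℂ → Multiset ℂ) : Prop :=
  (∀ z ∈ U, (f z).card = k) ∧ ∃ φ, IsBound k U f φ

/-- The Dirichlet energy `∫ ∑_j |∂_j f|²`, where `|∂_j f|` are the minimal admissible `φ j`. -/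
noncomputable def Dir (k : ℕ) (U : Set ℂ) (f : ℂ → Multiset ℂ) : ℝ≥0∞ :=
  ⨅ (φ : Fin 2 → ℂ → ℝ) (_ : IsBound k U f φ), ∫⁻ z in U, ∑ j, ENNReal.ofReal (φ j z ^ 2)

/-- `Ω^+` for `σ = 1` and `Ω^-` for `σ = -1`. -/
def side (Ω : Set ℂ) (σ : ℝ) : Set ℂ := {z ∈ Ω | 0 < σ * z.im}

/-- The interface `γ = Ω ∩ ℝ`. -/
def seg (Ω : Set ℂ) : Set ℝ := {x | (x : ℂ) ∈ Ω}

/-- `τ ∈ L²(γ)` is the trace on `γ` of the function `u ∈ W^{1,2}(side Ω σ)`: Green's formula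
holds for test functions on `Ω`, with `v = ∂_y u`. -/
def IsTrace (Ω : Set ℂ) (σ : ℝ) (u : ℂ → ℝ) (τ : ℝ → ℝ) : Prop :=
  MemLp τ 2 (volume.restrict (seg Ω)) ∧ ∃ v, MemLp v 2 (volume.restrict (side Ω σ)) ∧
    ∀ ψ, Test Ω ψ → ∫ z in side Ω σ, (u z * fderiv ℝ ψ z Complex.I + v z * ψ z) =
      -σ * ∫ x in seg Ω, τ x * ψ x

/-- `τ : γ → 𝒜_k` is the trace of `f`: `G(τ, T)` is the trace of `G(f, T)` for every `T`. -/
def HasTrace (k : ℕ) (Ω : Set ℂ) (σ : ℝ) (f : ℂ → Multiset ℂ) (τ : ℝ → Multiset ℂ) : Prop :=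
  (∀ x ∈ seg Ω, (τ x).card = k) ∧
  ∀ T : Multiset ℂ, T.card = k → IsTrace Ω σ (fun z => G (f z) T) (fun x => G (τ x) T)

/-- `(gp, gm)` is a `(Q - 1/2)`-valued function on `Ω` with interface `(γ, φ)`, `Q = q + 1`. -/
def HalfValued (q : ℕ) (Ω : Set ℂ) (φ : ℝ → ℂ) (gp gm : ℂ → Multiset ℂ) : Prop :=
  W12 (q + 1) (side Ω 1) gp ∧ W12 q (side Ω (-1)) gm ∧
  ∃ τ, HasTrace q Ω (-1) gm τ ∧ HasTrace (q + 1) Ω 1 gp (fun x => φ x ::ₘ τ x)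

/-- `(gp, gm)` is Dir-minimizing. -/
def DirMin (q : ℕ) (Ω : Set ℂ) (φ : ℝ → ℂ) (gp gm : ℂ → Multiset ℂ) : Prop :=
  HalfValued q Ω φ gp gm ∧
  ∀ hp hm, HalfValued q Ω φ hp hm → ∀ K, IsCompact K → K ⊆ Ω →
    (∀ᵐ z, z ∈ side Ω 1 \ K → hp z = gp z) → (∀ᵐ z, z ∈ side Ω (-1) \ K → hm z = gm z) →
    Dir (q + 1) (side Ω 1) gp + Dir q (side Ω (-1)) gm ≤
      Dir (q + 1) (side Ω 1) hp + Dir q (side Ω (-1)) hm

/-- A single-valued sheet: continuous, or of class `W^{1,2}`. -/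
def Sheet (U : Set ℂ) (u : ℂ → ℂ) : Prop :=
  ContinuousOn u U ∨ W12 1 U (fun z => {u z})

/-- Conditions (i) and (ii) on `B_r(p)`; `w` is `u_1` and `u` lists `u_2, …, u_Q`. -/
def Splits (q : ℕ) (Ω : Set ℂ) (gp gm : ℂ → Multiset ℂ) (p : ℂ) (r : ℝ) (w : ℂ → ℂ)
    (u : Fin q → ℂ → ℂ) : Prop :=
  0 < r ∧ Sheet (Metric.ball p r ∩ side Ω 1) w ∧ (∀ i, Sheet (Metric.ball p r) (u i)) ∧
  (∀ᵐ z, z ∈ Metric.ball p r ∩ side Ω 1 → gp z = w z ::ₘ Finset.univ.val.map (u · z)) ∧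
  (∀ᵐ z, z ∈ Metric.ball p r ∩ side Ω (-1) → gm z = Finset.univ.val.map (u · z)) ∧
  ∀ i j, (∀ z ∈ Metric.ball p r, u i z ≠ u j z) ∨ ∀ z ∈ Metric.ball p r, u i z = u j z

/-- Regular boundary point: (i), (ii) and (iii). -/
def RegularPt (q : ℕ) (Ω : Set ℂ) (gp gm : ℂ → Multiset ℂ) (p : ℂ) : Prop :=
  ∃ r w u, Splits q Ω gp gm p r w u ∧ ∀ i,
    (∀ z ∈ Metric.ball p r ∩ side Ω 1, w z ≠ u i z) ∨
      ∀ z ∈ Metric.ball p r ∩ side Ω 1, w z = u i z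

/-- The genuine boundary singularities: points of `γ` that are not regular and not of
crossing type. -/
def genuine (q : ℕ) (Ω : Set ℂ) (gp gm : ℂ → Multiset ℂ) : Set ℂ :=
  {p | p ∈ Ω ∧ p.im = 0 ∧ ¬ RegularPt q Ω gp gm p ∧ ¬ ∃ r w u, Splits q Ω gp gm p r w u}

end Pool.Agent.Lib.MP_e2f52c_an
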