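import Mathlib

open Set Filter Topology Complex

namespace Pool.Agent.Lib.MP_e2f52c_an

noncomputable def cc (j : ℕ) : ℝ := 1 / ((j : ℝ) + 1) ^ 2

noncomputable def ee (j : ℕ) : ℂ := -(I * (cc j ^ 2 / 8 : ℝ))

noncomputable def rt (p : ℕ → ℝ) (j : ℕ) (z : ℂ) : ℂ := (-I * (z - p j)) ^ (2⁻¹ : ℂ)

noncomputable def Psi (p : ℕ → ℝ) (z : ℂ) : ℂ := ∑' j, (cc j : ℂ) / rt p j z

noncomputable def Pr (p : ℕ → ℝ) (e : ℕ → ℂ) (z : ℂ) : ℂ := ∏' j, (1 + e j / (z - p j))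

noncomputable def Lam (p : ℕ → ℝ) (z : ℂ) : ℂ := ∑' j, log (1 + ee j / (z - p j))

noncomputable def F0 (p : ℕ → ℝ) (z : ℂ) : ℂ := exp (-2 * Psi p z) * Pr p ee z

noncomputable def del (p : ℕ → ℝ) (z : ℂ) : ℂ := exp (-Psi p z + Lam p z / 2)

lemma cc_pos (j : ℕ) : 0 < cc j := by unfold cc; positivity

lemma cc_le (j : ℕ) : cc j ≤ 1 := by
  unfold cc
  rw [div_le_one (by positivity)]
  exact one_le_pow₀ (by simp)

lemma summable_cc : Summable cc := by
  have := (summable_nat_add_iff 1).2 (Real.summable_one_div_nat_pow.2 (by norm_num : 1 < 2))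
  exact this.congr fun n => by simp [cc]

lemma norm_ee (j : ℕ) : ‖ee j‖ = cc j ^ 2 / 8 := by
  rw [ee, norm_neg, norm_mul, norm_I, one_mul, norm_real, Real.norm_of_nonneg (by positivity)]

lemma norm_ee_le (j : ℕ) : ‖ee j‖ ≤ cc j := by
  rw [norm_ee]; nlinarith [cc_pos j, cc_le j]

variable {p : ℕ → ℝ}

lemma norm_rt (j : ℕ) (z : ℂ) : ‖rt p j z‖ = √‖z - p j‖ := by
  have := norm_cpow_inv_nat (-I * (z - p j)) 2
  simp only [Nat.cast_ofNat] at this
  rw [rt, this, Real.sqrt_eq_rpow]; simp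

lemma re_inv_rt {j : ℕ} {z : ℂ} (h0 : 0 < ‖z - p j‖) (h : -‖z - p j‖ / 2 ≤ z.im) :
    1 / (2 * √‖z - p j‖) ≤ (rt p j z)⁻¹.re := by
  rw [inv_re, normSq_eq_norm_sq, norm_rt, Real.sq_sqrt h0.le, rt, cpow_inv_two_re]
  have e1 : ‖-I * (z - p j)‖ = ‖z - p j‖ := by simp
  have e2 : (-I * (z - p j)).re = z.im := by simp
  rw [e1, e2]
  generalize ‖z - p j‖ = r at *
  have h1 : √r / 2 ≤ √((r + z.im) / 2) := by
    apply Real.le_sqrt_of_sq_le
    rw [div_pow, Real.sq_sqrt h0.le]; linarith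
  have h2 := Real.sqrt_pos.2 h0
  have h3 := Real.mul_self_sqrt h0.le
  rw [div_le_div_iff₀ (by positivity) h0]
  nlinarith

lemma norm_term1 {ρ : ℝ} (hρ : 0 < ρ) {j : ℕ} {z : ℂ} (h : ρ ≤ ‖z - p j‖) :
    ‖(cc j : ℂ) / rt p j z‖ ≤ cc j / √ρ := by
  rw [norm_div, norm_rt, norm_real, Real.norm_of_nonneg (cc_pos j).le]
  have := cc_pos j
  gcongr

lemma norm_term2 {ρ : ℝ} (hρ : 0 < ρ) {e : ℕ → ℂ} (he : ∀ j, ‖e j‖ ≤ cc j) {j : ℕ} {z : ℂ}
    (h : ρ ≤ ‖z - p j‖) : ‖e j / (z - p j)‖ ≤ cc j / ρ := by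
  rw [norm_div]
  have := cc_pos j
  have := he j
  gcongr

lemma summable_term2 {ρ : ℝ} (hρ : 0 < ρ) {e : ℕ → ℂ} (he : ∀ j, ‖e j‖ ≤ cc j) {z : ℂ}
    (h : ∀ j, ρ ≤ ‖z - p j‖) : Summable fun j => ‖e j / (z - p j)‖ :=
  (summable_cc.div_const ρ).of_nonneg_of_le (fun _ => norm_nonneg _) fun j => norm_term2 hρ he (h j)

lemma norm_F0_le {ρ : ℝ} (hρ : 0 < ρ) {z : ℂ} (h : ∀ j, ρ ≤ ‖z - p j‖)
    (hV : ∀ j, -‖z - p j‖ / 2 ≤ z.im) (i : ℕ) :
    ‖F0 p z‖ ≤ Real.exp (-(cc i / (2 * √‖z - p i‖))) := by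
  have s1 : Summable fun j => (cc j : ℂ) / rt p j z :=
    (summable_cc.div_const _).of_norm_bounded fun j => norm_term1 hρ (h j)
  have h1 := ((s1.hasSum.mul_left (-2)).cexp.mul
    (multipliable_one_add_of_summable (summable_term2 hρ norm_ee_le h)).hasProd).norm
  have key : ∀ j, ‖exp (-2 * ((cc j : ℂ) / rt p j z)) * (1 + ee j / (z - p j))‖ ≤
      Real.exp (-(cc j / (2 * √‖z - p j‖))) := fun j => by
    have r0 := hρ.trans_le (h j)
    have a1 := re_inv_rt r0 (hV j)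
    have c0 := cc_pos j
    have a2 : ‖1 + ee j / (z - p j)‖ ≤ Real.exp (cc j / (2 * √‖z - p j‖)) := by
      refine (norm_add_le _ _).trans (le_trans ?_ (Real.quadratic_le_exp_of_nonneg (by positivity)))
      rw [norm_one, norm_div, norm_ee, div_pow, mul_pow, Real.sq_sqrt r0.le]
      have : cc j ^ 2 / 8 / ‖z - p j‖ = cc j ^ 2 / (2 ^ 2 * ‖z - p j‖) / 2 := by
        field_simp; norm_num
      rw [this]
      have : 0 ≤ cc j / (2 * √‖z - p j‖) := by positivity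
      linarith
    rw [norm_mul, norm_exp]
    refine (mul_le_mul_of_nonneg_left a2 (Real.exp_pos _).le).trans ?_
    rw [← Real.exp_add, Real.exp_le_exp]
    have e : (-2 * ((cc j : ℂ) / rt p j z)).re = -2 * cc j * (rt p j z)⁻¹.re := by
      rw [div_eq_mul_inv, ← mul_assoc]
      have : (-2 * (cc j : ℂ)) = ((-2 * cc j : ℝ) : ℂ) := by push_cast; ring
      rw [this, re_ofReal_mul]
    rw [e]
    have e2 : cc j / (2 * √‖z - p j‖) = cc j * (1 / (2 * √‖z - p j‖)) := by ring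
    rw [e2]
    nlinarith
  refine le_of_tendsto h1 ?_
  filter_upwards [eventually_ge_atTop {i}] with t ht
  refine (Finset.prod_le_prod_of_subset_of_le_one ht (fun _ _ => norm_nonneg _)
    fun j _ _ => (key j).trans (Real.exp_le_one_iff.2 ?_)).trans ?_
  · have := cc_pos j
    rw [neg_nonpos]; positivity
  · rw [Finset.prod_singleton]; exact key i

lemma slit_term {j : ℕ} {z : ℂ} (h : z.re ≠ p j) : 1 + ee j / (z - p j) ∈ slitPlane := by
  right
  have h0 : z - p j ≠ 0 := fun h' => h (by simpa using congrArg re (sub_eq_zero.1 h'))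
  have hn := normSq_pos.2 h0
  have c0 := cc_pos j
  have : (1 + ee j / (z - p j)).im = -(cc j ^ 2 / 8) * (z.re - p j) / normSq (z - p j) := by
    simp only [add_im, one_im, div_im, ee, neg_im, neg_re, mul_im, mul_re, I_re, I_im, ofReal_re,
      ofReal_im, sub_re, sub_im]
    ring
  rw [this]
  exact div_ne_zero (mul_ne_zero (by rw [neg_ne_zero]; positivity) (sub_ne_zero.2 h)) hn.ne'

lemma del_sq {ρ : ℝ} (hρ : 0 < ρ) {z : ℂ} (h : ∀ j, ρ ≤ ‖z - p j‖) (hz : ∀ j, z.re ≠ p j) :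
    del p z ^ 2 = F0 p z := by
  rw [del, F0, Pr, ← cexp_tsum_eq_tprod (fun j => slitPlane_ne_zero (slit_term (hz j)))
    (summable_log_one_add_of_summable (summable_term2 hρ norm_ee_le h).of_norm), ← exp_add,
    ← exp_nat_mul, Lam]
  congr 1; push_cast; ring

lemma diff_Psi {ρ : ℝ} (hρ : 0 < ρ) {W : Set ℂ} (hW : IsOpen W)
    (h : ∀ z ∈ W, ∀ j, ρ ≤ ‖z - p j‖) (h2 : ∀ z ∈ W, ∀ j, 0 < z.im ∨ z.re ≠ p j) :
    DifferentiableOn ℂ (Psi p) W := by
  refine differentiableOn_tsum_of_summable_norm (summable_cc.div_const √ρ) (fun j z hz => ?_) hW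
    fun j z hz => norm_term1 hρ (h z hz j)
  have hs : -I * (z - p j) ∈ slitPlane := by
    rcases h2 z hz j with h' | h'
    · left; simpa using h'
    · right; simpa [sub_eq_zero] using h'.symm
  have d1 : DifferentiableAt ℂ (fun w => rt p j w) z :=
    DifferentiableAt.cpow_const (f := fun w => -I * (w - p j)) (by fun_prop) hs
  refine ((differentiableAt_const _).fun_div d1 ?_).differentiableWithinAt
  rw [← norm_pos_iff]
  exact (norm_rt j z).symm ▸ Real.sqrt_pos.2 (hρ.trans_le (h z hz j))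

lemma diff_term2 {ρ : ℝ} (hρ : 0 < ρ) {W : Set ℂ} (h : ∀ z ∈ W, ∀ j, ρ ≤ ‖z - p j‖) (e : ℂ)
    (j : ℕ) : DifferentiableOn ℂ (fun z => e / (z - p j)) W := fun z hz =>
  ((differentiableAt_const _).fun_div (d := fun w : ℂ => w - p j) (by fun_prop)
    (norm_pos_iff.1 (hρ.trans_le (h z hz j)))).differentiableWithinAt

lemma diff_Pr {ρ : ℝ} (hρ : 0 < ρ) {W : Set ℂ} (hW : IsOpen W)
    (h : ∀ z ∈ W, ∀ j, ρ ≤ ‖z - p j‖) {e : ℕ → ℂ} (he : ∀ j, ‖e j‖ ≤ cc j) :
    DifferentiableOn ℂ (Pr p e) W :=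
  ((summable_cc.div_const ρ).hasProdLocallyUniformlyOn_nat_one_add hW
    (f := fun j z => e j / (z - p j))
    (Eventually.of_forall fun j z hz => norm_term2 hρ he (h z hz j))
    fun j => (diff_term2 hρ h _ j).continuousOn).differentiableOn
    (.of_forall fun _ => by
      simpa [Finset.prod_fn] using
        DifferentiableOn.finsetProd fun j _ => (diff_term2 hρ h (e j) j).const_add 1) hW

lemma diff_Lam {ρ : ℝ} (hρ : 0 < ρ) {W : Set ℂ} (hW : IsOpen W)
    (h : ∀ z ∈ W, ∀ j, ρ ≤ ‖z - p j‖) (h2 : ∀ z ∈ W, ∀ j, z.re ≠ p j) :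
    DifferentiableOn ℂ (Lam p) W := by
  have hs := summable_cc.div_const ρ
  refine (tendstoUniformlyOn_tsum_of_cofinite_eventually (hs.mul_left (3 / 2))
    (f := fun j z => log (1 + ee j / (z - p j))) ?_).tendstoLocallyUniformlyOn.differentiableOn
    (.of_forall fun t => DifferentiableOn.fun_sum fun j _ =>
      ((diff_term2 hρ h _ j).const_add 1).clog fun z hz => slit_term (h2 z hz j)) hW
  filter_upwards [hs.tendsto_cofinite_zero.eventually_le_const one_half_pos] with j hj z hz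
  have := norm_term2 hρ norm_ee_le (h z hz j)
  exact (norm_log_one_add_half_le_self (this.trans hj)).trans (by linarith)

lemma Pr_factor {ρ : ℝ} (hρ : 0 < ρ) {z : ℂ} (h : ∀ j, ρ ≤ ‖z - p j‖) (i : ℕ) :
    Pr p ee z = (1 + ee i / (z - p i)) * Pr p (Function.update ee i 0) z := by
  have he : ∀ j, ‖Function.update ee i 0 j‖ ≤ cc j := fun j => by
    by_cases hj : j = i
    · simp [hj, (cc_pos i).le]
    · simp [hj, norm_ee_le]
  have hm := multipliable_one_add_of_summable (summable_term2 hρ he h)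
  rw [Pr, Multipliable.tprod_eq_mul_tprod_ite' i (hm.congr fun j => by
    by_cases hj : j = i <;> simp [hj]), Pr]
  congr 2; funext j
  by_cases hj : j = i <;> simp [hj]

end Pool.Agent.Lib.MP_e2f52c_an
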