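import Pool.Agent.Lib.MP_e2f52c_an.Delta
import Pool.Agent.Lib.MP_e2f52c_an.Cantor

open Set Filter Topology Complex MeasureTheory

namespace Pool.Agent.Lib.MP_e2f52c_an

structure Cant (E : Set ℝ) (p : ℕ → ℝ) : Prop where
  cpt : IsCompact E
  mem : ∀ j, p j ∈ E
  app : ∀ x ∈ E, ∀ n : ℕ, ∃ j, 2 ^ n ≤ j ∧ j < 2 ^ (n + 1) ∧ |x - p j| ≤ (64 ^ n)⁻¹

noncomputable def dE (E : Set ℝ) (z : ℂ) : ℝ := Metric.infDist z ((fun x : ℝ => (x : ℂ)) '' E)

variable {E : Set ℝ} {p : ℕ → ℝ}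

lemma dE_le {x : ℝ} (hx : x ∈ E) (z : ℂ) : dE E z ≤ ‖z - x‖ := by
  rw [← dist_eq_norm]; exact Metric.infDist_le_dist_of_mem (mem_image_of_mem _ hx)

lemma dE_nonneg (z : ℂ) : 0 ≤ dE E z := Metric.infDist_nonneg

lemma dE_cont : Continuous (dE E) := Metric.continuous_infDist_pt _

lemma dE_lip (z w : ℂ) : dE E z ≤ dE E w + ‖z - w‖ := by
  rw [← dist_eq_norm]; exact Metric.infDist_le_infDist_add_dist

lemma Cant.near (H : Cant E p) (z : ℂ) : ∃ x ∈ E, dE E z = ‖z - x‖ := by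
  obtain ⟨_, ⟨x, hx, rfl⟩, h⟩ := (H.cpt.image continuous_ofReal).exists_infDist_eq_dist
    ⟨_, mem_image_of_mem _ (H.mem 0)⟩ z
  exact ⟨x, hx, by rw [← dist_eq_norm]; exact h⟩

lemma Cant.pos (H : Cant E p) {z : ℂ} (h : z.im ≠ 0 ∨ z.re ∉ E) : 0 < dE E z := by
  obtain ⟨x, hx, e⟩ := H.near z
  rw [e, norm_pos_iff, sub_ne_zero]
  rintro rfl
  simp [hx] at h

lemma Cant.le_one (H : Cant E p) {z : ℂ} (h0 : 0 < dE E z) (hV : ∀ j, -‖z - p j‖ / 2 ≤ z.im) :
    ‖F0 p z‖ ≤ 1 := by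
  refine (norm_F0_le h0 (fun j => dE_le (H.mem j) z) hV 0).trans (Real.exp_le_one_iff.2 ?_)
  have := cc_pos 0
  rw [neg_nonpos]; positivity

lemma Cant.flat (H : Cant E p) (N : ℕ) : ∃ C > 0, ∀ z, 0 < dE E z →
    (∀ j, -‖z - p j‖ / 2 ≤ z.im) → ‖F0 p z‖ ≤ C * dE E z ^ N := by
  have hC : (1 : ℝ) ≤ (6 * N).factorial * 16 ^ (6 * N) * 64 ^ N :=
    one_le_mul_of_one_le_of_one_le (one_le_mul_of_one_le_of_one_le
      (by exact_mod_cast Nat.factorial_pos _) (one_le_pow₀ (by norm_num))) (one_le_pow₀ (by norm_num))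
  refine ⟨_, one_pos.trans_le hC, fun z h0 hV => ?_⟩
  rcases le_total 1 (dE E z) with h1 | h1
  · exact (H.le_one h0 hV).trans (one_le_mul_of_one_le_of_one_le hC (one_le_pow₀ h1))
  obtain ⟨n, n1, n2⟩ := exists_nat_pow_near_of_lt_one h0 h1 (by norm_num : (0 : ℝ) < 64⁻¹)
    (by norm_num)
  obtain ⟨x, hx, e⟩ := H.near z
  obtain ⟨j, -, j1, j2⟩ := H.app x hx n
  refine (norm_F0_le h0 (fun j => dE_le (H.mem j) z) hV j).trans ?_
  obtain ⟨t, ht⟩ : ∃ t : ℝ, t = 2 ^ n := ⟨_, rfl⟩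
  have t0 : 0 < t := by rw [ht]; positivity
  have e64 : (64 : ℝ) ^ n = t ^ 6 := by rw [ht, ← pow_mul, mul_comm, pow_mul]; norm_num
  rw [inv_pow, pow_succ, e64] at n1
  rw [inv_pow, e64] at n2
  rw [e64] at j2
  have r0 : 0 < ‖z - p j‖ := h0.trans_le (dE_le (H.mem j) z)
  have r1 : ‖z - p j‖ ≤ 2 * (t ^ 6)⁻¹ := by
    have : z - p j = (z - x) + ((x - p j : ℝ) : ℂ) := by push_cast; ring
    rw [this]
    refine (norm_add_le _ _).trans ?_
    rw [norm_real, Real.norm_eq_abs]; linarith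
  have r2 : √‖z - p j‖ ≤ 2 / t ^ 3 := by
    rw [Real.sqrt_le_left (by positivity)]
    refine r1.trans ?_
    rw [div_pow, ← pow_mul, ← div_eq_mul_inv]
    gcongr; norm_num
  have c1 : 1 / (2 * t) ^ 2 ≤ cc j := by
    unfold cc
    have : (j : ℝ) + 1 ≤ 2 * t := by
      rw [ht, ← pow_succ']; exact_mod_cast j1
    gcongr
  have c2 : t / 16 ≤ cc j / (2 * √‖z - p j‖) := by
    have := cc_pos j
    have := Real.sqrt_pos.2 r0
    calc t / 16 = (1 / (2 * t) ^ 2) / (2 * (2 / t ^ 3)) := by field_simp; norm_num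
      _ ≤ _ := by gcongr
  have c3 := Real.pow_div_factorial_le_exp (t / 16) (by positivity) (6 * N)
  calc Real.exp (-(cc j / (2 * √‖z - p j‖))) ≤ Real.exp (-(t / 16)) := by gcongr
    _ ≤ ((t / 16) ^ (6 * N) / (6 * N).factorial)⁻¹ := by
        rw [Real.exp_neg]; gcongr
    _ = (6 * N).factorial * 16 ^ (6 * N) * 64 ^ N * ((t ^ 6 * 64)⁻¹) ^ N := by
        rw [inv_pow, mul_pow, ← pow_mul, div_pow]; field_simp
    _ ≤ _ := by gcongr

lemma Cant.disc (H : Cant E p) {z w : ℂ} (hz : 0 ≤ z.im) (h0 : 0 < dE E z)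
    (hw : w ∈ Metric.closedBall z (dE E z / 3)) :
    (0 < dE E w ∧ (0 < w.im ∨ w.re ∉ E)) ∧ dE E w ≤ 2 * dE E z ∧
      ∀ j, -‖w - p j‖ / 2 ≤ w.im := by
  rw [Metric.mem_closedBall, dist_eq_norm] at hw
  have a1 := dE_lip (E := E) w z
  have a2 := dE_lip (E := E) z w
  rw [norm_sub_rev] at a2
  have a3 := (abs_le.1 ((abs_im_le_norm (w - z)).trans hw)).1
  rw [sub_im] at a3
  refine ⟨⟨by linarith, ?_⟩, by linarith, fun j => by linarith [dE_le (H.mem j) w]⟩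
  by_contra h
  rw [not_or, not_lt, not_not] at h
  have a4 := dE_le h.2 w
  have : w - w.re = w.im * I := by apply Complex.ext <;> simp
  rw [this, norm_mul, norm_I, mul_one, norm_real, Real.norm_eq_abs, abs_of_nonpos h.1] at a4
  linarith

lemma Cant.open1 (H : Cant E p) : IsOpen {w : ℂ | w.re ∉ E} :=
  H.cpt.isClosed.isOpen_compl.preimage continuous_re

lemma Cant.ne (H : Cant E p) {w : ℂ} (h : w.re ∉ E) (j : ℕ) : w.re ≠ p j :=
  fun h' => h (h' ▸ H.mem j)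

lemma Cant.dPsi (H : Cant E p) {z : ℂ} (h : 0 < dE E z ∧ (0 < z.im ∨ z.re ∉ E)) :
    DifferentiableAt ℂ (Psi p) z := by
  have hW : IsOpen {w : ℂ | dE E z / 2 < dE E w ∧ (0 < w.im ∨ w.re ∉ E)} :=
    (isOpen_lt continuous_const dE_cont).inter ((isOpen_lt continuous_const continuous_im).union
      H.open1)
  exact (diff_Psi (half_pos h.1) hW (fun w hw j => hw.1.le.trans (dE_le (H.mem j) w))
    fun w hw j => hw.2.imp id fun h' => H.ne h' j).differentiableAt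
      (hW.mem_nhds ⟨half_lt_self h.1, h.2⟩)

lemma Cant.dPr (H : Cant E p) {z : ℂ} (h : 0 < dE E z) {e : ℕ → ℂ} (he : ∀ j, ‖e j‖ ≤ cc j) :
    DifferentiableAt ℂ (Pr p e) z := by
  have hW : IsOpen {w : ℂ | dE E z / 2 < dE E w} := isOpen_lt continuous_const dE_cont
  exact (diff_Pr (half_pos h) hW (fun w hw j => (le_of_lt hw).trans (dE_le (H.mem j) w))
    he).differentiableAt (hW.mem_nhds (half_lt_self h))

lemma Cant.dF0 (H : Cant E p) {z : ℂ} (h : 0 < dE E z ∧ (0 < z.im ∨ z.re ∉ E)) :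
    DifferentiableAt ℂ (F0 p) z :=
  ((H.dPsi h).const_mul _).cexp.mul (H.dPr h.1 norm_ee_le)

lemma Cant.ddel (H : Cant E p) {z : ℂ} (h : z.re ∉ E) : DifferentiableAt ℂ (del p) z := by
  have h0 := H.pos (Or.inr h)
  have hW : IsOpen {w : ℂ | dE E z / 2 < dE E w ∧ w.re ∉ E} :=
    (isOpen_lt continuous_const dE_cont).inter H.open1
  have := (diff_Lam (half_pos h0) hW (fun w hw j => hw.1.le.trans (dE_le (H.mem j) w))
    fun w hw j => H.ne hw.2 j).differentiableAt (hW.mem_nhds ⟨half_lt_self h0, h⟩)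
  exact ((H.dPsi ⟨h0, Or.inr h⟩).neg.add (this.div_const 2)).cexp

lemma Cant.del_sq (H : Cant E p) {z : ℂ} (h : z.re ∉ E) : del p z ^ 2 = F0 p z :=
  MP_e2f52c_an.del_sq (H.pos (Or.inr h)) (fun j => dE_le (H.mem j) z) (H.ne h)

lemma Cant.deriv_bound (H : Cant E p) : ∃ L, ∀ z : ℂ, 0 < z.im → ‖deriv (F0 p) z‖ ≤ L := by
  obtain ⟨C, C0, hC⟩ := H.flat 1
  refine ⟨6 * C, fun z hz => ?_⟩
  have h0 := H.pos (Or.inl hz.ne')
  have := norm_deriv_le_of_forall_mem_sphere_norm_le (c := z) (f := F0 p) (C := C * (2 * dE E z))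
    (show 0 < dE E z / 3 by positivity)
    (DifferentiableOn.diffContOnCl fun w hw =>
      (H.dF0 (H.disc hz.le h0 (Metric.closure_ball_subset_closedBall hw)).1).differentiableWithinAt)
    fun w hw => by
      obtain ⟨a, b, c⟩ := H.disc hz.le h0 (Metric.sphere_subset_closedBall hw)
      refine (hC w a.1 c).trans ?_
      rw [pow_one]; gcongr
  refine this.trans (le_of_eq ?_)
  field_simp; norm_num

lemma Cant.iter_bound (H : Cant E p) (k : ℕ) : ∃ C, ∀ x : ℝ, x ∉ E →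
    ‖iteratedDeriv k (fun z => del p z ^ 3) x‖ ≤ C * dE E x ^ 2 := by
  obtain ⟨C, C0, hC⟩ := H.flat (k + 2)
  refine ⟨k.factorial * C * 2 ^ (k + 2) * 3 ^ k, fun x hx => ?_⟩
  have h0 : 0 < dE E x := H.pos (Or.inr (by simpa))
  have hS : ∀ w ∈ Metric.closedBall (x : ℂ) (dE E x / 3), w.re ∉ E := fun w hw h => by
    rw [Metric.mem_closedBall, dist_eq_norm] at hw
    have a1 := dE_le h x
    have a2 := (abs_re_le_norm (w - x)).trans hw
    rw [← ofReal_sub, norm_real, Real.norm_eq_abs, abs_sub_comm] at a1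
    rw [sub_re, ofReal_re] at a2
    linarith
  have := norm_iteratedDeriv_le_of_forall_mem_sphere_norm_le (c := x) (f := fun z => del p z ^ 3)
    (C := C * (2 * dE E x) ^ (k + 2)) k (show 0 < dE E x / 3 by positivity)
    (DifferentiableOn.diffContOnCl fun w hw =>
      ((H.ddel (hS w (Metric.closure_ball_subset_closedBall hw))).pow 3).differentiableWithinAt)
    fun w hw => by
      have hw' := Metric.sphere_subset_closedBall hw
      obtain ⟨a, b, c⟩ := H.disc (by simp) h0 hw'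
      have b1 := H.le_one a.1 c
      have b2 := hC w a.1 c
      rw [← H.del_sq (hS w hw'), norm_pow] at b1 b2
      have b3 : ‖del p w‖ ≤ 1 := by nlinarith [norm_nonneg (del p w)]
      have := dE_nonneg (E := E) w
      calc ‖del p w ^ 3‖ = ‖del p w‖ * ‖del p w‖ ^ 2 := by rw [norm_pow]; ring
        _ ≤ 1 * (C * dE E w ^ (k + 2)) := by gcongr
        _ ≤ _ := by rw [one_mul]; gcongr
  refine this.trans (le_of_eq ?_)
  rw [mul_pow, div_pow]; field_simp; ring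

end Pool.Agent.Lib.MP_e2f52c_an
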