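import Pool.Agent.Lib.MP_e2f52c_an.Flat

open Set Filter Topology Complex MeasureTheory

namespace Pool.Agent.Lib.MP_e2f52c_an

variable {E : Set ℝ} {p : ℕ → ℝ}

open Classical in
noncomputable def Dk (E : Set ℝ) (p : ℕ → ℝ) (k : ℕ) (x : ℝ) : ℂ :=
  if x ∈ E then 0 else iteratedDeriv k (fun z => del p z ^ 3) x

lemma Cant.hasDerivAt_Dk (H : Cant E p) (k : ℕ) (x : ℝ) :
    HasDerivAt (Dk E p k) (Dk E p (k + 1) x) x := by
  by_cases hx : x ∈ E
  · obtain ⟨C, hC⟩ := H.iter_bound k
    have e0 : ∀ k, Dk E p k x = 0 := fun k => if_pos hx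
    rw [e0, hasDerivAt_iff_isLittleO, e0]
    simp only [sub_zero, smul_zero]
    have h1 : (fun y => Dk E p k y) =O[𝓝 x] fun y => (y - x) ^ 2 := by
      refine Asymptotics.IsBigO.of_bound |C| (Eventually.of_forall fun y => ?_)
      by_cases hy : y ∈ E
      · rw [Dk, if_pos hy, norm_zero]; positivity
      · rw [Dk, if_neg hy]
        refine (hC y hy).trans ?_
        have a := dE_le hx y
        have b := dE_nonneg (E := E) y
        rw [← ofReal_sub, norm_real] at a
        rw [norm_pow]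
        gcongr
        exact le_abs_self C
    exact h1.trans_isLittleO (Asymptotics.isLittleO_pow_sub_sub x (by norm_num : 1 < 2) |>.congr_left
      (fun y => rfl) |> fun h => by simpa using h)
  · have an : AnalyticOnNhd ℂ (fun z => del p z ^ 3) {w : ℂ | w.re ∉ E} :=
      DifferentiableOn.analyticOnNhd (fun w hw => ((H.ddel hw).pow 3).differentiableWithinAt) H.open1
    have h1 := ((an.iterated_deriv k) x (by simpa)).differentiableAt.hasDerivAt.comp_ofReal
    rw [← iteratedDeriv_eq_iterate] at h1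
    rw [Dk, if_neg hx, iteratedDeriv_succ]
    refine h1.congr_of_eventuallyEq ?_
    filter_upwards [H.cpt.isClosed.isOpen_compl.mem_nhds hx] with y hy
    rw [Dk, if_neg hy]

lemma Cant.contDiff_D (H : Cant E p) : ContDiff ℝ (⊤ : ℕ∞) (Dk E p 0) := by
  have : ∀ m, iteratedDeriv m (Dk E p 0) = Dk E p m := fun m => by
    induction m with
    | zero => simp
    | succ m ih => rw [iteratedDeriv_succ, ih]; funext x; exact (H.hasDerivAt_Dk m x).deriv
  exact contDiff_of_differentiable_iteratedDeriv fun m _ x =>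
    this m ▸ (H.hasDerivAt_Dk m x).differentiableAt

noncomputable def FF (E : Set ℝ) (p : ℕ → ℝ) (z : ℂ) : ℂ := if 0 < dE E z then F0 p z else 0

lemma FF_ev {z : ℂ} (h : 0 < dE E z) : FF E p =ᶠ[𝓝 z] F0 p := by
  filter_upwards [(isOpen_lt continuous_const dE_cont).mem_nhds h] with w hw using if_pos hw

lemma up_V {z : ℂ} (hz : 0 ≤ z.im) (j : ℕ) : -‖z - p j‖ / 2 ≤ z.im := by
  linarith [norm_nonneg (z - p j)]

lemma Cant.FF_lip (H : Cant E p) : ∃ L : ℝ, ∀ z w : ℂ, 0 ≤ z.im → 0 ≤ w.im →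
    ‖FF E p z - FF E p w‖ ≤ L * ‖z - w‖ := by
  obtain ⟨L, hL⟩ := H.deriv_bound
  obtain ⟨C, C0, hC⟩ := H.flat 1
  have h1 : LipschitzOnWith L.toNNReal (FF E p) {z | 0 < z.im} :=
    (convex_halfSpace_im_gt 0).lipschitzOnWith_of_nnnorm_deriv_le (𝕜 := ℂ)
      (fun z hz => (H.dF0 ⟨H.pos (Or.inl (ne_of_gt hz)), Or.inl hz⟩).congr_of_eventuallyEq
        (FF_ev (H.pos (Or.inl (ne_of_gt hz)))))
      fun z hz => by
        rw [(FF_ev (H.pos (Or.inl (ne_of_gt hz)))).deriv_eq, ← NNReal.coe_le_coe]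
        exact (hL z hz).trans (Real.le_coe_toNNReal L)
  have h2 : ContinuousOn (FF E p) (closure {z | 0 < z.im}) := by
    rw [closure_setOfPred_lt_im]
    intro z hz
    by_cases h0 : 0 < dE E z
    · have := (H.disc hz h0 (Metric.mem_closedBall_self (by positivity))).1
      exact ((H.dF0 this).congr_of_eventuallyEq (FF_ev h0)).continuousAt.continuousWithinAt
    · have e0 : dE E z = 0 := le_antisymm (not_lt.1 h0) (dE_nonneg z)
      rw [ContinuousWithinAt, FF, if_neg h0]
      refine squeeze_zero_norm' (a := fun w => C * dE E w) ?_ ?_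
      · filter_upwards [self_mem_nhdsWithin] with w hw
        by_cases h : 0 < dE E w
        · rw [FF, if_pos h]; simpa using hC w h (up_V hw)
        · rw [FF, if_neg h, norm_zero]; exact mul_nonneg C0.le (dE_nonneg w)
      · have := ((dE_cont (E := E)).const_mul C).tendsto z
        rw [e0, mul_zero] at this
        exact this.mono_left nhdsWithin_le_nhds
  have h3 := h1.closure h2
  rw [closure_setOfPred_lt_im] at h3
  exact ⟨L.toNNReal, fun z w hz hw => h3.norm_sub_le hz hw⟩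

theorem exists_FD : ∃ (E : Set ℝ) (F : ℂ → ℂ) (D : ℝ → ℂ) (L : ℝ),
    (∀ x ∈ E, |x| < 1) ∧ 0 < dimH ((fun x : ℝ => (x : ℂ)) '' E) ∧
    (∀ z w : ℂ, 0 ≤ z.im → 0 ≤ w.im → ‖F z - F w‖ ≤ L * ‖z - w‖) ∧
    (∀ z : ℂ, 0 ≤ z.im → ‖F z‖ ≤ 1) ∧ (∀ z : ℂ, 0 < z.im → DifferentiableAt ℂ F z) ∧
    (∀ᵐ z : ℂ, 0 < z.im → F z ≠ 0) ∧ ContDiff ℝ (⊤ : ℕ∞) D ∧ (∀ x : ℝ, D x ^ 2 = F x ^ 3) ∧
    ∀ x ∈ E, ∀ r > 0, ∃ z : ℂ, ‖z - x‖ < r ∧ 0 < z.im ∧ F z = 0 ∧ deriv F z ≠ 0 := by
  obtain ⟨E, p, h1, h2, h3, h4, h5⟩ := exists_cantor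
  have H : Cant E p := ⟨h1, h3, h4⟩
  obtain ⟨L, hL⟩ := H.FF_lip
  have nz : ∀ {z : ℂ} (e : ℂ) (j : ℕ), 0 < dE E z → z ≠ p j - e → 1 + e / (z - p j) ≠ 0 := by
    intro z e j h0 hz h
    have := norm_pos_iff.1 (h0.trans_le (dE_le (h3 j) z))
    field_simp at h
    exact hz (by linear_combination h)
  refine ⟨E, FF E p, Dk E p 0, L, h2, h5, hL, fun z hz => ?_, fun z hz => ?_, ?_, H.contDiff_D,
    fun x => ?_, fun x hx r hr => ?_⟩
  · by_cases h : 0 < dE E z
    · rw [FF, if_pos h]; exact H.le_one h (up_V hz)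
    · rw [FF, if_neg h]; simp
  · exact (H.dF0 ⟨H.pos (Or.inl hz.ne'), Or.inl hz⟩).congr_of_eventuallyEq
      (FF_ev (H.pos (Or.inl hz.ne')))
  · filter_upwards [(countable_range fun j => (p j : ℂ) - ee j).ae_notMem volume] with z hz h
    have h0 := H.pos (Or.inl h.ne')
    rw [FF, if_pos h0]
    exact mul_ne_zero (exp_ne_zero _) (tprod_one_add_ne_zero_of_summable
      (fun j => nz _ j h0 fun h' => hz ⟨j, h'.symm⟩)
      (summable_term2 h0 norm_ee_le fun j => dE_le (h3 j) z))
  · by_cases hx : x ∈ E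
    · have : ¬ 0 < dE E x := not_lt.2 (by simpa using dE_le hx x)
      simp [Dk, FF, hx, this]
    · have hx' : (x : ℂ).re ∉ E := by simpa
      rw [Dk, FF, if_neg hx, if_pos (H.pos (Or.inr hx')), ← H.del_sq hx', iteratedDeriv_zero]; ring
  · have t1 : Tendsto (fun n : ℕ => ((64 : ℝ) ^ n)⁻¹) atTop (𝓝 0) :=
      tendsto_inv_atTop_zero.comp (tendsto_pow_atTop_atTop_of_one_lt (by norm_num))
    obtain ⟨J, hJ⟩ := eventually_atTop.1
      (summable_cc.tendsto_atTop_zero.eventually_lt_const (half_pos hr))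
    obtain ⟨n, n1, n2⟩ := ((t1.eventually_lt_const (half_pos hr)).and (eventually_ge_atTop J)).exists
    obtain ⟨i, i1, -, i2⟩ := h4 x hx n
    have i3 := hJ i (n2.trans (Nat.lt_two_pow_self.le.trans i1))
    have imz : ∀ j, ((p j : ℂ) - ee j).im = cc j ^ 2 / 8 := fun j => by
      simp only [ee, sub_im, ofReal_im, neg_im, mul_im, I_re, I_im, ofReal_re]; ring
    have hz : 0 < ((p i : ℂ) - ee i).im := by rw [imz]; have := cc_pos i; positivity
    have h0 := H.pos (Or.inl hz.ne')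
    have he : ∀ j, ‖Function.update ee i 0 j‖ ≤ cc j := fun j => by
      by_cases hj : j = i
      · simp [hj, (cc_pos i).le]
      · simp [hj, norm_ee_le]
    have e0 : ee i ≠ 0 := by
      rw [← norm_pos_iff, norm_ee]; have := cc_pos i; positivity
    have d1 : DifferentiableAt ℂ (fun z => exp (-2 * Psi p z) * Pr p (Function.update ee i 0) z /
        (z - p i)) (p i - ee i) :=
      (((H.dPsi ⟨h0, Or.inl hz⟩).const_mul _).cexp.mul (H.dPr h0 he)).fun_div (by fun_prop)
        (by simpa using e0)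
    have d2 := ((hasDerivAt_id' ((p i : ℂ) - ee i)).sub_const (p i - ee i)).fun_mul d1.hasDerivAt
    have ev : FF E p =ᶠ[𝓝 ((p i : ℂ) - ee i)] fun z => (z - (p i - ee i)) *
        (exp (-2 * Psi p z) * Pr p (Function.update ee i 0) z / (z - p i)) := by
      filter_upwards [(isOpen_lt continuous_const dE_cont).mem_nhds h0] with w hw
      have := norm_pos_iff.1 ((show 0 < dE E w from hw).trans_le (dE_le (h3 i) w))
      rw [FF, if_pos hw, F0, Pr_factor hw (fun j => dE_le (h3 j) w) i]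
      field_simp; ring
    refine ⟨p i - ee i, ?_, hz, by rw [ev.eq_of_nhds]; simp, ?_⟩
    · have : (p i : ℂ) - ee i - x = -(((x - p i : ℝ) : ℂ) + ee i) := by push_cast; ring
      rw [this, norm_neg]
      refine (norm_add_le _ _).trans_lt ?_
      rw [norm_real, Real.norm_eq_abs]
      linarith [norm_ee_le i]
    · rw [ev.deriv_eq, d2.deriv]
      simp only [sub_self, zero_mul, add_zero, one_mul]
      refine div_ne_zero (mul_ne_zero (exp_ne_zero _) (tprod_one_add_ne_zero_of_summable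
        (fun j => nz _ j h0 fun h' => ?_) (summable_term2 h0 he fun j => dE_le (h3 j) _)))
        (by simpa using e0)
      have h'' := congrArg im h'
      by_cases hj : j = i
      · rw [hj, Function.update_self] at h''
        rw [h''] at hz; simp at hz
      · rw [Function.update_of_ne hj, imz, imz] at h''
        have a := cc_pos i
        have b := cc_pos j
        have c : cc i = cc j := by nlinarith
        unfold cc at c
        field_simp at c
        have : (j : ℝ) = i := by nlinarith [Nat.cast_nonneg (α := ℝ) i, Nat.cast_nonneg (α := ℝ) j]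
        exact hj (by exact_mod_cast this)

end Pool.Agent.Lib.MP_e2f52c_an
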