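import Mathlib

open MeasureTheory Set Filter Topology FourierTransform
open scoped Real

namespace Pool.Agent.Lib.MP_e2f52c_an

lemma norm_exp_sub_le {a b : ℂ} (ha : a.re ≤ 0) (hb : b.re ≤ 0) :
    ‖Complex.exp a - Complex.exp b‖ ≤ ‖a - b‖ := by
  have := (convex_halfSpace_re_le 0).norm_image_sub_le_of_norm_deriv_le (𝕜 := ℂ) (C := 1)
    (f := Complex.exp) (fun x _ => Complex.differentiableAt_exp) (fun x hx => by
      rw [Complex.deriv_exp, Complex.norm_exp]; exact Real.exp_le_one_iff.2 hx) hb ha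
  simpa using this

noncomputable def halfT (k : ℝ → ℂ) (z : ℂ) : ℂ := ∫ v : ℝ, Complex.exp (-2 * π * v * z * Complex.I) * k v

lemma halfT_real (k : ℝ → ℂ) (x : ℝ) : halfT k x = 𝓕 k x := by
  rw [Real.fourier_real_eq_integral_exp_smul, halfT]
  congr 1; funext v; simp

theorem half_transform {σ : ℝ} {k : ℝ → ℂ} (hk : ∀ v, k v ≠ 0 → ∀ y, 0 ≤ σ * y → v * y ≤ 0)
    (h0 : Integrable k) (hn : ∀ n : ℕ, Integrable fun v => ‖v‖ ^ n * ‖k v‖) :
    (∃ L, ∀ z w : ℂ, 0 ≤ σ * z.im → 0 ≤ σ * w.im → ‖halfT k z - halfT k w‖ ≤ L * ‖z - w‖) ∧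
    (∀ z : ℂ, 0 < σ * z.im → DifferentiableAt ℂ (halfT k) z) ∧
    ContDiff ℝ (⊤ : ℕ∞) (fun x : ℝ => halfT k x) := by
  have re : ∀ (v : ℝ) (z : ℂ), k v ≠ 0 → 0 ≤ σ * z.im →
      (-2 * π * v * z * Complex.I).re ≤ 0 := fun v z hv hz => by
    have := hk v hv _ hz
    simp
    nlinarith [Real.pi_pos]
  have nb : ∀ (v : ℝ) (z : ℂ), 0 ≤ σ * z.im →
      ‖Complex.exp (-2 * π * v * z * Complex.I) * k v‖ ≤ ‖k v‖ := fun v z hz => by
    by_cases hv : k v = 0
    · simp [hv]
    · rw [norm_mul, Complex.norm_exp]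
      exact mul_le_of_le_one_left (norm_nonneg _) (Real.exp_le_one_iff.2 (re v z hv hz))
  have ms : ∀ z : ℂ, AEStronglyMeasurable
      (fun v : ℝ => Complex.exp (-2 * π * v * z * Complex.I) * k v) volume := fun z =>
    (by fun_prop : Continuous fun v : ℝ =>
      Complex.exp (-2 * π * v * z * Complex.I)).aestronglyMeasurable.mul h0.1
  have it : ∀ z : ℂ, 0 ≤ σ * z.im →
      Integrable (fun v : ℝ => Complex.exp (-2 * π * v * z * Complex.I) * k v) := fun z hz =>
    h0.norm.mono' (ms z) (Eventually.of_forall fun v => nb v z hz)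
  have i1 : Integrable fun v : ℝ => 2 * π * (‖v‖ ^ 1 * ‖k v‖) := (hn 1).const_mul _
  refine ⟨⟨∫ v : ℝ, 2 * π * (‖v‖ ^ 1 * ‖k v‖), fun z w hz hw => ?_⟩, fun z hz => ?_, ?_⟩
  · rw [halfT, halfT, ← integral_sub (it z hz) (it w hw), ← integral_mul_const]
    refine norm_integral_le_of_norm_le (i1.mul_const _) (Eventually.of_forall fun v => ?_)
    by_cases hv : k v = 0
    · simp [hv]
    · rw [← sub_mul, norm_mul]
      refine (mul_le_mul_of_nonneg_right (norm_exp_sub_le (re v z hv hz) (re v w hv hw))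
        (norm_nonneg _)).trans (le_of_eq ?_)
      have : -2 * π * v * z * Complex.I - -2 * π * v * w * Complex.I =
        -(2 * π * v * (z - w) * Complex.I) := by ring
      rw [this]
      simp [abs_of_pos Real.pi_pos]; ring
  · have hs : {w : ℂ | 0 < σ * w.im} ∈ 𝓝 z :=
      (isOpen_lt continuous_const (by fun_prop)).mem_nhds hz
    refine (hasDerivAt_integral_of_dominated_loc_of_deriv_le (𝕜 := ℂ) hs
      (F := fun (w : ℂ) (v : ℝ) => Complex.exp (-2 * π * v * w * Complex.I) * k v)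
      (F' := fun (w : ℂ) (v : ℝ) => (-2 * π * v * Complex.I) *
        (Complex.exp (-2 * π * v * w * Complex.I) * k v))
      (Eventually.of_forall ms) (it z hz.le)
      ((by fun_prop : Continuous fun v : ℝ =>
        (-2 * π * v * Complex.I : ℂ)).aestronglyMeasurable.mul (ms z))
      (Eventually.of_forall fun v w hw => ?_) i1
      (Eventually.of_forall fun v w _ => ?_)).2.differentiableAt
    · rw [norm_mul]
      refine (mul_le_mul_of_nonneg_left (nb v w (le_of_lt hw)) (norm_nonneg _)).trans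
        (le_of_eq ?_)
      simp [abs_of_pos Real.pi_pos]; ring
    · have := ((((hasDerivAt_id w).const_mul (-2 * π * v : ℂ)).mul_const Complex.I).cexp).mul_const
        (k v)
      simp only [id] at this
      exact this.congr_deriv (by ring)
  · simp only [halfT_real]
    exact Real.contDiff_fourier fun n _ => hn n

theorem exists_split {s : ℝ → ℂ} (h1 : HasCompactSupport s) (h2 : ContDiff ℝ (⊤ : ℕ∞) s) :
    ∃ η g : ℂ → ℂ, ∃ L : ℝ,
      (∀ z w : ℂ, 0 ≤ z.im → 0 ≤ w.im → ‖η z - η w‖ ≤ L * ‖z - w‖) ∧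
      (∀ z w : ℂ, z.im ≤ 0 → w.im ≤ 0 → ‖g z - g w‖ ≤ L * ‖z - w‖) ∧
      (∀ z : ℂ, 0 < z.im → DifferentiableAt ℂ η z) ∧
      (∀ z : ℂ, z.im < 0 → DifferentiableAt ℂ g z) ∧
      ContDiff ℝ (⊤ : ℕ∞) (fun x : ℝ => g x) ∧ ∀ x : ℝ, g x = η x + s x := by
  let S : SchwartzMap ℝ ℂ := h1.toSchwartzMap h2
  let k : SchwartzMap ℝ ℂ := 𝓕⁻ S
  have hS : 𝓕 k = S := fourier_fourierInv_eq S
  have ii : ∀ A : Set ℝ, MeasurableSet A → ∀ n : ℕ,
      Integrable fun v => ‖v‖ ^ n * ‖A.indicator k v‖ := fun A hA n => by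
    refine ((k.integrable_pow_mul volume n).indicator hA).congr (Eventually.of_forall fun v => ?_)
    by_cases hv : v ∈ A <;> simp [hv]
  obtain ⟨⟨L1, a1⟩, a2, -⟩ := half_transform (σ := 1) (k := (Iic 0).indicator k)
    (fun v hv y hy => by
      have : v ≤ 0 := by by_contra h; exact hv (indicator_of_notMem (show v ∉ Iic 0 from h) _)
      nlinarith) (k.integrable.indicator measurableSet_Iic) (ii _ measurableSet_Iic)
  obtain ⟨⟨L2, b1⟩, b2, b3⟩ := half_transform (σ := -1) (k := (Ioi 0).indicator k)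
    (fun v hv y hy => by
      have : 0 < v := by by_contra h; exact hv (indicator_of_notMem h _)
      nlinarith) (k.integrable.indicator measurableSet_Ioi) (ii _ measurableSet_Ioi)
  refine ⟨fun z => -halfT ((Iic 0).indicator k) z, halfT ((Ioi 0).indicator k), max L1 L2,
    fun z w hz hw => ?_, fun z w hz hw => ?_, fun z hz => (a2 z (by simpa)).neg,
    fun z hz => b2 z (by simpa), b3, fun x => ?_⟩
  · rw [neg_sub_neg, norm_sub_rev]
    exact (a1 z w (by simpa) (by simpa)).trans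
      (mul_le_mul_of_nonneg_right (le_max_left _ _) (norm_nonneg _))
  · exact (b1 z w (by simpa) (by simpa)).trans
      (mul_le_mul_of_nonneg_right (le_max_right _ _) (norm_nonneg _))
  · have e : s x = 𝓕 (k : ℝ → ℂ) x := by
      rw [← SchwartzMap.fourier_coe, hS]; rfl
    have e2 : (k : ℝ → ℂ) = (Iic 0).indicator k + (Ioi 0).indicator k := by
      funext v
      by_cases hv : v ≤ 0
      · simp [hv]
      · simp [hv, not_le.1 hv]
    simp only [halfT_real]
    rw [e]
    have e3 : 𝓕 ((Iic (0 : ℝ)).indicator k + (Ioi 0).indicator k) =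
        𝓕 ((Iic (0 : ℝ)).indicator (k : ℝ → ℂ)) + 𝓕 ((Ioi (0 : ℝ)).indicator (k : ℝ → ℂ)) :=
      VectorFourier.fourierIntegral_add Real.continuous_fourierChar (by fun_prop)
        (k.integrable.indicator measurableSet_Iic) (k.integrable.indicator measurableSet_Ioi)
    rw [← e2] at e3
    rw [e3]; simp

end Pool.Agent.Lib.MP_e2f52c_an
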