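import Pool.Agent.Lib.MP_e2f52c_an.NoSplit
import Pool.Agent.Lib.MP_e2f52c_an.Smooth
import Pool.Agent.Lib.MP_e2f52c_an.Split

open MeasureTheory Set Filter Topology
open scoped ENNReal NNReal

namespace Pool.Agent.Lib.MP_e2f52c_an

/-- folding the plane onto a closed half plane -/
def fold (σ : ℝ) (z : ℂ) : ℂ := ⟨z.re, σ * |z.im|⟩

lemma fold_real (σ x : ℝ) : fold σ x = x := by apply Complex.ext <;> simp [fold]

lemma fold_ev {σ : ℝ} (hσ : σ = 1 ∨ σ = -1) (f : ℂ → ℂ) {z : ℂ} (hz : 0 < σ * z.im) :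
    (fun w => f (fold σ w)) =ᶠ[𝓝 z] f := by
  filter_upwards [(isOpen_lt continuous_const (by fun_prop : Continuous fun w : ℂ =>
    σ * w.im)).mem_nhds hz] with w (hw : 0 < σ * w.im)
  congr 1
  apply Complex.ext
  · rfl
  · rcases hσ with rfl | rfl
    · simp only [fold, one_mul] at hw ⊢; exact abs_of_pos hw
    · simp only [fold, neg_mul, one_mul] at hw ⊢; rw [abs_of_neg (by linarith), neg_neg]

lemma fold_lip {σ : ℝ} (hσ : σ = 1 ∨ σ = -1) {f : ℂ → ℂ} {L : ℝ} {K : ℝ≥0} (hK : L ≤ K)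
    (h : ∀ z w : ℂ, 0 ≤ σ * z.im → 0 ≤ σ * w.im → ‖f z - f w‖ ≤ L * ‖z - w‖) :
    LipschitzWith K fun w => f (fold σ w) := by
  refine LipschitzWith.of_dist_le_mul fun z w => ?_
  have p : ∀ z : ℂ, 0 ≤ σ * (fold σ z).im := fun z => by
    rcases hσ with rfl | rfl <;> simp [fold]
  have q : ‖fold σ z - fold σ w‖ ≤ ‖z - w‖ := by
    apply le_of_sq_le_sq _ (norm_nonneg _)
    have := sq_le_sq' (abs_le.1 (abs_abs_sub_abs_le_abs_sub z.im w.im)).1
      (abs_le.1 (abs_abs_sub_abs_le_abs_sub z.im w.im)).2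
    rw [sq_abs] at this
    rcases hσ with rfl | rfl <;> simp only [nsq, fold, Complex.sub_re, Complex.sub_im] <;>
      nlinarith
  rw [dist_eq_norm, dist_eq_norm]
  exact (h _ _ (p z) (p w)).trans ((mul_le_mul_of_nonneg_right hK (norm_nonneg _)).trans
    (mul_le_mul_of_nonneg_left q K.coe_nonneg))

theorem main : ∃ φ : ℝ → ℂ, ContDiff ℝ (⊤ : ℕ∞) φ ∧ ∃ gp gm : ℂ → Multiset ℂ,
    DirMin 1 (Metric.ball 0 1) φ gp gm ∧ 0 < dimH (genuine 1 (Metric.ball 0 1) gp gm) := by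
  obtain ⟨E, F, D, L1, e1, e2, f1, f2, f3, f4, d1, d2, f5⟩ := exists_FD
  let κ : ContDiffBump (0 : ℝ) := ⟨1, 2, one_pos, by norm_num⟩
  have sD : ContDiff ℝ (⊤ : ℕ∞) fun x => κ x • D x := κ.contDiff.smul d1
  obtain ⟨η, g, L2, a1, a2, a3, a4, a5, a6⟩ :=
    exists_split (s := fun x => κ x • D x) κ.hasCompactSupport.smul_right sD
  have hφ : ContDiff ℝ (⊤ : ℕ∞) fun x : ℝ => g x - 2 * D x := a5.sub (contDiff_const.mul d1)
  obtain ⟨L', hL'⟩ := (hφ.of_le (by simp)).contDiffOn.exists_lipschitzOnWith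
    (s := Icc (-1 : ℝ) 1) one_ne_zero (convex_Icc _ _) isCompact_Icc
  have k1 : L1 ≤ (max L1 L2).toNNReal := (le_max_left _ _).trans (Real.le_coe_toNNReal _)
  have k2 : L2 ≤ (max L1 L2).toNNReal := (le_max_right _ _).trans (Real.le_coe_toNNReal _)
  have lη := fold_lip (Or.inl rfl) k2 fun z w hz hw => a1 z w (by simpa using hz) (by simpa using hw)
  have lF := fold_lip (Or.inl rfl) k1 fun z w hz hw => f1 z w (by simpa using hz) (by simpa using hw)
  have lg := fold_lip (Or.inr rfl) k2 fun z w hz hw => a2 z w (by simpa using hz) (by simpa using hw)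
  have up : ∀ (f : ℂ → ℂ) {z : ℂ}, 0 < z.im → (fun w => f (fold 1 w)) =ᶠ[𝓝 z] f :=
    fun f z hz => fold_ev (Or.inl rfl) f (by simpa)
  refine ⟨_, hφ, _, _, assemble lη lF lg (fun z => f2 _ (by simp [fold]))
    (fun z hz => (a3 z hz).congr_of_eventuallyEq (up η hz))
    (fun z hz => (f3 z hz).congr_of_eventuallyEq (up F hz))
    (fun z hz => (a4 z hz).congr_of_eventuallyEq (fold_ev (Or.inr rfl) g (by simpa)))
    (f4.mono fun z hz h => by rw [(up F h).eq_of_nhds]; exact hz h) hφ.continuous (L' := L')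
    (fun x hx y hy => hL'.norm_sub_le hx hy) fun x hx => ?_,
    e2.trans_le (dimH_mono ?_)⟩
  · have : κ x = 1 := κ.one_of_mem_closedBall (by simp [seg] at hx; simpa [κ] using hx.le)
    rw [gP_eq (s := -D x) (by rw [fold_real, neg_sq, d2])]
    simp only [fold_real, a6, this, one_smul, Multiset.insert_eq_cons]
    congr 2 <;> ring
  · rintro _ ⟨x, hx, rfl⟩
    refine mem_genuine lη.continuous lF.continuous (e1 x hx) fun r hr => ?_
    obtain ⟨z, b1, b2, b3, b4⟩ := f5 x hx r hr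
    exact ⟨z, b1, b2, by rw [(up F b2).eq_of_nhds, b3], by rw [(up F b2).deriv_eq]; exact b4⟩

end Pool.Agent.Lib.MP_e2f52c_an
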