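import Pool.Agent.Lib.MP_e2f52c_an.Defs

open MeasureTheory Set
open scoped ENNReal ContDiff

namespace Pool.Agent.Lib.MP_e2f52c_an

lemma G_single (a c : ℂ) : G {a} {c} = ‖a - c‖ := by
  have : {d | ∃ (k : ℕ) (P R : Fin k → ℂ), ({a} : Multiset ℂ) = Finset.univ.val.map P ∧
      ({c} : Multiset ℂ) = Finset.univ.val.map R ∧ d = √(∑ i, ‖P i - R i‖ ^ 2)} = {‖a - c‖} := by
    ext d
    simp only [mem_ofPred_eq, mem_singleton_iff]
    constructor
    · rintro ⟨k, P, R, h1, h2, rfl⟩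
      have hk : k = 1 := by simpa using (congrArg Multiset.card h1).symm
      subst hk
      simp at h1 h2
      simp [← h1, ← h2]
    · rintro rfl
      exact ⟨1, fun _ => a, fun _ => c, by simp, by simp, by simp⟩
  rw [G, this, csInf_singleton]

noncomputable def D2 (a b c d : ℂ) : ℝ := √(‖a - c‖ ^ 2 + ‖b - d‖ ^ 2)

lemma pair_eq {a b c d : ℂ} (h : ({a, b} : Multiset ℂ) = {c, d}) :
    (a = c ∧ b = d) ∨ (a = d ∧ b = c) := by
  simp only [Multiset.insert_eq_cons] at h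
  rcases Multiset.cons_eq_cons.1 h with ⟨h1, h2⟩ | ⟨_, cs, h2, h3⟩
  · left; exact ⟨h1, Multiset.singleton_inj.1 h2⟩
  · right
    have : cs = 0 := by
      have := congrArg Multiset.card h2
      simpa using this
    subst this
    simp at h2 h3
    exact ⟨h3.symm, h2⟩

lemma map_fin_two (P : Fin 2 → ℂ) : Finset.univ.val.map P = {P 0, P 1} := by
  have : (Finset.univ : Finset (Fin 2)).val = {0, 1} := by decide
  rw [this]; simp

lemma G_pair (a b c d : ℂ) : G {a, b} {c, d} = min (D2 a b c d) (D2 a b d c) := by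
  have : {x | ∃ (k : ℕ) (P R : Fin k → ℂ), ({a, b} : Multiset ℂ) = Finset.univ.val.map P ∧
      ({c, d} : Multiset ℂ) = Finset.univ.val.map R ∧ x = √(∑ i, ‖P i - R i‖ ^ 2)} =
      {D2 a b c d, D2 a b d c} := by
    ext x
    simp only [mem_ofPred_eq, mem_insert_iff, mem_singleton_iff]
    constructor
    · rintro ⟨k, P, R, h1, h2, rfl⟩
      have hk : k = 2 := by simpa using (congrArg Multiset.card h1).symm
      subst hk
      rw [map_fin_two] at h1 h2
      rw [Fin.sum_univ_two]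
      rcases pair_eq h1 with ⟨rfl, rfl⟩ | ⟨rfl, rfl⟩ <;>
        rcases pair_eq h2 with ⟨rfl, rfl⟩ | ⟨rfl, rfl⟩
      · left; rfl
      · right; rfl
      · right; rw [D2, add_comm]
      · left; rw [D2, add_comm]
    · rintro (rfl | rfl)
      · exact ⟨2, ![a, b], ![c, d], by rw [map_fin_two]; rfl, by rw [map_fin_two]; rfl,
          by rw [Fin.sum_univ_two]; rfl⟩
      · exact ⟨2, ![a, b], ![d, c], by rw [map_fin_two]; rfl,
          by rw [map_fin_two, Multiset.pair_comm]; rfl, by rw [Fin.sum_univ_two]; rfl⟩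
  rw [G, this, csInf_pair]

lemma D2_nonneg (a b c d : ℂ) : 0 ≤ D2 a b c d := Real.sqrt_nonneg _

lemma D2_eq_norm (a b c d : ℂ) : D2 a b c d = ‖(⟨‖a - c‖, ‖b - d‖⟩ : ℂ)‖ := by
  rw [D2, Complex.norm_eq_sqrt_sq_add_sq (⟨‖a - c‖, ‖b - d‖⟩ : ℂ)]

lemma D2_triangle (a b c d e f : ℂ) : D2 a b e f ≤ D2 a b c d + D2 c d e f := by
  have h := norm_add_le (⟨‖a - c‖, ‖b - d‖⟩ : ℂ) (⟨‖c - e‖, ‖d - f‖⟩ : ℂ)
  rw [← D2_eq_norm, ← D2_eq_norm] at h
  refine le_trans ?_ h
  rw [Complex.norm_eq_sqrt_sq_add_sq, D2]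
  apply Real.sqrt_le_sqrt
  simp only [Complex.add_re, Complex.add_im]
  have h1 := norm_sub_le_norm_sub_add_norm_sub a c e
  have h2 := norm_sub_le_norm_sub_add_norm_sub b d f
  gcongr

lemma D2_swap (a b c d : ℂ) : D2 a b c d = D2 b a d c := by rw [D2, D2, add_comm]

lemma D2_comm (a b c d : ℂ) : D2 a b c d = D2 c d a b := by
  rw [D2, D2, norm_sub_rev a, norm_sub_rev b]

/-- The metric facts about `𝒜_k` that are used. -/
structure Good (k : ℕ) : Prop where
  nonneg : ∀ S T : Multiset ℂ, S.card = k → T.card = k → 0 ≤ G S T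
  comm : ∀ S T : Multiset ℂ, S.card = k → T.card = k → G S T = G T S
  tri : ∀ S U T : Multiset ℂ, S.card = k → U.card = k → T.card = k → G S T ≤ G S U + G U T
  dense : ∃ T : ℕ × ℕ → Multiset ℂ, (∀ n, (T n).card = k) ∧
    ∀ S : Multiset ℂ, S.card = k → ∀ ε > 0, ∃ n, G S (T n) < ε

lemma good_one : Good 1 where
  nonneg S T hS hT := by
    obtain ⟨a, rfl⟩ := Multiset.card_eq_one.1 hS
    obtain ⟨b, rfl⟩ := Multiset.card_eq_one.1 hT
    rw [G_single]; positivity
  comm S T hS hT := by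
    obtain ⟨a, rfl⟩ := Multiset.card_eq_one.1 hS
    obtain ⟨b, rfl⟩ := Multiset.card_eq_one.1 hT
    rw [G_single, G_single, norm_sub_rev]
  tri S U T hS hU hT := by
    obtain ⟨a, rfl⟩ := Multiset.card_eq_one.1 hS
    obtain ⟨b, rfl⟩ := Multiset.card_eq_one.1 hT
    obtain ⟨c, rfl⟩ := Multiset.card_eq_one.1 hU
    rw [G_single, G_single, G_single]
    exact norm_sub_le_norm_sub_add_norm_sub a c b
  dense := by
    refine ⟨fun n => {TopologicalSpace.denseSeq ℂ n.1}, fun n => by simp, fun S hS ε hε => ?_⟩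
    obtain ⟨a, rfl⟩ := Multiset.card_eq_one.1 hS
    obtain ⟨n, hn⟩ := (TopologicalSpace.denseRange_denseSeq ℂ).exists_dist_lt a hε
    exact ⟨(n, 0), by rw [G_single, ← dist_eq_norm]; exact hn⟩

lemma good_two : Good 2 where
  nonneg S T hS hT := by
    obtain ⟨a, b, rfl⟩ := Multiset.card_eq_two.1 hS
    obtain ⟨c, d, rfl⟩ := Multiset.card_eq_two.1 hT
    rw [G_pair]; exact le_min (D2_nonneg ..) (D2_nonneg ..)
  comm S T hS hT := by
    obtain ⟨a, b, rfl⟩ := Multiset.card_eq_two.1 hS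
    obtain ⟨c, d, rfl⟩ := Multiset.card_eq_two.1 hT
    rw [G_pair, G_pair, D2_comm a b c d, D2_comm a b d c, D2_swap d c a b]
  tri S U T hS hU hT := by
    obtain ⟨a, b, rfl⟩ := Multiset.card_eq_two.1 hS
    obtain ⟨c, d, rfl⟩ := Multiset.card_eq_two.1 hU
    obtain ⟨e, f, rfl⟩ := Multiset.card_eq_two.1 hT
    rw [G_pair, G_pair, G_pair]
    have h1 := D2_triangle a b c d e f
    have h2 := D2_triangle a b c d f e
    have h3 := D2_triangle a b d c e f
    have h4 := D2_triangle a b d c f e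
    rw [D2_swap d c e f] at h3
    rw [D2_swap d c f e] at h4
    have := min_le_left (D2 a b e f) (D2 a b f e)
    have := min_le_right (D2 a b e f) (D2 a b f e)
    rcases min_choice (D2 a b c d) (D2 a b d c) with h | h <;>
      rcases min_choice (D2 c d e f) (D2 c d f e) with h' | h' <;> rw [h, h'] <;> linarith
  dense := by
    refine ⟨fun n => {TopologicalSpace.denseSeq ℂ n.1, TopologicalSpace.denseSeq ℂ n.2},
      fun n => by simp, fun S hS ε hε => ?_⟩
    obtain ⟨a, b, rfl⟩ := Multiset.card_eq_two.1 hS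
    obtain ⟨n, hn⟩ := (TopologicalSpace.denseRange_denseSeq ℂ).exists_dist_lt a (half_pos hε)
    obtain ⟨m, hm⟩ := (TopologicalSpace.denseRange_denseSeq ℂ).exists_dist_lt b (half_pos hε)
    refine ⟨(n, m), ?_⟩
    rw [G_pair]
    refine lt_of_le_of_lt (min_le_left _ _) ?_
    rw [dist_eq_norm] at hn hm
    rw [D2, Real.sqrt_lt' hε]
    have h1 := norm_nonneg (a - TopologicalSpace.denseSeq ℂ n)
    have h2 := norm_nonneg (b - TopologicalSpace.denseSeq ℂ m)
    nlinarith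

lemma Good.abs_sub_le {k : ℕ} (hk : Good k) {S U T : Multiset ℂ} (hS : S.card = k)
    (hU : U.card = k) (hT : T.card = k) : |G S T - G U T| ≤ G S U := by
  have h1 := hk.tri S U T hS hU hT
  have h2 := hk.tri U S T hU hS hT
  rw [hk.comm U S hU hS] at h2
  rw [abs_le]; constructor <;> linarith

lemma Good.exists_seq {k : ℕ} (hk : Good k) : ∃ T : ℕ × ℕ → Multiset ℂ, (∀ n, (T n).card = k) ∧
    ∀ S U : Multiset ℂ, S.card = k → U.card = k → ∀ m : ℝ≥0∞,
      (∀ n, ENNReal.ofReal |G S (T n) - G U (T n)| ≤ m) → ENNReal.ofReal (G S U) ≤ m := by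
  obtain ⟨T, hT, hd⟩ := hk.dense
  refine ⟨T, hT, fun S U hS hU m hm => ?_⟩
  refine ENNReal.le_of_forall_pos_le_add fun ε hε _ => ?_
  obtain ⟨n, hn⟩ := hd U hU (ε / 2) (by positivity)
  have h1 := hk.tri S (T n) U hS (hT n) hU
  rw [hk.comm (T n) U (hT n) hU] at h1
  have h2 := le_abs_self (G S (T n) - G U (T n))
  calc ENNReal.ofReal (G S U) ≤ ENNReal.ofReal (|G S (T n) - G U (T n)| + ε) :=
        ENNReal.ofReal_le_ofReal (by linarith)
    _ = ENNReal.ofReal |G S (T n) - G U (T n)| + ε := by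
        rw [ENNReal.ofReal_add (abs_nonneg _) ε.coe_nonneg, ENNReal.ofReal_coe_nnreal]
    _ ≤ m + ε := by gcongr; exact hm n

/-- sign of the optimal matching -/
noncomputable def sgn (x y : ℂ) : ℝ := if 0 ≤ (x * (starRingEnd ℂ) y).re then 1 else -1

lemma sgn_cases (x y : ℂ) : sgn x y = 1 ∨ sgn x y = -1 := by
  unfold sgn; split_ifs <;> simp

lemma sgn_comm (x y : ℂ) : sgn x y = sgn y x := by
  unfold sgn
  have : (x * (starRingEnd ℂ) y).re = (y * (starRingEnd ℂ) x).re := by simp; ring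
  rw [this]

lemma nsq (z : ℂ) : ‖z‖ ^ 2 = z.re ^ 2 + z.im ^ 2 := by
  rw [Complex.sq_norm, Complex.normSq_apply]; ring

lemma G_pm (e x e' x' : ℂ) : G {e + x, e - x} {e' + x', e' - x'} =
    √(2 * ‖e - e'‖ ^ 2 + 2 * ‖x - sgn x x' * x'‖ ^ 2) := by
  rw [G_pair, D2, D2]
  have h1 : ‖e + x - (e' + x')‖ ^ 2 + ‖e - x - (e' - x')‖ ^ 2 =
      2 * ‖e - e'‖ ^ 2 + 2 * ‖x - x'‖ ^ 2 := by
    simp only [nsq]; simp; ring
  have h2 : ‖e + x - (e' - x')‖ ^ 2 + ‖e - x - (e' + x')‖ ^ 2 =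
      2 * ‖e - e'‖ ^ 2 + 2 * ‖x + x'‖ ^ 2 := by
    simp only [nsq]; simp; ring
  rw [h1, h2]
  have h3 : ‖x + x'‖ ^ 2 = ‖x - x'‖ ^ 2 + 4 * (x * (starRingEnd ℂ) x').re := by
    simp only [nsq]; simp; ring
  unfold sgn
  split_ifs with h
  · rw [min_eq_left (Real.sqrt_le_sqrt (by linarith))]; simp
  · rw [min_eq_right (Real.sqrt_le_sqrt (by linarith))]; simp

noncomputable def eta (T : Multiset ℂ) : ℂ := T.sum / 2

noncomputable def wq (T : Multiset ℂ) : ℂ := T.sum ^ 2 / 4 - T.prod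

noncomputable def xi (T : Multiset ℂ) : ℂ := wq T ^ ((2 : ℂ)⁻¹)

lemma xi_sq (T : Multiset ℂ) : xi T ^ 2 = wq T := by
  unfold xi; exact Complex.cpow_ofNat_inv_pow _ 2

lemma eta_pm (e x : ℂ) : eta {e + x, e - x} = e := by simp [eta]

lemma wq_pm (e x : ℂ) : wq {e + x, e - x} = x ^ 2 := by simp [wq]; ring

lemma eq_pm {T : Multiset ℂ} (hT : T.card = 2) : T = {eta T + xi T, eta T - xi T} := by
  obtain ⟨a, b, rfl⟩ := Multiset.card_eq_two.1 hT
  have h := xi_sq {a, b}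
  have hw : wq {a, b} = ((a - b) / 2) ^ 2 := by simp [wq]; ring
  have he : eta {a, b} = (a + b) / 2 := by simp [eta]
  rw [hw] at h
  rw [he]
  rcases sq_eq_sq_iff_eq_or_eq_neg.1 h with h | h <;> rw [h]
  · congr 1 <;> [ring; (congr 1; ring)]
  · rw [Multiset.pair_comm]; congr 1 <;> [ring; (congr 1; ring)]

lemma G_eta_xi {S T : Multiset ℂ} (hS : S.card = 2) (hT : T.card = 2) :
    G S T = √(2 * ‖eta S - eta T‖ ^ 2 + 2 * ‖xi S - sgn (xi S) (xi T) * xi T‖ ^ 2) := by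
  conv_lhs => rw [eq_pm hS, eq_pm hT]
  exact G_pm ..

lemma G_sq_test {S : Multiset ℂ} (hS : S.card = 2) (c q : ℂ) :
    G S {c + q, c - q} ^ 2 = 2 * ‖eta S - c‖ ^ 2 + 2 * ‖xi S‖ ^ 2 + 2 * ‖q‖ ^ 2 -
      4 * |(xi S * (starRingEnd ℂ) q).re| := by
  conv_lhs => rw [eq_pm hS]
  rw [G_pm, Real.sq_sqrt (by positivity)]
  unfold sgn
  split_ifs with h
  · rw [abs_of_nonneg h]; simp only [nsq]; simp; ring
  · rw [abs_of_neg (not_le.1 h)]; simp only [nsq]; simp; ring

lemma reim_eq {x y : ℝ} {z : ℂ} (hx : x = z.re) (hy : y = z.im) :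
    (x : ℂ) + (y : ℂ) * Complex.I = z := by
  rw [hx, hy]; exact Complex.re_add_im z

lemma aemeasurable_eta_xi {μ : Measure ℂ} {f : ℂ → Multiset ℂ} (hc : ∀ᵐ z ∂μ, (f z).card = 2)
    (hm : ∀ T : Multiset ℂ, T.card = 2 → AEMeasurable (fun z => G (f z) T) μ) :
    AEMeasurable (fun z => eta (f z)) μ ∧ AEMeasurable (fun z => xi (f z)) μ := by
  have hs : ∀ c q : ℂ, AEMeasurable (fun z => G (f z) {c + q, c - q} ^ 2) μ := fun c q =>
    (hm _ (by simp)).pow_const 2
  constructor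
  · have : AEMeasurable (fun z => ((((G (f z) {0 + 0, 0 - 0} ^ 2 + 2 - G (f z) {1 + 0, 1 - 0} ^ 2)
        / 4 : ℝ) : ℂ) + (((G (f z) {0 + 0, 0 - 0} ^ 2 + 2 -
          G (f z) {Complex.I + 0, Complex.I - 0} ^ 2) / 4 : ℝ) : ℂ) * Complex.I)) μ := by
      have := hs 0 0; have := hs 1 0; have := hs Complex.I 0
      fun_prop
    refine this.congr ?_
    filter_upwards [hc] with z hz
    rw [G_sq_test hz, G_sq_test hz, G_sq_test hz]
    apply reim_eq <;> simp only [nsq] <;> simp <;> ring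
  · have : AEMeasurable (fun z => wq (f z)) μ := by
      let A : ℂ → ℂ → ℝ := fun q z =>
        ((G (f z) {0 + 0, 0 - 0} ^ 2 + 2 * ‖q‖ ^ 2 - G (f z) {0 + q, 0 - q} ^ 2) / 4) ^ 2
      have hA : ∀ q, AEMeasurable (A q) μ := fun q => by
        have := hs 0 0; have := hs 0 q
        simp only [A]; fun_prop
      have hA' : ∀ q z, (f z).card = 2 → A q z = (xi (f z) * (starRingEnd ℂ) q).re ^ 2 := by
        intro q z hz
        simp only [A]
        rw [G_sq_test hz, G_sq_test hz, ← sq_abs ((xi (f z) * (starRingEnd ℂ) q).re)]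
        congr 1; simp
      have : AEMeasurable (fun z => (((A 1 z - A Complex.I z : ℝ) : ℂ) +
          ((A (1 + Complex.I) z - A 1 z - A Complex.I z : ℝ) : ℂ) * Complex.I)) μ := by
        have := hA 1; have := hA Complex.I; have := hA (1 + Complex.I)
        fun_prop
      refine this.congr ?_
      filter_upwards [hc] with z hz
      rw [hA' _ _ hz, hA' _ _ hz, hA' _ _ hz, ← xi_sq]
      apply reim_eq <;> simp [sq] <;> ring
    exact this.pow_const _

lemma norm_eta_le {S : Multiset ℂ} (hS : S.card = 2) :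
    ‖eta S‖ ≤ G S {0, 0} ∧ ‖xi S‖ ≤ G S {0, 0} := by
  have h := G_sq_test hS 0 0
  simp only [add_zero, sub_zero, norm_zero, map_zero, mul_zero, Complex.zero_re, abs_zero] at h
  have h0 := good_two.nonneg S {0, 0} hS (by simp)
  constructor
  · exact abs_le_of_sq_le_sq' (by nlinarith [sq_nonneg ‖xi S‖, sq_nonneg ‖eta S‖]) h0 |>.2
  · exact abs_le_of_sq_le_sq' (by nlinarith [sq_nonneg ‖xi S‖, sq_nonneg ‖eta S‖]) h0 |>.2

lemma aemeasurable_sum {μ : Measure ℂ} {f : ℂ → Multiset ℂ} (hc : ∀ᵐ z ∂μ, (f z).card = 1)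
    (hm : ∀ T : Multiset ℂ, T.card = 1 → AEMeasurable (fun z => G (f z) T) μ) :
    AEMeasurable (fun z => (f z).sum) μ := by
  have : AEMeasurable (fun z => ((((G (f z) {0} ^ 2 + 1 - G (f z) {1} ^ 2) / 2 : ℝ) : ℂ) +
      (((G (f z) {0} ^ 2 + 1 - G (f z) {Complex.I} ^ 2) / 2 : ℝ) : ℂ) * Complex.I)) μ := by
    have := hm {0} (by simp); have := hm {1} (by simp); have := hm {Complex.I} (by simp)
    fun_prop
  refine this.congr ?_
  filter_upwards [hc] with z hz
  obtain ⟨a, ha⟩ := Multiset.card_eq_one.1 hz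
  rw [ha, G_single, G_single, G_single]
  apply reim_eq <;> simp only [nsq] <;> simp <;> ring

end Pool.Agent.Lib.MP_e2f52c_an
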