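import Pool.Agent.Lib.MP_e2f52c_an.Tele

open MeasureTheory Set Filter Topology
open scoped ENNReal

namespace Pool.Agent.Lib.MP_e2f52c_an

variable {φ : ℝ → ℂ} {η ξ η' ξ' : ℂ → ℂ} {Φ Φ' : Fin 2 → ℂ → ℝ≥0∞}

lemma Ar_congr (hE : ∀ᵐ z, z ∈ B → η z = η' z ∧ ξ z = ξ' z) {r h : ℝ} (hh : 0 < h)
    (hr : h < (1 - r) / 2) : ∀ᵐ z, z ∈ Metric.ball 0 r → Ar η ξ h z = Ar η' ξ' h z := by
  filter_upwards [hE, ae_add hE (h * 1), ae_add hE (h * 1 + h * Complex.I),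
    ae_add hE (h * Complex.I)] with z a0 a1 a2 a3 hz
  obtain ⟨v0, v1, v2, v3⟩ := verts hh hr hz
  rw [← add_assoc] at a2
  simp only [Ar, ar, om_congr (a0 v0) (a1 v1), om_congr (a1 v1) (a2 v2), om_congr (a3 v3) (a2 v2),
    om_congr (a0 v0) (a3 v3)]

lemma Cfg.tendsto_integral (C : Cfg φ η ξ Φ) {L : ℝ}
    (hL : ∀ x ∈ Icc (-1 : ℝ) 1, ∀ y ∈ Icc (-1 : ℝ) 1, ‖φ x - φ y‖ ≤ L * |x - y|) {r : ℝ}
    {u : ℕ → ℝ} (hu : ∀ n, 0 < u n ∧ u n < (1 - r) / 2) {J : ℂ → ℝ}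
    (hJ : IntegrableOn J (Metric.ball 0 r))
    (hlim : ∀ᵐ z, z ∈ Metric.ball 0 r →
      Tendsto (fun n => Ar η ξ (u n) z / u n ^ 2) atTop (𝓝 (J z))) :
    Tendsto (fun n => (∫ z in Metric.ball 0 r, Ar η ξ (u n) z) / u n ^ 2) atTop
      (𝓝 (∫ z in Metric.ball 0 r, J z)) := by
  have : IsFiniteMeasure (volume.restrict (Metric.ball (0 : ℂ) r)) :=
    isFiniteMeasure_restrict.2 measure_ball_lt_top.ne
  have hi : ∀ n, IntegrableOn (fun z => Ar η ξ (u n) z / u n ^ 2) (Metric.ball 0 r) := fun n =>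
    (C.integrableOn_Ar hL (hu n).1 (hu n).2).div_const _
  have hui : UnifIntegrable (fun n z => Ar η ξ (u n) z / u n ^ 2) 1
      (volume.restrict (Metric.ball (0 : ℂ) r)) := by
    intro ε hε
    obtain ⟨δ, hδ, H⟩ := dom_small C.mΦ C.iΦ L (ε := ENNReal.ofReal ε) (by simpa using hε)
    obtain ⟨d, d0, hd⟩ : ∃ d : ℝ, 0 < d ∧ ENNReal.ofReal d < δ := by
      obtain ⟨d, h1, h2⟩ := ENNReal.lt_iff_exists_real_btwn.1 hδ
      exact ⟨d, by simpa using h2.1, h2.2⟩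
    refine ⟨d, d0, fun n s hs hsd => ?_⟩
    rw [eLpNorm_indicator_eq_eLpNorm_restrict hs, eLpNorm_one_eq_lintegral_enorm,
      Measure.restrict_restrict hs]
    rw [Measure.restrict_apply hs] at hsd
    have h1 := H _ (hsd.trans_lt hd) (u n) (hu n).1
    have h0 : ENNReal.ofReal (u n) ^ 2 ≠ 0 := by simpa using (hu n).1
    have h2 : ENNReal.ofReal (u n) ^ 2 ≠ ∞ := ENNReal.pow_ne_top ENNReal.ofReal_ne_top
    rw [← ENNReal.mul_le_mul_iff_right h0 h2, ← lintegral_const_mul' _ _ h2]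
    refine le_trans (lintegral_mono_ae ((ae_restrict_iff' (hs.inter measurableSet_ball)).2 ?_)) h1
    filter_upwards [C.abs_Ar hL (hu n).1 (hu n).2] with z a hz
    refine le_trans (le_of_eq ?_) (a hz.2)
    have := (hu n).1
    rw [Real.enorm_eq_ofReal_abs, ← ENNReal.ofReal_pow this.le, ← ENNReal.ofReal_mul (by positivity),
      abs_div, abs_of_pos (pow_pos this 2)]
    congr 1; field_simp
  have h1 := tendsto_Lp_finite_of_tendsto_ae le_rfl (by simp) (fun n => (hi n).1)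
    (memLp_one_iff_integrable.2 hJ) hui ((ae_restrict_iff' measurableSet_ball).2 hlim)
  simp only [eLpNorm_one_eq_lintegral_enorm] at h1
  have h2 := tendsto_integral_of_L1 J hJ.1 (Eventually.of_forall hi) h1
  simpa only [integral_div] using h2

lemma ball_bound (C : Cfg φ η ξ Φ) (C' : Cfg φ η' ξ' Φ') {L : ℝ}
    (hL : ∀ x ∈ Icc (-1 : ℝ) 1, ∀ y ∈ Icc (-1 : ℝ) 1, ‖φ x - φ y‖ ≤ L * |x - y|) {r0 r : ℝ}
    (hr0 : r0 < r) (hr : r < 1) (hE : ∀ᵐ z, z ∈ B → r0 < ‖z‖ → η z = η' z ∧ ξ z = ξ' z)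
    {e x : ℂ → ℂ} (hE' : ∀ᵐ z, z ∈ B → η' z = e z ∧ ξ' z = x z) {J : ℂ → ℝ}
    (hJ : IntegrableOn J B) (hJ0 : ∀ z, 0 ≤ J z)
    (hlim : ∀ᵐ z, z ∈ B → Tendsto (fun h : ℝ => Ar e x h z / h ^ 2) (𝓝[>] 0) (𝓝 (J z))) :
    ∫⁻ z in Metric.ball 0 r, ENNReal.ofReal (J z) ≤
      ((∫⁻ z, Φ 0 z ^ 2) + ∫⁻ z, Φ 1 z ^ 2) / 2 := by
  have sub : Metric.ball (0 : ℂ) r ⊆ B := Metric.ball_subset_ball hr.le
  set c := min ((1 - r) / 2) ((r - r0) / 2)
  have c0 : 0 < c := lt_min (by linarith) (by linarith)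
  let u : ℕ → ℝ := fun n => c / 2 * (1 / (n + 1))
  have hu : ∀ n, 0 < u n ∧ u n < c := fun n => by
    have h1 : (0 : ℝ) < 1 / (n + 1) := by positivity
    have h2 : (1 : ℝ) / (n + 1) ≤ 1 := by
      rw [div_le_one (by positivity)]; linarith [Nat.cast_nonneg (α := ℝ) n]
    exact ⟨by positivity, by simp only [u]; nlinarith⟩
  have hu1 : ∀ n, 0 < u n ∧ u n < (1 - r) / 2 := fun n =>
    ⟨(hu n).1, (hu n).2.trans_le (min_le_left _ _)⟩
  have tu : Tendsto u atTop (𝓝[>] 0) := by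
    refine tendsto_nhdsWithin_iff.2 ⟨?_, Eventually.of_forall fun n => (hu n).1⟩
    simpa [u] using tendsto_one_div_add_atTop_nhds_zero_nat.const_mul (c / 2)
  have h1 := C'.tendsto_integral hL hu1 (hJ.mono_set sub) (by
    filter_upwards [hlim, ae_all_iff.2 fun n => Ar_congr hE' (hu1 n).1 (hu1 n).2] with z a b hz
    simp only [fun n => b n hz]
    exact (a (sub hz)).comp tu)
  refine ENNReal.le_of_forall_pos_le_add fun ε hε hN => ?_
  rw [← ofReal_integral_eq_lintegral_ofReal (hJ.mono_set sub) (Eventually.of_forall hJ0)]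
  have hN' : ((∫⁻ z, Φ 0 z ^ 2) + ∫⁻ z, Φ 1 z ^ 2) / 2 + ε ≠ ∞ :=
    ENNReal.add_ne_top.2 ⟨hN.ne, ENNReal.coe_ne_top⟩
  refine ENNReal.ofReal_le_of_le_toReal (le_of_tendsto h1 ?_)
  filter_upwards [tu.eventually (C.upper hL hr (ε := ε) (by simpa using hε.ne'))] with n hn
  rw [← telescope C C' hL hE (hu n).1 (hu1 n).2 ((hu n).2.trans_le (min_le_right _ _)),
    div_le_iff₀ (pow_pos (hu n).1 2),
    integral_eq_lintegral_pos_part_sub_lintegral_neg_part (C.integrableOn_Ar hL (hu n).1 (hu1 n).2)]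
  refine (sub_le_self _ ENNReal.toReal_nonneg).trans ?_
  refine (ENNReal.toReal_mono (ENNReal.mul_ne_top (ENNReal.pow_ne_top ENNReal.ofReal_ne_top) hN')
    hn).trans (le_of_eq ?_)
  rw [ENNReal.toReal_mul, ENNReal.toReal_pow, ENNReal.toReal_ofReal (hu n).1.le, mul_comm]

theorem dirMin_of_limit (hφ : Continuous φ) {L : ℝ}
    (hL : ∀ x ∈ Icc (-1 : ℝ) 1, ∀ y ∈ Icc (-1 : ℝ) 1, ‖φ x - φ y‖ ≤ L * |x - y|)
    {gp gm : ℂ → Multiset ℂ} (H : HalfValued 1 B φ gp gm) {ψ : ℂ → ℝ}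
    (bp : IsBound 2 (side B 1) gp fun _ => ψ) (bm : IsBound 1 (side B (-1)) gm fun _ => ψ)
    (hlim : ∀ᵐ z, z ∈ B → Tendsto (fun h : ℝ => Ar (etaC φ gp gm) (xiC φ gp gm) h z / h ^ 2)
      (𝓝[>] 0) (𝓝 (ψ z ^ 2))) : DirMin 1 B φ gp gm := by
  refine ⟨H, fun hp hm H' K hK hKB e1 e2 => ?_⟩
  refine ENNReal.le_iInf₂_add_iInf₂ fun φp cp φm cm => ?_
  obtain ⟨η, ξ, Φ, C, hE, hN⟩ := exists_cfg hφ H' cp cm
  obtain ⟨η', ξ', Φ', C', hE', -⟩ := exists_cfg hφ H bp bm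
  obtain ⟨r0, hr0, hK'⟩ := exists_lt_subset_ball hK.isClosed hKB
  have hEE : ∀ᵐ z, z ∈ B → r0 < ‖z‖ → η z = η' z ∧ ξ z = ξ' z := by
    filter_upwards [hE, hE', e1, e2, ae_im_ne] with z a b c d n hz hr
    have hzK : z ∉ K := fun h => by
      have := hK' h
      simp only [Metric.mem_ball, dist_zero_right] at this
      linarith
    rw [(a hz).1, (a hz).2, (b hz).1, (b hz).2]
    rcases lt_or_gt_of_ne n with n | n
    · simp only [etaC, xiC, if_neg n.not_gt, d ⟨mem_down.2 ⟨hz, n⟩, hzK⟩, and_self]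
    · simp only [etaC, xiC, if_pos n, c ⟨mem_up.2 ⟨hz, n⟩, hzK⟩, and_self]
  have hJ : IntegrableOn (fun z => ψ z ^ 2) B := by
    rw [IntegrableOn, restrict_B_eq]
    exact (bp.1 0).integrable_sq.add_measure (bm.1 0).integrable_sq
  have key : ∫⁻ z in B, ENNReal.ofReal (ψ z ^ 2) ≤
      ((∫⁻ z, Φ 0 z ^ 2) + ∫⁻ z, Φ 1 z ^ 2) / 2 := by
    let r : ℕ → ℝ := fun n => 1 - (1 - r0) / 2 * (1 / (n + 1))
    have tr : Tendsto r atTop (𝓝 1) := by
      simpa [r] using (tendsto_one_div_add_atTop_nhds_zero_nat.const_mul ((1 - r0) / 2)).const_sub 1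
    have hr : ∀ n, r0 < r n ∧ r n < 1 := fun n => by
      have h1 : (0 : ℝ) < 1 / (n + 1) := by positivity
      have h2 : (1 : ℝ) / (n + 1) ≤ 1 := by
        rw [div_le_one (by positivity)]; linarith [Nat.cast_nonneg (α := ℝ) n]
      simp only [r]
      constructor <;> nlinarith
    have eB : B = ⋃ n, Metric.ball (0 : ℂ) (r n) := by
      refine Subset.antisymm (fun z hz => ?_)
        (iUnion_subset fun n => Metric.ball_subset_ball (hr n).2.le)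
      simp only [Metric.mem_ball, dist_zero_right, mem_iUnion] at hz ⊢
      exact (tr.eventually (lt_mem_nhds hz)).exists
    rw [eB, setLIntegral_iUnion_of_directed _ (fun n m => by
      rcases le_total (r n) (r m) with h | h
      · exact ⟨m, Metric.ball_subset_ball h, le_rfl⟩
      · exact ⟨n, le_rfl, Metric.ball_subset_ball h⟩)]
    exact iSup_le fun n => ball_bound C C' hL (hr n).1 (hr n).2 hEE hE' hJ
      (fun z => sq_nonneg _) hlim
  refine le_trans ?_ hN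
  refine (add_le_add (iInf₂_le _ bp) (iInf₂_le _ bm)).trans ?_
  rw [← lintegral_add_measure, ← restrict_B_eq]
  simp only [Fin.sum_univ_two, ← two_mul]
  rw [lintegral_const_mul' _ _ (by simp)]
  refine (mul_le_mul_right key 2).trans (le_of_eq ?_)
  rw [ENNReal.mul_div_cancel] <;> simp

end Pool.Agent.Lib.MP_e2f52c_an
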