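import Pool.Agent.Lib.MP_e2f52c_an.Assemble

open MeasureTheory Set Filter Topology
open scoped ENNReal NNReal Real

namespace Pool.Agent.Lib.MP_e2f52c_an

lemma shift_iff {U Q : Set ℂ} (hU : IsOpen U) (hc : Convex ℝ U) (hUB : U ⊆ B) {w : ℂ → ℂ}
    (hw : W12 1 U fun z => {w z}) (hQ : Convex ℝ Q) (hQU : Q ⊆ U) {P P' : ℂ → Prop}
    (hP : ∀ᵐ z, z ∈ Q → P z ∨ P' z) {m : ℝ} (hm : 0 < m)
    (gap : ∀ z ∈ Q, ∀ z' ∈ Q, P z → P' z' → m ≤ ‖w z - w z'‖) (j : Fin 2) {t : ℝ} (ht : 0 < t) :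
    ∀ᵐ z, z ∈ Q → z + t * dir j ∈ Q → (P z ↔ P (z + t * dir j)) := by
  obtain ⟨c, φ, hb⟩ := hw
  let f := (hb.1 j).1.aemeasurable.mk _
  have mf : Measurable f := (hb.1 j).1.aemeasurable.measurable_mk
  have ef := (hb.1 j).1.aemeasurable.ae_eq_mk
  let Φ : ℂ → ℝ≥0∞ := U.indicator fun z => ENNReal.ofReal (f z)
  have mΦ : Measurable Φ := mf.ennreal_ofReal.indicator hU.measurableSet
  have hΦ : ∀ᵐ z, z ∈ U → ENNReal.ofReal (φ j z) ≤ Φ z := by
    filter_upwards [(ae_restrict_iff' hU.measurableSet).1 ef] with z hz h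
    simp only [Φ, indicator_of_mem h]; rw [hz h]
  have iΦ : ∫⁻ z, Φ z ^ 2 ≠ ∞ := by
    refine ne_top_of_le_ne_top (lintegral_sq_ne_top ((hb.1 j).ae_eq ef)) ?_
    rw [← lintegral_indicator hU.measurableSet]
    refine lintegral_mono fun z => ?_
    by_cases h : z ∈ U
    · simp only [Φ, indicator_of_mem h]; exact sq_ofReal_le _
    · simp [Φ, indicator_of_notMem h]
  obtain ⟨N, hN⟩ : ∃ N : ℝ, 0 ≤ N ∧ ∫⁻ z, Φ z ^ 2 = ENNReal.ofReal N :=
    ⟨_, ENNReal.toReal_nonneg, (ENNReal.ofReal_toReal iΦ).symm⟩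
  have key : ∀ n : ℕ, volume {z | ¬(z ∈ Q → z + t * dir j ∈ Q → (P z ↔ P (z + t * dir j)))} ≤
      ENNReal.ofReal (t ^ 2 * N / m ^ 2 / (n + 1)) := fun n => by
    obtain ⟨h, hh⟩ : ∃ h : ℝ, h = t / (n + 1) := ⟨_, rfl⟩
    have h0 : 0 < h := by rw [hh]; positivity
    have a1 := ae_all_iff.2 fun k : ℕ =>
      ae_add ((edge_bound good_one hU hc hUB c hb j hΦ h0).and (hP.and (ae_add hP (h * dir j))))
        (((k * h : ℝ) : ℂ) * dir j)
    calc _ ≤ volume (⋃ k ∈ Finset.range (n + 1), {z | ENNReal.ofReal m ^ 2 ≤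
          M Φ (dir j) h (z + ((k * h : ℝ) : ℂ) * dir j) ^ 2}) := by
          refine measure_mono_ae ?_
          filter_upwards [a1] with z hz hn
          by_contra hb
          change z ∉ (⋃ k ∈ Finset.range (n + 1), _) at hb
          simp only [mem_iUnion, not_exists, mem_ofPred_eq, not_le, Finset.mem_range] at hb
          refine hn fun q1 q2 => ?_
          have mem : ∀ k : ℕ, k ≤ n + 1 → z + ((k * h : ℝ) : ℂ) * dir j ∈ Q := fun k hk => by
            have hk' : (k : ℝ) ≤ n + 1 := by exact_mod_cast hk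
            have := hQ.add_smul_mem q1 q2 (t := k / (n + 1))
              ⟨by positivity, by rw [div_le_one (by positivity)]; exact hk'⟩
            convert this using 2
            rw [hh, Complex.real_smul]; push_cast; ring
          have ind : ∀ k : ℕ, k ≤ n + 1 → (P z ↔ P (z + ((k * h : ℝ) : ℂ) * dir j)) := by
            intro k
            induction k with
            | zero => simp
            | succ k ih =>
              intro hk
              have e : z + (((k + 1 : ℕ) * h : ℝ) : ℂ) * dir j =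
                z + ((k * h : ℝ) : ℂ) * dir j + h * dir j := by push_cast; ring
              have m1 := mem k (by omega)
              have m2 := mem (k + 1) hk
              rw [e] at m2 ⊢
              obtain ⟨b1, b2, b3⟩ := hz k
              have b4 := (b1 (hQU m1) (hQU m2)).trans_lt
                (lt_of_pow_lt_pow_left' 2 (hb k (by omega)))
              rw [ENNReal.ofReal_lt_ofReal_iff hm, G_single] at b4
              rw [ih (by omega)]
              constructor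
              · intro h1
                exact (b3 m2).resolve_right fun h2 => (gap _ m1 _ m2 h1 h2).not_gt b4
              · intro h1
                exact (b2 m1).resolve_right fun h2 =>
                  (gap _ m2 _ m1 h1 h2).not_gt (by rwa [norm_sub_rev])
          have := ind (n + 1) le_rfl
          rwa [show ((n + 1 : ℕ) * h : ℝ) = t by rw [hh]; push_cast; field_simp] at this
      _ ≤ ∑ k ∈ Finset.range (n + 1), ENNReal.ofReal (h ^ 2 * N / m ^ 2) := by
          refine (measure_biUnion_finset_le _ _).trans (Finset.sum_le_sum fun k _ => ?_)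
          have m0 : ENNReal.ofReal m ^ 2 ≠ 0 := pow_ne_zero _ (by simpa using hm)
          refine (meas_ge_le_lintegral_div (((measurable_M mΦ _ _).comp
            (measurable_add_const _)).pow_const 2).aemeasurable m0 (by finiteness)).trans ?_
          have := lintegral_M_sq_le mΦ univ (dir j) (((k * h : ℝ) : ℂ) * dir j) h
          rw [Measure.restrict_univ, hN.2] at this
          rw [ENNReal.ofReal_div_of_pos (by positivity), ENNReal.ofReal_mul (by positivity),
            ENNReal.ofReal_pow h0.le, ENNReal.ofReal_pow hm.le]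
          exact ENNReal.div_le_div_right this _
      _ = _ := by
          rw [Finset.sum_const, Finset.card_range, nsmul_eq_mul, ← ENNReal.ofReal_natCast,
            ← ENNReal.ofReal_mul (by positivity), hh]
          congr 1; push_cast; field_simp
  rw [ae_iff, ← nonpos_iff_eq_zero]
  have lim := ENNReal.tendsto_ofReal
    (tendsto_const_div_atTop_nhds_zero_nat (t ^ 2 * N / m ^ 2) |>.comp (tendsto_add_atTop_nat 1))
  rw [ENNReal.ofReal_zero] at lim
  exact ge_of_tendsto' lim fun n => by simpa using key n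

def sqr (c : ℂ) (ρ : ℝ) : Set ℂ := {z | |z.re - c.re| < ρ ∧ |z.im - c.im| < ρ}

lemma isOpen_sqr (c : ℂ) (ρ : ℝ) : IsOpen (sqr c ρ) :=
  (isOpen_lt (f := fun z : ℂ => |z.re - c.re|) (by fun_prop) continuous_const).inter
    (isOpen_lt (f := fun z : ℂ => |z.im - c.im|) (by fun_prop) continuous_const)

lemma convex_sqr (c : ℂ) (ρ : ℝ) : Convex ℝ (sqr c ρ) := by
  have : sqr c ρ = ({z | c.re - ρ < z.re} ∩ {z | z.re < c.re + ρ}) ∩
      ({z | c.im - ρ < z.im} ∩ {z | z.im < c.im + ρ}) := by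
    ext z; simp only [sqr, abs_lt, mem_ofPred_eq, mem_inter_iff]
    constructor <;> rintro ⟨⟨_, _⟩, _, _⟩ <;> refine ⟨⟨?_, ?_⟩, ?_, ?_⟩ <;> linarith
  rw [this]
  exact ((convex_halfSpace_re_gt _).inter (convex_halfSpace_re_lt _)).inter
    ((convex_halfSpace_im_gt _).inter (convex_halfSpace_im_lt _))

lemma exists_sqr {c : ℂ} {S : Set ℂ} (h : S ∈ 𝓝 c) : ∃ ρ > 0, sqr c ρ ⊆ S := by
  obtain ⟨r, hr, h⟩ := Metric.mem_nhds_iff.1 h
  refine ⟨r / 2, half_pos hr, fun z hz => h ?_⟩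
  rw [Metric.mem_ball, dist_eq_norm]
  have := Complex.norm_le_abs_re_add_abs_im (z - c)
  rw [Complex.sub_re, Complex.sub_im] at this
  linarith [hz.1, hz.2]

lemma sqr_const {c : ℂ} {ρ : ℝ} {P : ℂ → Prop} {A : Set ℂ} (hA : MeasurableSet A)
    (hP : ∀ᵐ z, z ∈ sqr c ρ → (P z ↔ z ∈ A))
    (h : ∀ j, ∀ t : ℝ, 0 < t → ∀ᵐ z, z ∈ sqr c ρ → z + t * dir j ∈ sqr c ρ →
      (P z ↔ P (z + t * dir j))) :
    (∀ᵐ z, z ∈ sqr c ρ → P z) ∨ ∀ᵐ z, z ∈ sqr c ρ → ¬ P z := by
  have hQ := (isOpen_sqr c ρ).measurableSet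
  have h1 : ∀ j, ∀ t : ℝ, ∀ᵐ z, z ∈ sqr c ρ → z + t * dir j ∈ sqr c ρ →
      (P z ↔ P (z + t * dir j)) := fun j t => by
    rcases lt_trichotomy t 0 with ht | rfl | ht
    · filter_upwards [ae_add (h j (-t) (by linarith)) (t * dir j)] with z hz a b
      have e : z + t * dir j + ((-t : ℝ) : ℂ) * dir j = z := by push_cast; ring
      rw [e] at hz
      exact (hz b a).symm
    · simp
    · exact h j t ht
  have h2 : ∀ v : ℂ, ∀ᵐ z, z ∈ sqr c ρ ∩ A → z + v ∉ sqr c ρ \ A := fun v => by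
    filter_upwards [h1 0 v.re, ae_add (h1 1 v.im) (v.re * dir 0), hP, ae_add hP v]
      with z a b p q ⟨h3, h4⟩ ⟨h5, h6⟩
    have e : z + v.re * dir 0 + v.im * dir 1 = z + v := by
      simp [dir, add_assoc]
    have m : z + v.re * dir 0 ∈ sqr c ρ := ⟨by simpa [dir] using h5.1, by simpa [dir] using h3.2⟩
    rw [e] at b
    exact h6 ((q h5).1 ((b m h5).1 ((a h3 m).1 ((p h3).2 h4))))
  have h3 : ∀ᵐ z : ℂ, ∀ᵐ v : ℂ, z ∈ sqr c ρ ∩ A → z + v ∉ sqr c ρ \ A := by
    refine (Measure.ae_ae_comm ?_).2 (Eventually.of_forall h2)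
    exact ((hQ.inter hA).preimage measurable_fst).imp
      (((hQ.diff hA).preimage (measurable_fst.add measurable_snd)).compl)
  by_cases h4 : ∀ᵐ z, z ∉ sqr c ρ ∩ A
  · right
    filter_upwards [h4, hP] with z a b hz hp using a ⟨hz, (b hz).1 hp⟩
  · left
    obtain ⟨z, hz, h5⟩ := ((not_eventually.1 h4).and_eventually h3).exists
    rw [not_not] at hz
    filter_upwards [ae_add h5 (-z), hP] with y a b hy
    rw [b hy]
    by_contra hA'
    exact a hz ⟨by simpa using hy, by simpa using hA'⟩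

lemma exists_cont_rep {U Ω : Set ℂ} (hU : IsOpen U) (hc : Convex ℝ U) (hUB : U ⊆ B) {w : ℂ → ℂ}
    (hw : W12 1 U fun z => {w z}) {η F : ℂ → ℂ} (cη : Continuous η) (cF : Continuous F)
    (hΩ : IsOpen Ω) (hΩU : Ω ⊆ U) (nF : ∀ z ∈ Ω, F z ≠ 0)
    (hs : ∀ᵐ z, z ∈ U → (w z - η z) ^ 2 = F z ^ 3) :
    ∃ s : ℂ → ℂ, ContinuousOn s Ω ∧ ∀ z ∈ Ω, s z ^ 2 = F z ^ 3 := by
  have mw : AEMeasurable w (volume.restrict U) := by
    obtain ⟨c, φ, hb⟩ := hw
    simpa using aemeasurable_sum (μ := volume.restrict U) (f := fun z => {w z})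
      (Eventually.of_forall fun z => by simp) fun T hT => (hb.2 T hT).1.1.aemeasurable
  have loc : ∀ z1 ∈ Ω, ∃ (V : Set ℂ) (σ : ℂ → ℂ), IsOpen V ∧ z1 ∈ V ∧ ContinuousOn σ V ∧
      (∀ z, σ z ^ 2 = F z ^ 3) ∧ ∀ᵐ z, z ∈ V → w z - η z = σ z := fun z1 h1 => by
    obtain ⟨σ, s1, s2, s3, -⟩ := exists_branch cF (nF z1 h1)
    have m0 : 0 < ‖σ z1‖ / 4 := by have := norm_pos_iff.2 s3; positivity
    obtain ⟨ρ, ρ0, hρ⟩ := exists_sqr (c := z1) (inter_mem (hΩ.mem_nhds h1) (s2.and
      ((Metric.continuousAt_iff'.1 s2.self_of_nhds _ m0).and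
        (Metric.continuousAt_iff'.1 cη.continuousAt _ m0))))
    have hQU : sqr z1 ρ ⊆ U := fun z hz => hΩU (hρ hz).1
    have hP : ∀ᵐ z, z ∈ sqr z1 ρ → w z - η z = σ z ∨ w z - η z = -σ z := by
      filter_upwards [hs] with z a hz
      exact sq_eq_sq_iff_eq_or_eq_neg.1 ((a (hQU hz)).trans (s1 z).symm)
    have near : ∀ z ∈ sqr z1 ρ, (w z - η z = σ z → ‖w z - (η z1 + σ z1)‖ < ‖σ z1‖ / 2) ∧
        (w z - η z = -σ z → ‖w z - (η z1 - σ z1)‖ < ‖σ z1‖ / 2) := fun z hz => by
      obtain ⟨-, -, a, b⟩ := hρ hz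
      rw [dist_eq_norm] at a b
      constructor <;> intro h
      · rw [show w z - (η z1 + σ z1) = (η z - η z1) + (σ z - σ z1) by linear_combination h]
        linarith [norm_add_le (η z - η z1) (σ z - σ z1)]
      · rw [show w z - (η z1 - σ z1) = (η z - η z1) - (σ z - σ z1) by linear_combination h]
        linarith [norm_sub_le (η z - η z1) (σ z - σ z1)]
    have tri : ∀ x y : ℂ, 2 * ‖σ z1‖ ≤
        ‖x - (η z1 + σ z1)‖ + ‖x - y‖ + ‖y - (η z1 - σ z1)‖ := fun x y => by
      have := norm_add₃_le (a := -(x - (η z1 + σ z1))) (b := x - y) (c := y - (η z1 - σ z1))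
      rw [norm_neg, show -(x - (η z1 + σ z1)) + (x - y) + (y - (η z1 - σ z1)) = 2 * σ z1 by ring,
        norm_mul, Complex.norm_ofNat] at this
      exact this
    have cσ : ContinuousOn σ (sqr z1 ρ) := fun z hz => (hρ hz).2.1.continuousWithinAt
    have z1m : z1 ∈ sqr z1 ρ := ⟨by simpa, by simpa⟩
    rcases sqr_const (c := z1) (ρ := ρ) (P := fun z => w z - η z = σ z)
      (A := {z | ‖mw.mk w z - (η z1 + σ z1)‖ < ‖σ z1‖ / 2})
      (measurableSet_lt (mw.measurable_mk.sub_const _).norm measurable_const) (by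
        filter_upwards [hP, (ae_restrict_iff' hU.measurableSet).1 mw.ae_eq_mk] with z a b hz
        rw [← b (hQU hz)]
        refine ⟨(near z hz).1, fun h => (a hz).resolve_right fun h' => ?_⟩
        have := tri (w z) (w z)
        rw [sub_self, norm_zero] at this
        linarith [(near z hz).2 h'])
      (fun j t ht => shift_iff hU hc hUB hw (convex_sqr _ _) hQU hP (norm_pos_iff.2 s3)
        (fun z hz z' hz' a b => by
          linarith [tri (w z) (w z'), (near z hz).1 a, (near z' hz').2 b]) j ht) with h | h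
    · exact ⟨_, σ, isOpen_sqr _ _, z1m, cσ, s1, h⟩
    · refine ⟨_, fun z => -σ z, isOpen_sqr _ _, z1m, cσ.neg, fun z => by rw [neg_sq, s1], ?_⟩
      filter_upwards [h, hP] with z a b hz using (b hz).resolve_left (a hz)
  choose! V σ hV h1 h2 h3 h4 using loc
  refine ⟨fun z => σ z z, fun z1 hz1 => ?_, fun z hz => h3 z hz z⟩
  refine ((h2 z1 hz1).continuousAt ((hV z1 hz1).mem_nhds (h1 z1 hz1))).continuousWithinAt.congr_of_eventuallyEq
    ?_ rfl
  filter_upwards [self_mem_nhdsWithin, mem_nhdsWithin_of_mem_nhds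
    ((hV z1 hz1).mem_nhds (h1 z1 hz1))] with z hz hz'
  have hO := (hV z hz).inter (hV z1 hz1)
  refine Measure.eqOn_open_of_ae_eq (μ := volume) ((ae_restrict_iff' hO.measurableSet).2 ?_) hO
    ((h2 z hz).mono inter_subset_left) ((h2 z1 hz1).mono inter_subset_right) ⟨h1 z hz, hz'⟩
  filter_upwards [h4 z hz, h4 z1 hz1] with y a b hy
  rw [← a hy.1, ← b hy.2]

lemma no_cont_sqrt {F : ℂ → ℂ} (cF : Continuous F) {z0 : ℂ} (h0 : F z0 = 0) (hd : deriv F z0 ≠ 0)
    {S : Set ℂ} (hS : S ∈ 𝓝 z0) : ∃ Ω, IsOpen Ω ∧ Ω ⊆ S ∧ (∀ z ∈ Ω, F z ≠ 0) ∧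
      ¬ ∃ s : ℂ → ℂ, ContinuousOn s Ω ∧ ∀ z ∈ Ω, s z ^ 2 = F z ^ 3 := by
  have h1 := (hasDerivAt_iff_tendsto_slope.1
    (differentiableAt_of_deriv_ne_zero hd).hasDerivAt).div_const (deriv F z0)
  rw [div_self hd] at h1
  generalize deriv F z0 = k at *
  obtain ⟨r, hr, h2⟩ := Metric.mem_nhdsWithin_iff.1 (inter_mem (mem_nhdsWithin_of_mem_nhds hS)
    (h1.eventually_mem (Complex.isOpen_slitPlane.mem_nhds Complex.one_mem_slitPlane)))
  have h3 : ∀ z ∈ Metric.ball z0 r ∩ {z0}ᶜ, F z / (z - z0) / k ∈ Complex.slitPlane := fun z hz => by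
    simpa [slope_def_field, h0] using (h2 hz).2
  refine ⟨Metric.ball z0 r ∩ {z0}ᶜ, Metric.isOpen_ball.inter isOpen_compl_singleton,
    fun z hz => (h2 hz).1, fun z hz h => by simpa [h] using h3 z hz, ?_⟩
  rintro ⟨s, s1, s2⟩
  have r0 : ((r / 2 : ℝ) : ℂ) ≠ 0 := by exact_mod_cast (half_pos hr).ne'
  let c : ℝ → ℂ := fun θ => z0 + (r / 2 : ℝ) * Complex.exp (2 * θ * Complex.I)
  have cc : Continuous c := by fun_prop
  have cn : ∀ θ, c θ - z0 ≠ 0 := fun θ => by
    simp only [c, add_sub_cancel_left]; exact mul_ne_zero r0 (Complex.exp_ne_zero _)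
  have cm : ∀ θ, c θ ∈ Metric.ball z0 r ∩ {z0}ᶜ := fun θ => by
    refine ⟨?_, sub_ne_zero.1 (cn θ)⟩
    rw [Metric.mem_ball, dist_eq_norm]
    simp only [c, add_sub_cancel_left, norm_mul, Complex.norm_exp, Complex.norm_real]
    rw [Real.norm_of_nonneg (half_pos hr).le]
    simp [hr]
  let q : ℝ → ℂ := fun θ => F (c θ) / (c θ - z0) / k
  have cq : Continuous q := ((cF.comp cc).div (cc.sub continuous_const) cn).div_const k
  let b : ℝ → ℂ := fun θ => (((r / 2 : ℝ) * k) ^ 3) ^ (2⁻¹ : ℂ) *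
    Complex.exp (3 * θ * Complex.I) * (q θ * q θ ^ (2⁻¹ : ℂ))
  have cb : Continuous b := (continuous_const.mul (by fun_prop)).mul
    (cq.mul (cq.cpow continuous_const fun θ => h3 _ (cm θ)))
  have bs : ∀ θ, b θ ^ 2 = F (c θ) ^ 3 := fun θ => by
    have e : Complex.exp (3 * θ * Complex.I) ^ 2 = Complex.exp (2 * θ * Complex.I) ^ 3 := by
      rw [← Complex.exp_nat_mul, ← Complex.exp_nat_mul]; congr 1; push_cast; ring
    have e' := Complex.exp_ne_zero (2 * θ * Complex.I)
    simp only [b, mul_pow, Complex.cpow_ofNat_inv_pow, e]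
    simp only [q, c, add_sub_cancel_left]
    field_simp
  have bn : ∀ θ, b θ ≠ 0 := fun θ h => by
    have := bs θ
    rw [h] at this
    have h' : F (c θ) = 0 := pow_eq_zero_iff (n := 3) (by norm_num) |>.1 (by simpa using this.symm)
    simpa [h'] using h3 _ (cm θ)
  have e1 : c π = c 0 := by simp [c]
  have e2 : b π = -b 0 := by
    have : Complex.exp (3 * π * Complex.I) = -1 := by
      rw [show 3 * π * Complex.I = π * Complex.I + 2 * π * Complex.I by ring, Complex.exp_add]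
      simp
    simp only [b, q, e1, this]; simp
  have := isPreconnected_univ.eq_or_eq_neg_of_sq_eq (f := s ∘ c) (g := b)
    (s1.comp_continuous cc cm).continuousOn cb.continuousOn
    (fun θ _ => by simp only [Pi.pow_apply, Function.comp, bs, s2 _ (cm θ)]) fun _ => bn _
  apply bn 0
  rcases this with h | h
  all_goals
    have a := h (mem_univ π)
    have a' := h (mem_univ 0)
    simp only [Function.comp, Pi.neg_apply, e1, e2] at a a'
  · linear_combination (a - a') / 2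
  · linear_combination (a' - a) / 2

theorem mem_genuine {η F : ℂ → ℂ} {gm : ℂ → Multiset ℂ} (cη : Continuous η) (cF : Continuous F)
    {x : ℝ} (hx : |x| < 1)
    (h : ∀ r > 0, ∃ z : ℂ, ‖z - x‖ < r ∧ 0 < z.im ∧ F z = 0 ∧ deriv F z ≠ 0) :
    (x : ℂ) ∈ genuine 1 B (gP η F) gm := by
  have key : ¬ ∃ r w u, Splits 1 B (gP η F) gm x r w u := by
    rintro ⟨r, w, u, hr, h1, -, h2, -⟩
    obtain ⟨z, a, b, c, d⟩ := h (min r (1 - |x|)) (lt_min hr (by linarith))
    have hU : IsOpen (Metric.ball (x : ℂ) r ∩ side B 1) :=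
      Metric.isOpen_ball.inter (isOpen_side Metric.isOpen_ball 1)
    have hz : z ∈ Metric.ball (x : ℂ) r ∩ side B 1 := by
      refine ⟨by rw [Metric.mem_ball, dist_eq_norm]; exact a.trans_le (min_le_left _ _),
        mem_up.2 ⟨?_, b⟩⟩
      have := norm_add_le (z - x) x
      rw [sub_add_cancel, Complex.norm_real, Real.norm_eq_abs] at this
      rw [mem_ball_zero_iff]
      linarith [min_le_right r (1 - |x|)]
    obtain ⟨Ω, o1, o2, o3, o4⟩ := no_cont_sqrt cF c d (hU.mem_nhds hz)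
    have hs : ∀ᵐ y, y ∈ Metric.ball (x : ℂ) r ∩ side B 1 → (w y - η y) ^ 2 = F y ^ 3 := by
      filter_upwards [h2] with y hy hm
      rw [← zt_sq]
      have : w y ∈ gP η F y := by rw [hy hm]; exact Multiset.mem_cons_self _ _
      simp only [gP, Multiset.insert_eq_cons, Multiset.mem_cons, Multiset.mem_singleton] at this
      rcases this with e | e <;> rw [e] <;> ring
    apply o4
    rcases h1 with h1 | h1
    · have cs := h1.sub cη.continuousOn
      exact ⟨_, cs.mono o2, fun y hy => Measure.eqOn_open_of_ae_eq (μ := volume)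
        ((ae_restrict_iff' hU.measurableSet).2 hs) hU (cs.pow 2) (cF.pow 3).continuousOn (o2 hy)⟩
    · exact exists_cont_rep hU ((convex_ball _ _).inter (convex_side (convex_ball _ _) 1))
        (fun y hy => hy.2.1) h1 cη cF o1 o2 o3 hs
  exact ⟨by simpa using hx, by simp, fun ⟨r, w, u, h, _⟩ => key ⟨r, w, u, h⟩, key⟩

end Pool.Agent.Lib.MP_e2f52c_an
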