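import Pool.Agent.Lib.MP_e2f52c_an.Cfg

open MeasureTheory Set Filter Topology
open scoped ENNReal

namespace Pool.Agent.Lib.MP_e2f52c_an

def wedge (a b : ℂ) : ℝ := a.re * b.im - a.im * b.re

lemma abs_wedge_le (a b : ℂ) : |wedge a b| ≤ ‖a‖ * ‖b‖ := by
  apply abs_le_of_sq_le_sq _ (by positivity)
  rw [mul_pow, nsq, nsq, wedge]
  nlinarith [sq_nonneg (a.re * b.re + a.im * b.im)]

lemma abs_wedge_le_sub (a b : ℂ) : |wedge a b| ≤ ‖a‖ * ‖a - b‖ := by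
  have : wedge a b = -wedge a (a - b) := by simp [wedge]; ring
  rw [this, abs_neg]; exact abs_wedge_le _ _

lemma abs_wedge_le_add (a b : ℂ) : |wedge a b| ≤ ‖a‖ * ‖a + b‖ := by
  have : wedge a b = wedge a (a + b) := by simp [wedge]; ring
  rw [this]; exact abs_wedge_le _ _

/-- twice the signed area of the quadrilateral `a b c d` -/
def quad (a b c d : ℂ) : ℝ := wedge a b + wedge b c - wedge d c - wedge a d

lemma quad_eq (a b c d : ℂ) : quad a b c d = wedge (c - a) (d - b) := by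
  simp [quad, wedge]; ring

lemma abs_quad_le (a b c d : ℂ) :
    |quad a b c d| ≤ (‖a - b‖ ^ 2 + ‖b - c‖ ^ 2 + ‖d - c‖ ^ 2 + ‖a - d‖ ^ 2) / 2 := by
  rw [quad_eq]
  refine (abs_wedge_le _ _).trans ?_
  have h : ‖c - a‖ ^ 2 + ‖d - b‖ ^ 2 ≤ ‖a - b‖ ^ 2 + ‖b - c‖ ^ 2 + ‖d - c‖ ^ 2 + ‖a - d‖ ^ 2 := by
    simp only [nsq, Complex.sub_re, Complex.sub_im]
    nlinarith [sq_nonneg (a.re - b.re + c.re - d.re), sq_nonneg (a.im - b.im + c.im - d.im)]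
  nlinarith [sq_nonneg (‖c - a‖ - ‖d - b‖)]

lemma twisted (a b c d : ℂ) {L : ℝ} (hL : L = ‖a - b‖ + ‖b - c‖ + ‖d + c‖ + ‖a - d‖) :
    (‖a‖ ≤ L / 2 ∧ ‖b‖ ≤ L / 2 ∧ ‖c‖ ≤ L / 2 ∧ ‖d‖ ≤ L / 2) ∧
      |wedge a b + wedge b c + wedge d c - wedge a d| ≤ L ^ 2 / 2 := by
  have key : ∀ x p q r s : ℂ, 2 * x = p + q + r + s → ‖x‖ ≤ (‖p‖ + ‖q‖ + ‖r‖ + ‖s‖) / 2 := by
    intro x p q r s h
    have h1 : ‖2 * x‖ ≤ ‖p‖ + ‖q‖ + ‖r‖ + ‖s‖ := by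
      rw [h]; exact norm_add₄_le
    rw [norm_mul, Complex.norm_ofNat] at h1
    linarith
  have ha := key a (a - b) (b - c) (d + c) (a - d) (by ring)
  have hb := key b (b - a) (b - c) (d + c) (a - d) (by ring)
  have hc := key c (b - a) (c - b) (d + c) (a - d) (by ring)
  have hd := key d (a - b) (b - c) (d + c) (d - a) (by ring)
  rw [norm_sub_rev b a] at hb hc
  rw [norm_sub_rev c b] at hc
  rw [norm_sub_rev d a] at hd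
  rw [← hL] at ha hb hc hd
  refine ⟨⟨ha, hb, hc, hd⟩, ?_⟩
  have h1 := (abs_wedge_le_sub a b).trans (mul_le_mul_of_nonneg_right ha (norm_nonneg _))
  have h2 := (abs_wedge_le_sub b c).trans (mul_le_mul_of_nonneg_right hb (norm_nonneg _))
  have h3 := (abs_wedge_le_add d c).trans (mul_le_mul_of_nonneg_right hd (norm_nonneg _))
  have h4 := (abs_wedge_le_sub a d).trans (mul_le_mul_of_nonneg_right ha (norm_nonneg _))
  have e : L ^ 2 / 2 = L / 2 * ‖a - b‖ + L / 2 * ‖b - c‖ + L / 2 * ‖d + c‖ + L / 2 * ‖a - d‖ := by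
    rw [sq]; nth_rewrite 2 [hL]; ring
  rw [abs_le] at h1 h2 h3 h4 ⊢
  constructor <;> linarith [h1.1, h1.2, h2.1, h2.2, h3.1, h3.2, h4.1, h4.2]

lemma quad_sign (a b c d : ℂ) {s0 s1 s2 s3 : ℝ} (h0 : s0 = 1 ∨ s0 = -1) (h1 : s1 = 1 ∨ s1 = -1)
    (h2 : s2 = 1 ∨ s2 = -1) (h3 : s3 = 1 ∨ s3 = -1) {l0 l1 l2 l3 X : ℝ} (e0 : l0 = ‖a - s0 * b‖)
    (e1 : l1 = ‖b - s1 * c‖) (e2 : l2 = ‖d - s2 * c‖) (e3 : l3 = ‖a - s3 * d‖)
    (hX : X = s0 * wedge a b + s1 * wedge b c - s2 * wedge d c - s3 * wedge a d) :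
    |X| ≤ (l0 ^ 2 + l1 ^ 2 + l2 ^ 2 + l3 ^ 2) / 2 ∨
      ((‖a‖ ≤ (l0 + l1 + l2 + l3) / 2 ∧ ‖b‖ ≤ (l0 + l1 + l2 + l3) / 2 ∧
        ‖c‖ ≤ (l0 + l1 + l2 + l3) / 2 ∧ ‖d‖ ≤ (l0 + l1 + l2 + l3) / 2) ∧
        |X| ≤ (l0 + l1 + l2 + l3) ^ 2 / 2) := by
  have n : ∀ {s : ℝ}, (s = 1 ∨ s = -1) → ∀ x : ℂ, ‖(s : ℂ) * x‖ = ‖x‖ := by
    rintro s (rfl | rfl) x <;> simp
  have q : ∀ {s : ℝ}, (s = 1 ∨ s = -1) → (s : ℂ) * s = 1 := by
    rintro s (rfl | rfl) <;> simp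
  have f1 : l1 = ‖s0 * b - s0 * (s1 * c)‖ := by rw [← mul_sub, n h0, e1]
  have hs : s0 * s1 * s2 * s3 = 1 ∨ s0 * s1 * s2 * s3 = -1 := by
    rcases h0 with rfl | rfl <;> rcases h1 with rfl | rfl <;> rcases h2 with rfl | rfl <;>
      rcases h3 with rfl | rfl <;> norm_num
  have f2 : l2 = ‖s3 * d - ((s0 * s1 * s2 * s3 : ℝ) : ℂ) * (s0 * (s1 * c))‖ := by
    rw [e2, ← n h3]
    congr 1
    push_cast
    linear_combination (s1 * s1 * s2 * s3 * c : ℂ) * q h0 + (s2 * s3 * c : ℂ) * q h1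
  have fX : X = wedge a (s0 * b) + wedge (s0 * b) (s0 * (s1 * c)) -
      (s0 * s1 * s2 * s3) * wedge (s3 * d) (s0 * (s1 * c)) - wedge a (s3 * d) := by
    rw [hX]
    rcases h0 with rfl | rfl <;> rcases h1 with rfl | rfl <;>
      rcases h3 with rfl | rfl <;> simp [wedge] <;> ring
  rcases hs with hs | hs
  · left
    rw [hs] at f2 fX
    have := abs_quad_le a (s0 * b) (s0 * (s1 * c)) (s3 * d)
    rw [fX, e0, f1, f2, e3]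
    simpa [quad] using this
  · right
    rw [hs] at f2 fX
    have := twisted a (s0 * b) (s0 * (s1 * c)) (s3 * d) (L := l0 + l1 + l2 + l3) (by
      rw [e0, f1, f2, e3]; simp)
    rw [n h0, n h0, n h1, n h3] at this
    refine ⟨this.1, ?_⟩
    rw [fX]
    simpa using this.2

noncomputable def om (η ξ : ℂ → ℂ) (z w : ℂ) : ℝ :=
  wedge (η z) (η w) + sg ξ z w * wedge (ξ z) (ξ w)

/-- discrete area of the image of the square with vertices `z0 z1 z2 z3` -/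
noncomputable def ar (η ξ : ℂ → ℂ) (z0 z1 z2 z3 : ℂ) : ℝ :=
  om η ξ z0 z1 + om η ξ z1 z2 - om η ξ z3 z2 - om η ξ z0 z3

noncomputable def ell (ξ : ℂ → ℂ) (z w : ℂ) : ℝ := ‖ξ z - sg ξ z w * ξ w‖

lemma sg_cases (ξ : ℂ → ℂ) (z w : ℂ) : sg ξ z w = 1 ∨ sg ξ z w = -1 := by
  unfold sg; split_ifs
  · left; rfl
  · exact sgn_cases _ _

lemma len_nonneg (η ξ : ℂ → ℂ) (z w : ℂ) : 0 ≤ len η ξ z w := Real.sqrt_nonneg _

lemma len_sq (η ξ : ℂ → ℂ) (z w : ℂ) :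
    len η ξ z w ^ 2 = 2 * ‖η z - η w‖ ^ 2 + 2 * ell ξ z w ^ 2 :=
  Real.sq_sqrt (by positivity)

lemma ell_le_len (η ξ : ℂ → ℂ) (z w : ℂ) : ell ξ z w ≤ len η ξ z w := by
  apply (abs_le_of_sq_le_sq' _ (len_nonneg ..)).2
  rw [len_sq]; nlinarith [sq_nonneg ‖η z - η w‖, sq_nonneg (ell ξ z w)]

lemma ar_cases (η ξ : ℂ → ℂ) (z0 z1 z2 z3 : ℂ) {n : ℝ}
    (hn : n = len η ξ z0 z1 + len η ξ z1 z2 + len η ξ z3 z2 + len η ξ z0 z3) {S : ℝ}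
    (hS : S = len η ξ z0 z1 ^ 2 + len η ξ z1 z2 ^ 2 + len η ξ z3 z2 ^ 2 + len η ξ z0 z3 ^ 2) :
    |ar η ξ z0 z1 z2 z3| ≤ 2 * S ∧ (ar η ξ z0 z1 z2 z3 ≤ S / 4 ∨
      ((‖ξ z0‖ ≤ n ∧ ‖ξ z1‖ ≤ n ∧ ‖ξ z3‖ ≤ n) ∧ ar η ξ z0 z1 z2 z3 ≤ S / 4 +
        2 * (ell ξ z0 z1 ^ 2 + ell ξ z1 z2 ^ 2 + ell ξ z3 z2 ^ 2 + ell ξ z0 z3 ^ 2))) := by
  have hq := abs_quad_le (η z0) (η z1) (η z2) (η z3)
  have hx := quad_sign (ξ z0) (ξ z1) (ξ z2) (ξ z3) (sg_cases ξ z0 z1) (sg_cases ξ z1 z2)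
    (sg_cases ξ z3 z2) (sg_cases ξ z0 z3) (l0 := ell ξ z0 z1) (l1 := ell ξ z1 z2)
    (l2 := ell ξ z3 z2) (l3 := ell ξ z0 z3) rfl rfl rfl rfl rfl
  have e : ar η ξ z0 z1 z2 z3 = quad (η z0) (η z1) (η z2) (η z3) +
      (sg ξ z0 z1 * wedge (ξ z0) (ξ z1) + sg ξ z1 z2 * wedge (ξ z1) (ξ z2) -
        sg ξ z3 z2 * wedge (ξ z3) (ξ z2) - sg ξ z0 z3 * wedge (ξ z0) (ξ z3)) := by
    simp only [ar, om, quad]; ring
  rw [e]
  simp only [len_sq] at hS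
  have a0 := ell_le_len η ξ z0 z1
  have a1 := ell_le_len η ξ z1 z2
  have a2 := ell_le_len η ξ z3 z2
  have a3 := ell_le_len η ξ z0 z3
  have b0 := len_nonneg η ξ z0 z1
  have b1 := len_nonneg η ξ z1 z2
  have b2 := len_nonneg η ξ z3 z2
  have b3 := len_nonneg η ξ z0 z3
  generalize ell ξ z0 z1 = l0 at *
  generalize ell ξ z1 z2 = l1 at *
  generalize ell ξ z3 z2 = l2 at *
  generalize ell ξ z0 z3 = l3 at *
  have cs : (l0 + l1 + l2 + l3) ^ 2 ≤ 4 * (l0 ^ 2 + l1 ^ 2 + l2 ^ 2 + l3 ^ 2) := by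
    nlinarith [sq_nonneg (l0 - l1), sq_nonneg (l0 - l2), sq_nonneg (l0 - l3), sq_nonneg (l1 - l2),
      sq_nonneg (l1 - l3), sq_nonneg (l2 - l3)]
  have p0 := sq_nonneg ‖η z0 - η z1‖
  have p1 := sq_nonneg ‖η z1 - η z2‖
  have p2 := sq_nonneg ‖η z3 - η z2‖
  have p3 := sq_nonneg ‖η z0 - η z3‖
  have q0 := sq_nonneg l0
  have q1 := sq_nonneg l1
  have q2 := sq_nonneg l2
  have q3 := sq_nonneg l3
  rw [abs_le] at hq
  rcases hx with hx | ⟨⟨c0, c1, _, c3⟩, hx⟩ <;> rw [abs_le] at hx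
  · exact ⟨abs_le.2 ⟨by linarith [hq.1, hx.1], by linarith [hq.2, hx.2]⟩,
      Or.inl (by linarith [hq.2, hx.2])⟩
  · exact ⟨abs_le.2 ⟨by linarith [hq.1, hx.1], by linarith [hq.2, hx.2]⟩,
      Or.inr ⟨⟨by linarith, by linarith, by linarith⟩, by linarith [hq.2, hx.2]⟩⟩

lemma ar_lower (η ξ : ℂ → ℂ) {z0 z1 z2 z3 : ℂ} (h0 : z0.im < 0) (h1 : z1.im < 0) (h2 : z2.im < 0)
    (h3 : z3.im < 0) (e1 : η z3 - ξ z3 = η z0 - ξ z0) (e2 : η z2 - ξ z2 = η z1 - ξ z1) :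
    ar η ξ z0 z1 z2 z3 =
      quad (η z0 + ξ z0) (η z1 + ξ z1) (η z2 + ξ z2) (η z3 + ξ z3) / 2 := by
  have f1 : η z3 = η z0 - ξ z0 + ξ z3 := by linear_combination e1
  have f2 : η z2 = η z1 - ξ z1 + ξ z2 := by linear_combination e2
  simp only [ar, om, sg, h0, h1, h2, h3, and_self, if_true, quad, f1, f2, wedge, Complex.add_re,
    Complex.add_im, Complex.sub_re, Complex.sub_im]
  ring

lemma len_lower (η ξ : ℂ → ℂ) {z w : ℂ} (h0 : z.im < 0) (h1 : w.im < 0) :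
    len η ξ z w ^ 2 = ‖(η z + ξ z) - (η w + ξ w)‖ ^ 2 + ‖(η z - ξ z) - (η w - ξ w)‖ ^ 2 := by
  rw [len_sq, ell, sg, if_pos ⟨h0, h1⟩]
  simp only [nsq]; simp; ring

lemma sq_lintegral_Ioc_le {f : ℝ → ℝ≥0∞} (hf : Measurable f) (h : ℝ) :
    (∫⁻ t in Ioc 0 h, f t) ^ 2 ≤ ENNReal.ofReal h * ∫⁻ t in Ioc 0 h, f t ^ 2 := by
  have := ENNReal.lintegral_mul_le_Lp_mul_Lq (volume.restrict (Ioc 0 h)) Real.HolderConjugate.two_two
    (f := f) (g := fun _ => 1) hf.aemeasurable aemeasurable_const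
  simp only [Pi.mul_apply, mul_one, ENNReal.one_rpow, lintegral_const, one_mul,
    Measure.restrict_apply MeasurableSet.univ, univ_inter, Real.volume_Ioc, sub_zero,
    ENNReal.rpow_two] at this
  refine (pow_le_pow_left' this 2).trans (le_of_eq ?_)
  rw [mul_pow, ← ENNReal.rpow_two, ← ENNReal.rpow_two, ← ENNReal.rpow_mul, ← ENNReal.rpow_mul]
  simp [mul_comm]

lemma measurable_M {Φ : ℂ → ℝ≥0∞} (hΦ : Measurable Φ) (e : ℂ) (h : ℝ) : Measurable (M Φ e h) :=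
  Measurable.lintegral_prod_right' (f := fun p : ℂ × ℝ => Φ (p.1 + p.2 * e))
    (hΦ.comp (by fun_prop))

lemma lintegral_M_sq {Φ : ℂ → ℝ≥0∞} (hΦ : Measurable Φ) {A : Set ℂ} {c : ℝ≥0∞}
    (hc : ∀ s : ℂ, ∫⁻ z in A, Φ (z + s) ^ 2 ≤ c) (e s : ℂ) (h : ℝ) :
    ∫⁻ z in A, M Φ e h (z + s) ^ 2 ≤ ENNReal.ofReal h ^ 2 * c := by
  have hm : Measurable fun p : ℂ × ℝ => Φ (p.1 + s + p.2 * e) ^ 2 :=
    (hΦ.comp (by fun_prop)).pow_const 2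
  calc ∫⁻ z in A, M Φ e h (z + s) ^ 2
      ≤ ∫⁻ z in A, ENNReal.ofReal h * ∫⁻ t in Ioc 0 h, Φ (z + s + t * e) ^ 2 :=
        lintegral_mono fun z => sq_lintegral_Ioc_le (hΦ.comp (by fun_prop)) h
    _ = ENNReal.ofReal h * ∫⁻ t in Ioc 0 h, ∫⁻ z in A, Φ (z + s + t * e) ^ 2 := by
        rw [lintegral_const_mul _ (Measurable.lintegral_prod_right' hm),
          lintegral_lintegral_swap hm.aemeasurable]
    _ ≤ ENNReal.ofReal h * ∫⁻ t in Ioc 0 h, c := by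
        gcongr with t
        simpa only [add_assoc] using hc (s + t * e)
    _ = ENNReal.ofReal h ^ 2 * c := by simp [sq]; ring

lemma lintegral_M_sq_le {Φ : ℂ → ℝ≥0∞} (hΦ : Measurable Φ) (A : Set ℂ) (e s : ℂ) (h : ℝ) :
    ∫⁻ z in A, M Φ e h (z + s) ^ 2 ≤ ENNReal.ofReal h ^ 2 * ∫⁻ z, Φ z ^ 2 :=
  lintegral_M_sq hΦ (fun s => (setLIntegral_le_lintegral _ _).trans
    (lintegral_add_right_eq_self (fun z => Φ z ^ 2) s).le) e s h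

lemma lintegral_M_sq_small {Φ : ℂ → ℝ≥0∞} (hΦ : Measurable Φ) (hi : ∫⁻ z, Φ z ^ 2 ≠ ∞)
    {ε : ℝ≥0∞} (hε : ε ≠ 0) : ∃ δ > 0, ∀ A : Set ℂ, volume A < δ → ∀ e s h,
      ∫⁻ z in A, M Φ e h (z + s) ^ 2 ≤ ENNReal.ofReal h ^ 2 * ε := by
  obtain ⟨δ, hδ, H⟩ := exists_pos_setLIntegral_lt_of_measure_lt hi hε
  refine ⟨δ, hδ, fun A hA => lintegral_M_sq hΦ fun s => ?_⟩
  have := (measurePreserving_add_right volume s).setLIntegral_comp_preimage_emb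
    (measurableEmbedding_addRight s) (fun z => Φ z ^ 2) ((fun z => z + (-s)) ⁻¹' A)
  have e : (fun z => z + s) ⁻¹' ((fun z => z + (-s)) ⁻¹' A) = A := by ext; simp
  rw [e] at this
  rw [this]
  exact (H _ (by rwa [measure_preimage_add_right])).le

end Pool.Agent.Lib.MP_e2f52c_an
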