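import Pool.Agent.Lib.MP_e2f52c_an.Minimal

open MeasureTheory Set Filter Topology
open scoped ENNReal

namespace Pool.Agent.Lib.MP_e2f52c_an

lemma Test.fderiv_zero {U : Set ℂ} {ψ : ℂ → ℝ} (h : Test U ψ) {z : ℂ} (hz : z ∉ U) (e : ℂ) :
    fderiv ℝ ψ z e = 0 := by
  rw [fderiv_of_notMem_tsupport ℝ fun h' => hz (h.2.2 h')]; rfl

lemma line_parts {u χ : ℂ → ℝ} {U : Set ℂ} (hχ : Test U χ) (z e : ℂ) {a b K : ℝ}
    (hu : ∀ s ∈ uIcc a b, ∀ t ∈ uIcc a b, |u (z + s * e) - u (z + t * e)| ≤ K * |s - t|) :
    ∫ t in a..b, (u (z + t * e) * fderiv ℝ χ (z + t * e) e +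
      lineDeriv ℝ u (z + t * e) e * χ (z + t * e)) =
      u (z + b * e) * χ (z + b * e) - u (z + a * e) * χ (z + a * e) := by
  have h1 : AbsolutelyContinuousOnInterval (fun t : ℝ => u (z + t * e)) a b := by
    apply LipschitzOnWith.absolutelyContinuousOnInterval (K := K.toNNReal)
    refine LipschitzOnWith.of_dist_le' fun s hs t ht => ?_
    exact hu s hs t ht
  have hl : ContDiff ℝ 1 fun t : ℝ => z + t * e :=
    contDiff_const.add (Complex.ofRealCLM.contDiff.mul contDiff_const)
  have h2 : AbsolutelyContinuousOnInterval (fun t : ℝ => χ (z + t * e)) a b :=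
    ((hχ.1.of_le (by simp)).comp hl).contDiffOn.absolutelyContinuousOnInterval
  rw [← h1.integral_deriv_mul_eq_sub h2]
  refine intervalIntegral.integral_congr fun t _ => ?_
  have e1 : deriv (fun t : ℝ => u (z + t * e)) t = lineDeriv ℝ u (z + t * e) e := by
    have := deriv_comp_const_add (fun t : ℝ => u (z + t * e)) t 0
    rw [add_zero] at this
    rw [← this, lineDeriv]
    congr 1; funext s; congr 1
    rw [Complex.real_smul]; push_cast; ring
  have e2 : deriv (fun t : ℝ => χ (z + t * e)) t = fderiv ℝ χ (z + t * e) e := by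
    have hl : HasDerivAt (fun s : ℝ => z + s * e) e t := by
      simpa using ((Complex.ofRealCLM.hasDerivAt (x := t)).mul_const e).const_add z
    exact ((hχ.1.differentiable (by simp) _).hasFDerivAt.comp_hasDerivAt t hl).deriv
  simp only [e1, e2]; ring

lemma abs_lineDeriv_le {u : ℂ → ℝ} {z e : ℂ} {p : ℝ}
    (h : ∀ c, p < c → ∀ᶠ t : ℝ in 𝓝[≠] 0, |u (z + t * e) - u z| ≤ c * |t|) :
    |lineDeriv ℝ u z e| ≤ p := by
  refine le_of_forall_gt_imp_ge_of_dense fun c hc => ?_
  by_cases hd : DifferentiableAt ℝ (fun t : ℝ => u (z + t • e)) 0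
  · have h1 := (hasDerivAt_iff_tendsto_slope.1 hd.hasDerivAt).abs
    refine le_of_tendsto h1 ?_
    filter_upwards [h c hc, self_mem_nhdsWithin] with t ht h0
    have h0' : 0 < |t| := abs_pos.2 h0
    rw [slope_def_field, abs_div, sub_zero, div_le_iff₀ h0']
    simpa using ht
  · rw [lineDeriv, deriv_zero_of_not_differentiableAt hd, abs_zero]
    obtain ⟨t, ht, h0⟩ := ((h c hc).and self_mem_nhdsWithin).exists
    have h0' : 0 < |t| := abs_pos.2 h0
    exact nonneg_of_mul_nonneg_left ((abs_nonneg _).trans ht) h0'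

lemma notMem_B_of_im {x y : ℝ} (h : 1 ≤ |y|) : (x : ℂ) + y * Complex.I ∉ B := fun h' => by
  simp only [Metric.mem_ball, dist_zero_right] at h'
  have := (Complex.abs_im_le_norm _).trans_lt h'
  simp at this; linarith

lemma notMem_B_of_re {x y : ℝ} (h : 1 ≤ |x|) : (x : ℂ) + y * Complex.I ∉ B := fun h' => by
  simp only [Metric.mem_ball, dist_zero_right] at h'
  have := (Complex.abs_re_le_norm _).trans_lt h'
  simp at this; linarith

theorem sheet {k : ℕ} (hk : Good k) {σ : ℝ} (hσ : σ = 1 ∨ σ = -1) {f : ℂ → Multiset ℂ}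
    (hf : ∀ z, (f z).card = k) (H1 : ∀ T : Multiset ℂ, T.card = k → Continuous fun z => G (f z) T)
    (H2 : ∀ᵐ y : ℝ, 0 < σ * y → |y| < 1 → ∃ K, ∀ s ∈ uIcc (-2 : ℝ) 2, ∀ t ∈ uIcc (-2 : ℝ) 2,
      G (f (y * Complex.I + s * 1)) (f (y * Complex.I + t * 1)) ≤ K * |s - t|)
    (H3 : ∀ᵐ x : ℝ, ∃ K, ∀ s ∈ uIcc 0 σ, ∀ t ∈ uIcc 0 σ,
      G (f (x + s * Complex.I)) (f (x + t * Complex.I)) ≤ K * |s - t|)
    {ψ : ℂ → ℝ} (H4 : MemLp ψ 2 (volume.restrict (side B σ)))
    (H5 : ∀ᵐ z, z ∈ side B σ → ∀ e : ℂ, ‖e‖ = 1 → ∀ c, ψ z < c →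
      ∀ᶠ t : ℝ in 𝓝[≠] 0, G (f (z + t * e)) (f z) ≤ c * |t|) :
    IsBound k (side B σ) f (fun _ => ψ) ∧ HasTrace k B σ f (fun x => f x) := by
  have hS := isOpen_side (Metric.isOpen_ball : IsOpen B) σ
  have hγ := isOpen_seg (Metric.isOpen_ball : IsOpen B)
  have : IsFiniteMeasure (volume.restrict (side B σ)) :=
    isFiniteMeasure_restrict.2 ((measure_mono fun z hz => hz.1).trans_lt measure_ball_lt_top).ne
  have main : ∀ T : Multiset ℂ, T.card = k → ∀ u : ℂ → ℝ, u = (fun z => G (f z) T) →
      MemLp u 2 (volume.restrict (side B σ)) ∧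
      (∀ e : ℂ, ‖e‖ = 1 → MemLp (fun z => lineDeriv ℝ u z e) 2 (volume.restrict (side B σ)) ∧
        ∀ᵐ z ∂(volume.restrict (side B σ)), |lineDeriv ℝ u z e| ≤ ψ z) ∧
      IsWeakDeriv (side B σ) 1 u (fun z => lineDeriv ℝ u z 1) ∧
      MemLp (fun x : ℝ => u x) 2 (volume.restrict (seg B)) ∧
      ∀ χ, Test B χ → ∫ z in side B σ, (u z * fderiv ℝ χ z Complex.I +
        lineDeriv ℝ u z Complex.I * χ z) = -σ * ∫ x in seg B, u x * χ x := by
    intro T hT u hu
    have cu : Continuous u := hu ▸ H1 T hT
    have lip : ∀ z w, |u z - u w| ≤ G (f z) (f w) := fun z w =>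
      hu ▸ hk.abs_sub_le (hf z) (hf w) hT
    obtain ⟨C, hC⟩ := (isCompact_closedBall (0 : ℂ) 1).exists_bound_of_continuousOn cu.continuousOn
    have m1 : MemLp u 2 (volume.restrict (side B σ)) :=
      MemLp.of_bound cu.aestronglyMeasurable C ((ae_restrict_iff' hS.measurableSet).2
        (Eventually.of_forall fun z hz => hC z (Metric.ball_subset_closedBall hz.1)))
    have m2 : ∀ e : ℂ, ‖e‖ = 1 → MemLp (fun z => lineDeriv ℝ u z e) 2 (volume.restrict (side B σ)) ∧
        ∀ᵐ z ∂(volume.restrict (side B σ)), |lineDeriv ℝ u z e| ≤ ψ z := fun e he => by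
      have b : ∀ᵐ z ∂(volume.restrict (side B σ)), |lineDeriv ℝ u z e| ≤ ψ z := by
        filter_upwards [(ae_restrict_iff' hS.measurableSet).2 H5] with z hz
        exact abs_lineDeriv_le fun c hc => (hz e he c hc).mono fun t ht => (lip _ _).trans ht
      exact ⟨H4.of_le (measurable_lineDeriv cu).aestronglyMeasurable
        (b.mono fun z hz => hz.trans (le_abs_self _)), b⟩
    have iu := integrableOn_of_memLp (fun z hz => hz.1) m1
    have iv := fun e he => integrableOn_of_memLp (fun z hz => hz.1) (m2 e he).1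
    have iF : ∀ {U χ} e, ‖e‖ = 1 → Test U χ → Integrable ((side B σ).indicator
        fun z => u z * fderiv ℝ χ z e + lineDeriv ℝ u z e * χ z) := fun e he hχ =>
      ((integrableOn_mul_test iu (hχ.fderiv_cont _) (hχ.fderiv_supp _)).add
        (integrableOn_mul_test (iv e he) hχ.1.continuous hχ.2.1)).integrable_indicator
          hS.measurableSet
    refine ⟨m1, m2, fun χ hχ => ?_, ?_, fun χ hχ => ?_⟩
    · rw [eq_neg_iff_add_eq_zero, ← integral_add
        (integrableOn_mul_test iu (hχ.fderiv_cont _) (hχ.fderiv_supp _))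
        (integrableOn_mul_test (iv 1 (by simp)) hχ.1.continuous hχ.2.1),
        ← integral_indicator hS.measurableSet, integral_imre (iF 1 (by simp) hχ)]
      refine integral_eq_zero_of_ae ?_
      filter_upwards [H2] with y hy
      have z0 : ∀ z ∉ side B σ, u z * fderiv ℝ χ z 1 + lineDeriv ℝ u z 1 * χ z = 0 :=
        fun z hz => by rw [hχ.zero hz, hχ.fderiv_zero hz]; simp
      rw [indicator_eq_self.2 (fun z hz => by by_contra h; exact hz (z0 z h))]
      by_cases c : 0 < σ * y ∧ |y| < 1
      · obtain ⟨K, hK⟩ := hy c.1 c.2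
        have := line_parts hχ (y * Complex.I) 1 fun s hs t ht => (lip _ _).trans (hK s hs t ht)
        simp only [mul_one, add_comm ((y : ℂ) * Complex.I)] at this
        rw [hχ.zero (fun h => notMem_B_of_re (by simp) h.1),
          hχ.zero (fun h => notMem_B_of_re (by simp) h.1), mul_zero, mul_zero, sub_zero,
          intervalIntegral.integral_of_le (by norm_num),
          setIntegral_eq_integral_of_forall_compl_eq_zero (fun x hx => z0 _ fun h =>
            notMem_B_of_re (by
              rw [mem_Ioc, not_and_or, not_lt, not_le] at hx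
              rcases hx with hx | hx <;> rw [le_abs] <;> [right; left] <;> linarith) h.1)] at this
        exact this
      · refine integral_eq_zero_of_ae (Eventually.of_forall fun x => z0 _ fun h => c ⟨?_, ?_⟩)
        · simpa using h.2
        · by_contra h'; exact notMem_B_of_im (not_lt.1 h') h.1
    · have : IsFiniteMeasure (volume.restrict (seg B)) := by
        refine isFiniteMeasure_restrict.2 ((measure_mono (t := Icc (-1) 1) fun x hx => ?_).trans_lt
          measure_Icc_lt_top).ne
        simp [seg] at hx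
        exact abs_le.1 hx.le
      exact MemLp.of_bound (cu.comp Complex.continuous_ofReal).aestronglyMeasurable C
        ((ae_restrict_iff' hγ.measurableSet).2
          (Eventually.of_forall fun x hx => hC x (Metric.ball_subset_closedBall hx)))
    · rw [← integral_indicator hS.measurableSet, integral_reim (iF _ (by simp) hχ),
        setIntegral_eq_integral_of_forall_compl_eq_zero (fun x hx => by
          rw [hχ.zero hx, mul_zero]), ← integral_const_mul]
      refine integral_congr_ae ?_
      filter_upwards [H3] with x ⟨K, hK⟩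
      have := line_parts hχ x Complex.I fun s hs t ht => (lip _ _).trans (hK s hs t ht)
      rw [hχ.zero (notMem_B_of_im (by rcases hσ with rfl | rfl <;> simp))] at this
      simp only [mul_zero, Complex.ofReal_zero, zero_mul, add_zero, zero_sub] at this
      have z0 : ∀ z ∉ B, u z * fderiv ℝ χ z Complex.I + lineDeriv ℝ u z Complex.I * χ z = 0 :=
        fun z hz => by rw [hχ.zero hz, hχ.fderiv_zero hz]; simp
      have e : ∀ y : ℝ, (side B σ).indicator (fun z => u z * fderiv ℝ χ z Complex.I +
          lineDeriv ℝ u z Complex.I * χ z) (x + y * Complex.I) =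
          (Ioo (min 0 σ) (max 0 σ)).indicator (fun y : ℝ => u (x + y * Complex.I) *
            fderiv ℝ χ (x + y * Complex.I) Complex.I + lineDeriv ℝ u (x + y * Complex.I)
              Complex.I * χ (x + y * Complex.I)) y := fun y => by
        by_cases h1 : (x : ℂ) + y * Complex.I ∈ B
        · have h2 : |y| < 1 := by by_contra h'; exact notMem_B_of_im (not_lt.1 h') h1
          rw [abs_lt] at h2
          by_cases h3 : 0 < σ * y
          · rw [indicator_of_mem (show _ ∈ side B σ from ⟨h1, by simpa using h3⟩),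
              indicator_of_mem (by
                rcases hσ with rfl | rfl <;> simp at h3 ⊢ <;> constructor <;> linarith)]
          · rw [indicator_of_notMem (fun h => h3 (by simpa using h.2)),
              indicator_of_notMem (fun h => h3 (by
                rcases hσ with rfl | rfl <;> simp at h ⊢ <;> linarith))]
        · rw [indicator_of_notMem (fun h => h1 h.1)]
          by_cases hy : y ∈ Ioo (min 0 σ) (max 0 σ)
          · rw [indicator_of_mem hy]; exact (z0 _ h1).symm
          · rw [indicator_of_notMem hy]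
      simp only [e]
      rw [integral_indicator measurableSet_Ioo, ← integral_Ioc_eq_integral_Ioo]
      rcases hσ with rfl | rfl
      · rw [min_eq_left zero_le_one, max_eq_right zero_le_one,
          ← intervalIntegral.integral_of_le zero_le_one, this]; ring
      · rw [min_eq_right (by norm_num), max_eq_left (by norm_num),
          ← intervalIntegral.integral_of_le (by norm_num), intervalIntegral.integral_symm, this]
        ring
  refine ⟨⟨fun _ => H4, fun T hT => ?_⟩, fun x _ => hf x, fun T hT => ?_⟩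
  · obtain ⟨m1, m2, m3, -, m5⟩ := main T hT _ rfl
    refine ⟨m1, fun j => ?_⟩
    fin_cases j
    · exact ⟨_, (m2 1 (by simp)).1, m3, (m2 1 (by simp)).2⟩
    · refine ⟨_, (m2 Complex.I (by simp)).1, fun χ hχ => ?_, (m2 Complex.I (by simp)).2⟩
      have h1 := m5 χ (hχ.mono fun z hz => hz.1)
      rw [integral_add (integrableOn_mul_test (integrableOn_of_memLp (fun z hz => hz.1) m1)
        (hχ.fderiv_cont _) (hχ.fderiv_supp _)) (integrableOn_mul_test (integrableOn_of_memLp
          (fun z hz => hz.1) (m2 Complex.I (by simp)).1) hχ.1.continuous hχ.2.1)] at h1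
      have h2 : ∀ x : ℝ, χ x = 0 := fun x => hχ.zero fun h => by simpa using h.2
      simp only [h2, mul_zero, integral_zero] at h1
      exact eq_neg_of_add_eq_zero_left h1
  · obtain ⟨-, m2, -, m4, m5⟩ := main T hT _ rfl
    exact ⟨m4, _, (m2 Complex.I (by simp)).1, m5⟩

end Pool.Agent.Lib.MP_e2f52c_an
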