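import Pool.Agent.Lib.MP_e2f52c_an.Metric

open MeasureTheory Set Filter Topology
open scoped ENNReal ContDiff

namespace Pool.Agent.Lib.MP_e2f52c_an

lemma shear_mp (e : ℂ) (ν : Measure ℝ) [SFinite ν] :
    MeasurePreserving (fun p : ℝ × ℂ => (p.1, p.2 + p.1 * e)) (ν.prod volume) (ν.prod volume) :=
  MeasurePreserving.skew_product (f := id) (g := fun (t : ℝ) (z : ℂ) => z + t * e)
    (MeasurePreserving.id ν) (by fun_prop)
    (Eventually.of_forall fun t => map_add_right_eq_self volume _)

lemma ae_shift {p : ℂ → Prop} (hp : ∀ᵐ z, p z) (e : ℂ) :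
    ∀ᵐ z : ℂ, ∀ᵐ t : ℝ, p (z + t * e) := by
  have h1 : ∀ᵐ q : ℝ × ℂ ∂(volume.prod volume), p q.2 :=
    Measure.quasiMeasurePreserving_snd.ae hp
  have h2 := (shear_mp e volume).quasiMeasurePreserving.ae h1
  have h3 := (Measure.measurePreserving_swap (μ := (volume : Measure ℂ))
    (ν := (volume : Measure ℝ))).quasiMeasurePreserving.ae h2
  exact Measure.ae_ae_of_ae_prod h3

lemma ae_add {p : ℂ → Prop} (hp : ∀ᵐ z, p z) (s : ℂ) : ∀ᵐ z : ℂ, p (z + s) :=
  (measurePreserving_add_right volume s).quasiMeasurePreserving.ae hp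

lemma integrable_shear {v : ℂ → ℝ} (hv : Integrable v) (e : ℂ) (h : ℝ) :
    Integrable (fun p : ℝ × ℂ => v (p.2 + p.1 * e))
      ((volume.restrict (Ioc 0 h)).prod volume) := by
  have h1 : Integrable (fun p : ℝ × ℂ => v p.2) ((volume.restrict (Ioc (0 : ℝ) h)).prod volume) :=
    hv.comp_snd _
  exact (shear_mp e _).integrable_comp_of_integrable h1

/-- integral along the segment from `z` to `z + h e` -/
noncomputable def segInt (χ : ℂ → ℝ) (e : ℂ) (h : ℝ) (z : ℂ) : ℝ :=
  ∫ t in Ioc 0 h, χ (z + t * e)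

lemma integrable_segInt {v : ℂ → ℝ} (hv : Integrable v) (e : ℂ) (h : ℝ) :
    Integrable (segInt v e h) :=
  (integrable_shear hv e h).integral_prod_right

lemma segInt_contDiff {χ : ℂ → ℝ} (hχ : ContDiff ℝ ∞ χ) (e : ℂ) (h : ℝ) :
    ContDiff ℝ ∞ (segInt χ e h) := by
  let κ : ContDiffBump (0 : ℝ) := ⟨|h| + 1, |h| + 2, by positivity, by linarith⟩
  have key := contDiffOn_convolution_right_with_param_comp (𝕜 := ℝ) (n := ⊤)
    (μ := volume.restrict (Ioc 0 h)) (ContinuousLinearMap.mul ℝ ℝ) (s := (univ : Set ℂ))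
    (v := fun _ => (0 : ℝ)) contDiffOn_const (f := fun _ => (1 : ℝ))
    (g := fun p s => κ s * χ (p - s * e)) (k := Metric.closedBall 0 (|h| + 2)) isOpen_univ
    (isCompact_closedBall _ _) (fun p x _ hx => by
      rw [κ.zero_of_le_dist (by simpa using (not_le.1 (by simpa using hx)).le), zero_mul])
    (locallyIntegrable_const 1) (by
      apply ContDiff.contDiffOn
      apply ContDiff.mul (κ.contDiff.comp contDiff_snd)
      apply hχ.comp
      exact contDiff_fst.sub ((Complex.ofRealCLM.contDiff.comp contDiff_snd).mul contDiff_const))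
  rw [contDiffOn_univ] at key
  convert key using 2 with p
  rw [segInt, convolution_def]
  refine setIntegral_congr_fun measurableSet_Ioc fun t ht => ?_
  have : κ (-t) = 1 := κ.one_of_mem_closedBall (by
    simp only [Metric.mem_closedBall, dist_zero_right, norm_neg, Real.norm_eq_abs, κ]
    rw [abs_of_pos ht.1]; linarith [ht.2, le_abs_self h])
  simp [this]

lemma segInt_fderiv {χ : ℂ → ℝ} (hχ : ContDiff ℝ ∞ χ) (e : ℂ) {h : ℝ} (hh : 0 ≤ h) (z : ℂ) :
    fderiv ℝ (segInt χ e h) z e = χ (z + h * e) - χ z := by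
  have hd := ((segInt_contDiff hχ e h).differentiable (by simp) z).hasFDerivAt
  have hl : HasDerivAt (fun s : ℝ => z + s * e) e 0 := by
    simpa using ((Complex.ofRealCLM.hasDerivAt (x := 0)).mul_const e).const_add z
  have h1 : HasDerivAt (fun s : ℝ => segInt χ e h (z + s * e)) (fderiv ℝ (segInt χ e h) z e) 0 := by
    have := HasFDerivAt.comp_hasDerivAt_of_eq (0 : ℝ) hd hl (by simp)
    exact this
  let c : ℝ → ℝ := fun t => χ (z + t * e)
  have hc : Continuous c := hχ.continuous.comp (by fun_prop)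
  have hF : ∀ x, HasDerivAt (fun x => ∫ t in (0 : ℝ)..x, c t) (c x) x := fun x =>
    intervalIntegral.integral_hasDerivAt_right (hc.intervalIntegrable _ _)
      hc.aestronglyMeasurable.stronglyMeasurableAtFilter hc.continuousAt
  have h2 : (fun s : ℝ => segInt χ e h (z + s * e)) =
      fun s => (∫ t in (0 : ℝ)..(h + s), c t) - ∫ t in (0 : ℝ)..s, c t := by
    funext s
    rw [intervalIntegral.integral_interval_sub_left (hc.intervalIntegrable _ _)
      (hc.intervalIntegrable _ _), segInt, ← intervalIntegral.integral_of_le hh]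
    have := intervalIntegral.integral_comp_add_right (a := 0) (b := h) c s
    rw [zero_add] at this
    rw [← this]
    refine intervalIntegral.integral_congr fun t _ => ?_
    simp only [c]; congr 1; push_cast; ring
  have h3 : HasDerivAt (fun s => (∫ t in (0 : ℝ)..(h + s), c t) - ∫ t in (0 : ℝ)..s, c t)
      (c h - c 0) 0 := by
    refine HasDerivAt.sub ?_ (hF 0)
    have := (hF (h + 0)).comp_const_add h 0
    simpa using this
  rw [h2] at h1
  rw [h1.unique h3]; simp [c]

lemma segInt_tsupport {χ : ℂ → ℝ} (hχ : HasCompactSupport χ) (e : ℂ) (h : ℝ) :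
    ∃ K, IsCompact K ∧ Function.support (segInt χ e h) ⊆ K ∧
      ∀ z ∈ K, ∃ t ∈ Icc (0 : ℝ) h, z + t * e ∈ tsupport χ := by
  refine ⟨(fun p : ℂ × ℝ => p.1 - p.2 * e) '' (tsupport χ ×ˢ Icc 0 h),
    (hχ.isCompact.prod isCompact_Icc).image (by fun_prop), fun z hz => ?_, ?_⟩
  · by_contra hn
    apply hz
    rw [segInt]
    refine setIntegral_eq_zero_of_forall_eq_zero fun t ht => ?_
    by_contra h0
    exact hn ⟨(z + t * e, t), ⟨subset_tsupport _ h0, Ioc_subset_Icc_self ht⟩, by simp⟩
  · rintro _ ⟨⟨w, t⟩, ⟨hw, ht⟩, rfl⟩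
    exact ⟨t, ht, by simpa using hw⟩

lemma segInt_swap {v χ : ℂ → ℝ} (hv : Integrable v) (hχ : Continuous χ)
    (hc : HasCompactSupport χ) (e : ℂ) (h : ℝ) :
    ∫ z, v z * segInt χ e h z = ∫ z, χ z * segInt v (-e) h z := by
  obtain ⟨C, hC⟩ := hχ.bounded_above_of_compact_support hc
  have h0 : Integrable (fun p : ℝ × ℂ => v p.2) ((volume.restrict (Ioc (0 : ℝ) h)).prod volume) :=
    hv.comp_snd _
  have h1 : Integrable (fun p : ℝ × ℂ => χ (p.2 + p.1 * e) * v p.2)
      ((volume.restrict (Ioc (0 : ℝ) h)).prod volume) :=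
    h0.bdd_mul (c := C) (by fun_prop : Continuous fun p : ℝ × ℂ =>
      χ (p.2 + p.1 * e)).aestronglyMeasurable (Eventually.of_forall fun p => hC _)
  have h2 : Integrable (fun p : ℝ × ℂ => χ p.2 * v (p.2 + p.1 * (-e)))
      ((volume.restrict (Ioc (0 : ℝ) h)).prod volume) :=
    (integrable_shear hv (-e) h).bdd_mul (c := C) (by fun_prop : Continuous fun p : ℝ × ℂ =>
      χ p.2).aestronglyMeasurable (Eventually.of_forall fun p => hC _)
  have e1 := integral_integral_swap (f := fun (t : ℝ) (z : ℂ) => χ (z + t * e) * v z) h1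
  have e2 := integral_integral_swap (f := fun (t : ℝ) (z : ℂ) => χ z * v (z + t * (-e))) h2
  simp only [segInt]
  simp_rw [← integral_const_mul]
  rw [← e2]
  simp_rw [mul_comm (v _)]
  rw [← e1]
  refine integral_congr_ae (Eventually.of_forall fun t => ?_)
  have := integral_add_right_eq_self (μ := volume) (fun z : ℂ => χ z * v (z + t * (-e))) (t * e)
  simp only
  rw [← this]
  congr 1; funext z; congr 2; ring

/-- upper integral of `Φ` along the segment from `z` to `z + h e` -/
noncomputable def M (Φ : ℂ → ℝ≥0∞) (e : ℂ) (h : ℝ) (z : ℂ) : ℝ≥0∞ :=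
  ∫⁻ t in Ioc 0 h, Φ (z + t * e)

lemma segInt_le_M {v : ℂ → ℝ} {Φ : ℂ → ℝ≥0∞} (hΦ : ∀ᵐ z, ‖v z‖ₑ ≤ Φ z) (e : ℂ) (h : ℝ) :
    ∀ᵐ z, ENNReal.ofReal |segInt v e h z| ≤ M Φ e h z := by
  filter_upwards [ae_shift hΦ e] with z hz
  rw [← Real.enorm_eq_ofReal_abs]
  exact (enorm_integral_le_lintegral_enorm _).trans (lintegral_mono_ae (ae_restrict_of_ae hz))

lemma test_integrable_mul {χ u : ℂ → ℝ} (hχ : Continuous χ) (hc : HasCompactSupport χ)
    (hu : Integrable u) : Integrable (fun z => χ z * u z) := by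
  obtain ⟨C, hC⟩ := hχ.bounded_above_of_compact_support hc
  exact hu.bdd_mul (c := C) hχ.aestronglyMeasurable (Eventually.of_forall fun p => hC _)

lemma diff_eq {U : Set ℂ} (hU : IsOpen U) (hc : Convex ℝ U) {u v : ℂ → ℝ} {e : ℂ}
    (hu : IntegrableOn u U) (hv : IntegrableOn v U) (hw : IsWeakDeriv U e u v) {h : ℝ}
    (hh : 0 < h) : ∀ᵐ z, z ∈ U → z + h * e ∈ U →
      u (z + h * e) - u z = segInt (U.indicator v) e h z := by
  have hu' := hu.integrable_indicator hU.measurableSet
  have hv' := hv.integrable_indicator hU.measurableSet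
  set u' := U.indicator u
  set v' := U.indicator v
  have hu'' : Integrable (fun z => u' (z + h * e)) := hu'.comp_add_right _
  have hF : Integrable (fun z => u' (z + h * e) - u' z - segInt v' e h z) :=
    (hu''.sub hu').sub (integrable_segInt hv' e h)
  have hUh : IsOpen (U ∩ (fun z => z + h * e) ⁻¹' U) := hU.inter (hU.preimage (by fun_prop))
  have key := hUh.ae_eq_zero_of_integral_contDiff_smul_eq_zero
    (hF.locallyIntegrable.locallyIntegrableOn _) (fun χ hχ hχc hχs => by
      obtain ⟨K, hK, hK1, hK2⟩ := segInt_tsupport hχc (-e) h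
      let ψ : ℂ → ℝ := fun z => segInt χ (-e) h z
      have hKU : K ⊆ U := fun z hz => by
        obtain ⟨t, ht, hz'⟩ := hK2 z hz
        obtain ⟨h1, h2⟩ := hχs hz'
        have := hc h1 h2 (a := 1 - t / h) (b := t / h) (by
          rw [sub_nonneg, div_le_one hh]; exact ht.2) (div_nonneg ht.1 hh.le) (by ring)
        convert this using 1
        have hh' : (h : ℂ) ≠ 0 := by exact_mod_cast hh.ne'
        simp only [Complex.real_smul]; push_cast; field_simp; ring
      have hψ : Test U ψ := ⟨segInt_contDiff hχ _ _, HasCompactSupport.of_support_subset_isCompact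
        hK hK1, (closure_minimal hK1 hK.isClosed).trans hKU⟩
      have h1 := hw ψ hψ
      have hd : ∀ z, fderiv ℝ ψ z e = χ z - χ (z + h * (-e)) := fun z => by
        have := segInt_fderiv hχ (-e) hh.le z
        rw [map_neg] at this
        linarith
      simp_rw [hd] at h1
      rw [← integral_indicator hU.measurableSet, ← integral_indicator hU.measurableSet] at h1
      simp_rw [indicator_mul_left] at h1
      change ∫ z, u' z * (χ z - χ (z + h * (-e))) = -∫ z, v' z * segInt χ (-e) h z at h1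
      rw [segInt_swap hv' hχ.continuous hχc, neg_neg] at h1
      have i1 := test_integrable_mul hχ.continuous hχc hu'
      have i2 := test_integrable_mul hχ.continuous hχc hu''
      have i3 := test_integrable_mul hχ.continuous hχc (integrable_segInt hv' e h)
      have i4 : Integrable (fun z => u' z * χ (z + h * (-e))) := by
        have := i2.comp_add_right (h * (-e))
        refine this.congr (Eventually.of_forall fun z => ?_)
        simp only; rw [mul_comm]; congr 2; ring
      have e4 : ∫ z, u' z * χ (z + h * (-e)) = ∫ z, χ z * u' (z + h * e) := by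
        rw [← integral_add_right_eq_self (fun z => χ z * u' (z + h * e)) (h * (-e))]
        congr 1; funext z; rw [mul_comm]; congr 2; ring
      simp_rw [mul_sub] at h1
      rw [integral_sub (by simpa only [mul_comm] using i1) i4, e4] at h1
      simp_rw [smul_eq_mul, mul_sub]
      have i5 : Integrable (fun z => χ z * u' (z + h * e) - χ z * u' z) := i2.sub i1
      rw [integral_sub i5 i3, integral_sub i2 i1]
      have e5 : ∫ z, u' z * χ z = ∫ z, χ z * u' z := by simp_rw [mul_comm]
      linarith)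
  filter_upwards [key] with z hz h1 h2
  have := hz ⟨h1, h2⟩
  simp only [u', indicator_of_mem h1, indicator_of_mem h2] at this
  linarith

lemma diff_bound {U : Set ℂ} (hU : IsOpen U) (hc : Convex ℝ U) {u v : ℂ → ℝ} {e : ℂ}
    (hu : IntegrableOn u U) (hv : IntegrableOn v U) (hw : IsWeakDeriv U e u v) {Φ : ℂ → ℝ≥0∞}
    (hΦ : ∀ᵐ z, z ∈ U → ‖v z‖ₑ ≤ Φ z) {h : ℝ} (hh : 0 < h) :
    ∀ᵐ z, z ∈ U → z + h * e ∈ U → ENNReal.ofReal |u (z + h * e) - u z| ≤ M Φ e h z := by
  have : ∀ᵐ z, ‖U.indicator v z‖ₑ ≤ Φ z := by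
    filter_upwards [hΦ] with z hz
    by_cases h : z ∈ U
    · rw [indicator_of_mem h]; exact hz h
    · rw [indicator_of_notMem h]; simp
  filter_upwards [diff_eq hU hc hu hv hw hh, segInt_le_M this e h] with z h1 h2 h3 h4
  rw [h1 h3 h4]; exact h2

end Pool.Agent.Lib.MP_e2f52c_an
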