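import Pool.Agent.Lib.MP_e2f52c_an.Upper2

open MeasureTheory Set Filter Topology
open scoped ENNReal

namespace Pool.Agent.Lib.MP_e2f52c_an

variable {φ : ℝ → ℂ} {η ξ η' ξ' : ℂ → ℂ} {Φ Φ' : Fin 2 → ℂ → ℝ≥0∞}

lemma measurable_om (hη : Measurable η) (hξ : Measurable ξ) {f g : ℂ → ℂ} (hf : Measurable f)
    (hg : Measurable g) : Measurable fun z => om η ξ (f z) (g z) := by
  have := measurable_sg hξ hf hg
  unfold om wedge
  fun_prop

lemma Cfg.measurable_Ar (C : Cfg φ η ξ Φ) (h : ℝ) : Measurable (Ar η ξ h) := by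
  unfold Ar ar
  exact (((measurable_om C.mη C.mξ (by fun_prop) (by fun_prop)).add
    (measurable_om C.mη C.mξ (by fun_prop) (by fun_prop))).sub
    (measurable_om C.mη C.mξ (by fun_prop) (by fun_prop))).sub
    (measurable_om C.mη C.mξ (by fun_prop) (by fun_prop))

lemma Cfg.integrableOn_Ar (C : Cfg φ η ξ Φ) {L : ℝ}
    (hL : ∀ x ∈ Icc (-1 : ℝ) 1, ∀ y ∈ Icc (-1 : ℝ) 1, ‖φ x - φ y‖ ≤ L * |x - y|) {r h : ℝ}
    (hh : 0 < h) (hr : h < (1 - r) / 2) : IntegrableOn (Ar η ξ h) (Metric.ball 0 r) := by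
  refine ⟨(C.measurable_Ar h).aestronglyMeasurable, ?_⟩
  rw [HasFiniteIntegral]
  simp only [Real.enorm_eq_ofReal_abs]
  refine (lintegral_mono_ae ((ae_restrict_iff' measurableSet_ball).2 (C.abs_Ar hL hh hr))).trans_lt ?_
  rw [lintegral_const_mul _ ((measurable_SM C.mΦ h).add_const _),
    lintegral_add_right _ measurable_const, lintegral_const, Measure.restrict_apply_univ]
  refine ENNReal.mul_lt_top (by simp) (ENNReal.add_lt_top.2 ⟨(lintegral_SM_le C.mΦ h _).trans_lt ?_,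
    ENNReal.mul_lt_top (ENNReal.mul_lt_top (by simp) ENNReal.ofReal_lt_top) measure_ball_lt_top⟩)
  exact ENNReal.mul_lt_top (ENNReal.pow_lt_top ENNReal.ofReal_lt_top) (ENNReal.mul_lt_top (by simp)
    (ENNReal.add_lt_top.2 ⟨(C.iΦ 0).lt_top, (C.iΦ 1).lt_top⟩))

lemma memLp_shift {f : ℂ → ℂ} (hf : MemLp f 2 (volume.restrict B)) {A : Set ℂ}
    (hA : MeasurableSet A) {s : ℂ} (hs : ∀ z ∈ A, z + s ∈ B) :
    MemLp (fun z => ‖f (z + s)‖) 2 (volume.restrict A) := by
  have h1 := (memLp_indicator_iff_restrict measurableSet_ball).2 hf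
  have h2 := (h1.comp_measurePreserving (measurePreserving_add_right volume s)).restrict A
  refine (h2.ae_eq ((ae_restrict_iff' hA).2 (Eventually.of_forall fun z hz => ?_))).norm
  simp [indicator_of_mem (hs z hz)]

lemma Cfg.integrableOn_om (C : Cfg φ η ξ Φ) {A : Set ℂ} (hA : MeasurableSet A) {s : ℂ}
    (h0 : ∀ z ∈ A, z + 0 ∈ B) (hs : ∀ z ∈ A, z + s ∈ B) :
    IntegrableOn (fun z => om η ξ z (z + s)) A := by
  have h1 := (memLp_shift C.iη hA h0).integrable_mul (memLp_shift C.iη hA hs)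
  have h2 := (memLp_shift C.iξ hA h0).integrable_mul (memLp_shift C.iξ hA hs)
  refine (h1.add h2).mono' (measurable_om C.mη C.mξ (by fun_prop)
    (by fun_prop)).aestronglyMeasurable (Eventually.of_forall fun z => ?_)
  simp only [Pi.add_apply, Pi.mul_apply, add_zero, Real.norm_eq_abs, om]
  refine (abs_add_le _ _).trans (add_le_add (abs_wedge_le _ _) ?_)
  rcases sg_cases ξ z (z + s) with e | e <;> simpa [e] using abs_wedge_le _ _

lemma om_congr {z w : ℂ} (h1 : η z = η' z ∧ ξ z = ξ' z) (h2 : η w = η' w ∧ ξ w = ξ' w) :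
    om η ξ z w = om η' ξ' z w := by
  simp only [om, sg, h1.1, h1.2, h2.1, h2.2]

theorem telescope (C : Cfg φ η ξ Φ) (C' : Cfg φ η' ξ' Φ') {L : ℝ}
    (hL : ∀ x ∈ Icc (-1 : ℝ) 1, ∀ y ∈ Icc (-1 : ℝ) 1, ‖φ x - φ y‖ ≤ L * |x - y|) {r0 r h : ℝ}
    (hE : ∀ᵐ z, z ∈ B → r0 < ‖z‖ → η z = η' z ∧ ξ z = ξ' z)
    (hh : 0 < h) (hr : h < (1 - r) / 2) (hr' : h < (r - r0) / 2) :
    ∫ z in Metric.ball 0 r, Ar η ξ h z = ∫ z in Metric.ball 0 r, Ar η' ξ' h z := by
  let α : ℂ → ℂ → ℝ := fun e => (Metric.closedBall (0 : ℂ) (r0 + h)).indicator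
    fun z => om η ξ z (z + h * e) - om η' ξ' z (z + h * e)
  have sub : Metric.closedBall (0 : ℂ) (r0 + h) ⊆ Metric.ball 0 r :=
    Metric.closedBall_subset_ball (by linarith)
  have ne : ∀ e : ℂ, ‖e‖ = 1 → ‖(h : ℂ) * e‖ = h := fun e he => by
    rw [norm_mul, he, Complex.norm_real, Real.norm_of_nonneg hh.le, mul_one]
  have iα : ∀ e, ‖e‖ = 1 → Integrable (α e) := fun e he => by
    have h0 : ∀ z ∈ Metric.closedBall (0 : ℂ) (r0 + h), z + 0 ∈ B := fun z hz =>
      mem_B_of hh hr (sub hz) (by simp; positivity)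
    have hs : ∀ z ∈ Metric.closedBall (0 : ℂ) (r0 + h), z + h * e ∈ B := fun z hz =>
      mem_B_of hh hr (sub hz) (by rw [ne e he]; linarith)
    exact ((C.integrableOn_om measurableSet_closedBall h0 hs).sub
      (C'.integrableOn_om measurableSet_closedBall h0 hs)).integrable_indicator
        measurableSet_closedBall
  have eα : ∀ e, ‖e‖ = 1 → ∀ᵐ y, y ∈ B → y + h * e ∈ B →
      om η ξ y (y + h * e) - om η' ξ' y (y + h * e) = α e y := fun e he => by
    filter_upwards [hE, ae_add hE (h * e)] with y a b h1 h2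
    by_cases hy : y ∈ Metric.closedBall (0 : ℂ) (r0 + h)
    · simp only [α, indicator_of_mem hy]
    · simp only [α, indicator_of_notMem hy]
      simp only [Metric.mem_closedBall, dist_zero_right, not_le] at hy
      have := norm_sub_le (y + h * e) (h * e)
      rw [add_sub_cancel_right, ne e he] at this
      rw [om_congr (a h1 (by linarith)) (b h2 (by linarith)), sub_self]
  have zα : ∀ e y s, y ∉ Metric.ball (0 : ℂ) r → ‖s‖ ≤ h → α e (y + s) = 0 := by
    intro e y s hy hs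
    apply indicator_of_notMem
    simp only [Metric.mem_closedBall, Metric.mem_ball, dist_zero_right, not_le, not_lt] at hy ⊢
    have := norm_sub_le (y + s) s
    rw [add_sub_cancel_right] at this
    linarith
  have i1 := iα 1 (by simp)
  have i2 := iα Complex.I (by simp)
  rw [← sub_eq_zero, ← integral_sub (C.integrableOn_Ar hL hh hr) (C'.integrableOn_Ar hL hh hr)]
  have key : ∀ᵐ z, z ∈ Metric.ball (0 : ℂ) r → Ar η ξ h z - Ar η' ξ' h z =
      α 1 (z + 0) + α Complex.I (z + h * 1) - α 1 (z + h * Complex.I) - α Complex.I (z + 0) := by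
    filter_upwards [eα 1 (by simp), eα Complex.I (by simp), ae_add (eα 1 (by simp)) (h * Complex.I),
      ae_add (eα Complex.I (by simp)) (h * 1)] with z a0 a3 a2 a1 hz
    obtain ⟨v0, v1, v2, v3⟩ := verts hh hr hz
    rw [swap_vert] at a2
    rw [add_zero, ← a0 v0 v1, ← a1 v1 v2, ← a2 v3 v2, ← a3 v0 v3]
    simp only [Ar, ar]; ring
  rw [setIntegral_congr_ae measurableSet_ball key,
    setIntegral_eq_integral_of_forall_compl_eq_zero (fun z hz => by
      rw [zα _ _ _ hz (by simp [hh.le]), zα _ _ _ hz (ne _ (by simp)).le,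
        zα _ _ _ hz (ne _ (by simp)).le, zα _ _ _ hz (by simp [hh.le])]; simp)]
  have j1 := i1.comp_add_right 0
  have j2 := i2.comp_add_right (h * 1)
  have j3 := i1.comp_add_right (h * Complex.I)
  have j4 := i2.comp_add_right 0
  have j5 : Integrable fun z => α 1 (z + 0) + α Complex.I (z + h * 1) := j1.add j2
  have j6 : Integrable fun z => α 1 (z + 0) + α Complex.I (z + h * 1) -
    α 1 (z + h * Complex.I) := j5.sub j3
  rw [integral_sub j6 j4, integral_sub j5 j3, integral_add j1 j2]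
  simp only [integral_add_right_eq_self (α _)]
  ring

end Pool.Agent.Lib.MP_e2f52c_an
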