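import Pool.Agent.Lib.MP_e2f52c_an.Slices

open MeasureTheory Set Filter Topology
open scoped ENNReal ContDiff

namespace Pool.Agent.Lib.MP_e2f52c_an

/-- the unit disc -/
abbrev B : Set ℂ := Metric.ball 0 1

lemma isOpen_side {Ω : Set ℂ} (h : IsOpen Ω) (σ : ℝ) : IsOpen (side Ω σ) :=
  h.inter (isOpen_lt (f := fun _ : ℂ => (0 : ℝ)) (g := fun z : ℂ => σ * z.im) continuous_const
    (by fun_prop))

lemma convex_side {Ω : Set ℂ} (h : Convex ℝ Ω) (σ : ℝ) : Convex ℝ (side Ω σ) := by
  intro x hx y hy a b ha hb hab
  refine ⟨h hx.1 hy.1 ha hb hab, ?_⟩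
  replace hx := hx.2
  replace hy := hy.2
  simp only [Complex.add_im, Complex.smul_im, smul_eq_mul] at hx hy ⊢
  rcases ha.eq_or_lt with rfl | ha'
  · rw [zero_add] at hab; subst hab; simpa using hy
  · have := mul_pos ha' hx
    have := mul_nonneg hb hy.le
    nlinarith

lemma isOpen_seg {Ω : Set ℂ} (h : IsOpen Ω) : IsOpen (seg Ω) :=
  h.preimage Complex.continuous_ofReal

lemma integrableOn_of_memLp {U : Set ℂ} (hU : U ⊆ B) {u : ℂ → ℝ}
    (hu : MemLp u 2 (volume.restrict U)) : IntegrableOn u U := by
  have : IsFiniteMeasure (volume.restrict U) :=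
    isFiniteMeasure_restrict.2 ((measure_mono hU).trans_lt measure_ball_lt_top).ne
  exact hu.integrable (by norm_num)

lemma mp_reim : MeasurePreserving (fun p : ℝ × ℝ => (p.1 : ℂ) + p.2 * Complex.I) := by
  have := Complex.volume_preserving_equiv_real_prod.symm
  convert this using 1
  funext p
  rw [Complex.measurableEquivRealProd_symm_apply]
  apply Complex.ext <;> simp

lemma integrable_reim {F : ℂ → ℝ} (hF : Integrable F) :
    Integrable (fun p : ℝ × ℝ => F (p.1 + p.2 * Complex.I)) (volume.prod volume) :=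
  mp_reim.integrable_comp_of_integrable hF

lemma integral_prod_reim (F : ℂ → ℝ) :
    ∫ z, F z = ∫ p : ℝ × ℝ, F (p.1 + p.2 * Complex.I) ∂(volume.prod volume) := by
  rw [← Complex.volume_preserving_equiv_real_prod.symm.integral_comp' F]
  refine integral_congr_ae (Eventually.of_forall fun p => ?_)
  simp only [Complex.measurableEquivRealProd_symm_apply]
  congr 1
  apply Complex.ext <;> simp

lemma integral_reim {F : ℂ → ℝ} (hF : Integrable F) :
    ∫ z, F z = ∫ x : ℝ, ∫ y : ℝ, F (x + y * Complex.I) := by
  rw [integral_prod_reim, integral_prod _ (integrable_reim hF)]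

lemma integral_imre {F : ℂ → ℝ} (hF : Integrable F) :
    ∫ z, F z = ∫ y : ℝ, ∫ x : ℝ, F (x + y * Complex.I) := by
  rw [integral_prod_reim, integral_prod_symm _ (integrable_reim hF)]

lemma Test.mono {U V : Set ℂ} {ψ : ℂ → ℝ} (h : Test U ψ) (hUV : U ⊆ V) : Test V ψ :=
  ⟨h.1, h.2.1, h.2.2.trans hUV⟩

lemma Test.zero {U : Set ℂ} {ψ : ℂ → ℝ} (h : Test U ψ) {z : ℂ} (hz : z ∉ U) : ψ z = 0 :=
  image_eq_zero_of_notMem_tsupport fun h' => hz (h.2.2 h')

lemma Test.fderiv_cont {U : Set ℂ} {ψ : ℂ → ℝ} (h : Test U ψ) (e : ℂ) :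
    Continuous (fun z => fderiv ℝ ψ z e) :=
  (h.1.continuous_fderiv (by simp)).clm_apply continuous_const

lemma Test.fderiv_supp {U : Set ℂ} {ψ : ℂ → ℝ} (h : Test U ψ) (e : ℂ) :
    HasCompactSupport (fun z => fderiv ℝ ψ z e) := h.2.1.fderiv_apply ℝ e

lemma integrableOn_mul_test {U : Set ℂ} {u χ : ℂ → ℝ} (hu : IntegrableOn u U)
    (hχ : Continuous χ) (hc : HasCompactSupport χ) : IntegrableOn (fun z => u z * χ z) U := by
  obtain ⟨C, hC⟩ := hχ.bounded_above_of_compact_support hc
  exact hu.mul_bdd (c := C) hχ.aestronglyMeasurable (Eventually.of_forall fun p => hC _)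

lemma weakDeriv_unique {U : Set ℂ} (hU : IsOpen U) {e : ℂ} {u v w : ℂ → ℝ}
    (hv : IntegrableOn v U) (hw : IntegrableOn w U) (h1 : IsWeakDeriv U e u v)
    (h2 : IsWeakDeriv U e u w) : ∀ᵐ z, z ∈ U → v z = w z := by
  have := hU.ae_eq_zero_of_integral_contDiff_smul_eq_zero (f := fun z => v z - w z) (μ := volume)
    ((hv.sub hw).locallyIntegrableOn) (fun χ hχ hc hs => by
      have a1 := h1 χ ⟨hχ, hc, hs⟩
      have a2 := h2 χ ⟨hχ, hc, hs⟩
      rw [← setIntegral_eq_integral_of_forall_compl_eq_zero (s := U) (fun z hz => by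
        rw [Test.zero ⟨hχ, hc, hs⟩ hz]; simp)]
      simp_rw [smul_eq_mul, mul_comm (χ _), sub_mul]
      rw [integral_sub (integrableOn_mul_test hv hχ.continuous hc)
        (integrableOn_mul_test hw hχ.continuous hc)]
      linarith)
  filter_upwards [this] with z hz h
  exact sub_eq_zero.1 (hz h)

lemma trace_eq {σ : ℝ} (hσ : σ = 1 ∨ σ = -1) {u v : ℂ → ℝ} {τ : ℝ → ℝ}
    (hu : IntegrableOn u (side B σ)) (hv : IntegrableOn v (side B σ))
    (hτ : IntegrableOn τ (seg B))
    (hid : ∀ ψ, Test B ψ → ∫ z in side B σ, (u z * fderiv ℝ ψ z Complex.I + v z * ψ z) =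
      -σ * ∫ x in seg B, τ x * ψ x) :
    ∀ᵐ z, z ∈ side B σ →
      u z - τ z.re = σ * segInt ((side B σ).indicator v) (-(σ * Complex.I)) 2 z := by
  have hσ2 : σ * σ = 1 := by rcases hσ with rfl | rfl <;> norm_num
  have hS := isOpen_side (Metric.isOpen_ball : IsOpen B) σ
  have hγ := isOpen_seg (Metric.isOpen_ball : IsOpen B)
  have hu' := hu.integrable_indicator hS.measurableSet
  have hv' := hv.integrable_indicator hS.measurableSet
  have hτ' := hτ.integrable_indicator hγ.measurableSet
  set u' := (side B σ).indicator u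
  set v' := (side B σ).indicator v
  set τ' := (seg B).indicator τ
  let T : ℂ → ℝ := fun z => τ' z.re * (Icc (-1 : ℝ) 1).indicator 1 z.im
  have hT : Integrable T := by
    have h1 : Integrable ((Icc (-1 : ℝ) 1).indicator (1 : ℝ → ℝ)) :=
      (integrableOn_const (by simp)).integrable_indicator measurableSet_Icc
    exact Complex.volume_preserving_equiv_real_prod.integrable_comp_of_integrable (hτ'.mul_prod h1)
  have hF : Integrable (fun z => u' z - T z - σ * segInt v' (-(σ * Complex.I)) 2 z) :=
    (hu'.sub hT).sub ((integrable_segInt hv' _ _).const_mul σ)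
  have key := hS.ae_eq_zero_of_integral_contDiff_smul_eq_zero
    (hF.locallyIntegrable.locallyIntegrableOn _) (fun χ hχ hχc hχs => by
      have hχT : Test (side B σ) χ := ⟨hχ, hχc, hχs⟩
      obtain ⟨K, hK, hK1, hK2⟩ := segInt_tsupport hχc (σ * Complex.I) 2
      obtain ⟨ε, hε, hε'⟩ := hχc.isCompact.exists_forall_le' (f := fun z : ℂ => σ * z.im)
        (by fun_prop) (a := 0) (fun z hz => (hχs hz).2)
      let ψ : ℂ → ℝ := fun z =>
        Real.smoothTransition (σ * z.im / ε + 1) * segInt χ (σ * Complex.I) 2 z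
      have hK' : IsCompact (K ∩ {z : ℂ | -ε ≤ σ * z.im}) :=
        hK.inter_right (isClosed_le continuous_const (by fun_prop))
      have hs : Function.support ψ ⊆ K ∩ {z : ℂ | -ε ≤ σ * z.im} := fun z hz => by
        refine ⟨hK1 (right_ne_zero_of_mul hz), ?_⟩
        by_contra hn
        simp only [mem_ofPred_eq, not_le] at hn
        apply left_ne_zero_of_mul hz
        apply Real.smoothTransition.zero_of_nonpos
        have : σ * z.im / ε ≤ -1 := by rw [div_le_iff₀ hε]; linarith
        linarith
      have hKB : K ∩ {z : ℂ | -ε ≤ σ * z.im} ⊆ B := fun z ⟨hz, hz'⟩ => by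
        obtain ⟨t, ht, hw⟩ := hK2 z hz
        have h1 := hε' _ hw
        have h2 := (hχs hw).1
        simp only [mem_ofPred_eq, Metric.mem_ball, dist_zero_right] at hz' h2 ⊢
        refine lt_of_le_of_lt ?_ h2
        apply abs_le_of_sq_le_sq' _ (norm_nonneg _) |>.2
        rw [nsq, nsq]
        simp at h1 ⊢
        have := ht.1
        rcases hσ with rfl | rfl <;> nlinarith
      have hψ : Test B ψ := by
        refine ⟨ContDiff.mul ?_ (segInt_contDiff hχ _ _),
          HasCompactSupport.of_support_subset_isCompact hK' hs,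
          (closure_minimal hs hK'.isClosed).trans hKB⟩
        apply Real.smoothTransition.contDiff.comp
        exact ((contDiff_const.mul Complex.imCLM.contDiff).div_const ε).add contDiff_const
      have hψ1 : ∀ z : ℂ, 0 ≤ σ * z.im → ψ z = segInt χ (σ * Complex.I) 2 z := fun z hz => by
        simp only [ψ]
        rw [Real.smoothTransition.one_of_one_le, one_mul]
        have := div_nonneg hz hε.le
        linarith
      have hd : ∀ z ∈ side B σ, fderiv ℝ ψ z Complex.I = -σ * χ z := fun z hz => by
        have h1 : ψ =ᶠ[𝓝 z] segInt χ (σ * Complex.I) 2 := by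
          filter_upwards [hS.mem_nhds hz] with w hw using hψ1 w hw.2.le
        rw [h1.fderiv_eq]
        have h2 := segInt_fderiv hχ (σ * Complex.I) (h := 2) (by norm_num) z
        rw [hχT.zero (z := z + (2 : ℝ) * (σ * Complex.I)) (fun hh => by
          have h3 := hh.1
          have h4 := hz.2
          simp only [Metric.mem_ball, dist_zero_right] at h3
          have h5 := (Complex.abs_im_le_norm _).trans_lt h3
          simp at h5
          rw [abs_lt] at h5
          rcases hσ with rfl | rfl <;> linarith [h5.1, h5.2])] at h2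
        have h3 : Complex.I = σ • ((σ : ℂ) * Complex.I) := by
          rw [Complex.real_smul, ← mul_assoc, ← Complex.ofReal_mul, hσ2]; simp
        have h4 := (fderiv ℝ (segInt χ (σ * Complex.I) 2) z).map_smul σ ((σ : ℂ) * Complex.I)
        rw [← h3, h2] at h4
        rw [h4]; simp
      have h1 := hid ψ hψ
      rw [setIntegral_congr_fun hS.measurableSet (g := fun z => -σ * (u z * χ z) +
        v z * segInt χ (σ * Complex.I) 2 z) (fun z hz => by
          simp only; rw [hd z hz, hψ1 z hz.2.le]; ring)] at h1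
      rw [integral_add ((integrableOn_mul_test hu hχ.continuous hχc).const_mul _)
        (integrableOn_mul_test hv (segInt_contDiff hχ _ _).continuous
          (HasCompactSupport.of_support_subset_isCompact hK hK1)), integral_const_mul,
        ← integral_indicator hS.measurableSet, ← integral_indicator hS.measurableSet,
        ← integral_indicator hγ.measurableSet] at h1
      simp_rw [indicator_mul_left] at h1
      change -σ * (∫ z, u' z * χ z) + ∫ z, v' z * segInt χ (σ * Complex.I) 2 z =
        -σ * ∫ x, τ' x * ψ x at h1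
      rw [segInt_swap hv' hχ.continuous hχc] at h1
      have i1 := test_integrable_mul hχ.continuous hχc hu'
      have i2 := test_integrable_mul hχ.continuous hχc hT
      have i3 := test_integrable_mul hχ.continuous hχc
        (integrable_segInt hv' (-(σ * Complex.I)) 2)
      have e2 : ∫ z, χ z * T z = ∫ x, τ' x * ψ x := by
        rw [integral_reim i2]
        congr 1; funext x
        rw [hψ1 _ (by simp), segInt, ← integral_const_mul]
        have a1 : ∀ y : ℝ, χ (x + y * Complex.I) * T (x + y * Complex.I) =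
            τ' x * χ (x + y * Complex.I) := fun y => by
          by_cases hy : y ∈ Icc (-1 : ℝ) 1
          · simp [T, hy, mul_comm]
          · rw [hχT.zero (fun hh => hy (by
              have h3 := hh.1
              simp only [Metric.mem_ball, dist_zero_right] at h3
              have h5 := (Complex.abs_im_le_norm _).trans_lt h3
              simp at h5
              exact abs_le.1 h5.le))]; simp
        simp_rw [a1]
        rw [setIntegral_eq_integral_of_forall_compl_eq_zero (fun t ht => by
          rw [hχT.zero (fun hh => ht (by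
            have h3 := hh.1
            have h4 := hh.2
            simp only [Metric.mem_ball, dist_zero_right] at h3
            have h5 := (Complex.abs_im_le_norm _).trans_lt h3
            simp at h5 h4
            rcases hσ with rfl | rfl <;> simp at h5 h4 <;>
              exact ⟨h4, by linarith [le_abs_self t]⟩))]; simp)]
        rcases hσ with rfl | rfl
        · simp
        · rw [← integral_neg_eq_self]; simp
      simp_rw [smul_eq_mul, mul_sub, mul_left_comm (χ _) σ]
      have i5 : Integrable (fun z => χ z * u' z - χ z * T z) := i1.sub i2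
      rw [integral_sub i5 (i3.const_mul σ), integral_sub i1 i2, integral_const_mul, e2]
      have e5 : ∫ z, u' z * χ z = ∫ z, χ z * u' z := by simp_rw [mul_comm]
      rw [e5] at h1
      rcases hσ with rfl | rfl <;> linarith)
  filter_upwards [key] with z hz h1
  have h2 := hz h1
  have h3 := h1.1
  simp only [Metric.mem_ball, dist_zero_right] at h3
  have h4 : z.re ∈ seg B := by
    simpa [seg] using (Complex.abs_re_le_norm z).trans_lt h3
  have h5 : z.im ∈ Icc (-1 : ℝ) 1 := abs_le.1 ((Complex.abs_im_le_norm z).trans h3.le)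
  simp only [u', T, τ', indicator_of_mem h1, indicator_of_mem h4, indicator_of_mem h5] at h2
  simp only [Pi.one_apply, mul_one] at h2
  linarith

lemma integrableOn_seg {τ : ℝ → ℝ} (h : MemLp τ 2 (volume.restrict (seg B))) :
    IntegrableOn τ (seg B) := by
  have : IsFiniteMeasure (volume.restrict (seg B)) := by
    refine isFiniteMeasure_restrict.2 ((measure_mono (t := Icc (-1) 1) fun x hx => ?_).trans_lt
      measure_Icc_lt_top).ne
    simp [seg] at hx
    exact abs_le.1 hx.le
  exact h.integrable (by norm_num)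

lemma trace_bound {σ : ℝ} (hσ : σ = 1 ∨ σ = -1) {u w : ℂ → ℝ} {τ : ℝ → ℝ}
    (hu : IntegrableOn u (side B σ)) (hw : IntegrableOn w (side B σ))
    (hw' : IsWeakDeriv (side B σ) Complex.I u w) (hT : IsTrace B σ u τ) {Φ : ℂ → ℝ≥0∞}
    (hΦ : ∀ᵐ z, z ∈ side B σ → ‖w z‖ₑ ≤ Φ z) : ∀ᵐ z, z ∈ side B σ →
      ENNReal.ofReal |u z - τ z.re| ≤ M ((side B σ).indicator Φ) (-(σ * Complex.I)) 2 z := by
  obtain ⟨hτ, v, hv, hid⟩ := hT
  have hS := isOpen_side (Metric.isOpen_ball : IsOpen B) σ
  have hv' := integrableOn_of_memLp (fun z hz => hz.1) hv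
  have hwd : IsWeakDeriv (side B σ) Complex.I u v := fun ψ hψ => by
    have h1 := hid ψ (hψ.mono fun z hz => hz.1)
    rw [integral_add (integrableOn_mul_test hu (hψ.fderiv_cont _) (hψ.fderiv_supp _))
      (integrableOn_mul_test hv' hψ.1.continuous hψ.2.1)] at h1
    have h2 : ∀ x : ℝ, ψ x = 0 := fun x => hψ.zero fun h => by simpa using h.2
    simp only [h2, mul_zero, integral_zero] at h1
    linarith
  have h3 : ∀ᵐ z, ‖(side B σ).indicator v z‖ₑ ≤ (side B σ).indicator Φ z := by
    filter_upwards [hΦ, weakDeriv_unique hS hv' hw hwd hw'] with z h1 h2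
    by_cases h : z ∈ side B σ
    · rw [indicator_of_mem h, indicator_of_mem h, h2 h]; exact h1 h
    · simp [indicator_of_notMem h]
  filter_upwards [trace_eq hσ hu hv' (integrableOn_seg hτ) hid,
    segInt_le_M h3 (-(σ * Complex.I)) 2] with z h1 h2 hz
  rw [h1 hz, abs_mul]
  rcases hσ with rfl | rfl <;> simpa using h2

end Pool.Agent.Lib.MP_e2f52c_an
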