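import Pool.Agent.Lib.MP_e2f52c_an.Quad

open MeasureTheory Set Filter Topology
open scoped ENNReal symmDiff

namespace Pool.Agent.Lib.MP_e2f52c_an

noncomputable def Ar (η ξ : ℂ → ℂ) (h : ℝ) (z : ℂ) : ℝ :=
  ar η ξ z (z + h * 1) (z + h * 1 + h * Complex.I) (z + h * Complex.I)

noncomputable def SM (Φ : Fin 2 → ℂ → ℝ≥0∞) (h : ℝ) (z : ℂ) : ℝ≥0∞ :=
  M (Φ 0) 1 h (z + 0) ^ 2 + M (Φ 1) Complex.I h (z + h * 1) ^ 2 +
    M (Φ 0) 1 h (z + h * Complex.I) ^ 2 + M (Φ 1) Complex.I h (z + 0) ^ 2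

lemma measurable_Msq {Φ : ℂ → ℝ≥0∞} (hΦ : Measurable Φ) (e s : ℂ) (h : ℝ) :
    Measurable fun z => M Φ e h (z + s) ^ 2 :=
  ((measurable_M hΦ e h).comp (measurable_add_const s)).pow_const 2

lemma measurable_SM {Φ : Fin 2 → ℂ → ℝ≥0∞} (hΦ : ∀ j, Measurable (Φ j)) (h : ℝ) :
    Measurable (SM Φ h) :=
  (((measurable_Msq (hΦ 0) _ _ h).add (measurable_Msq (hΦ 1) _ _ h)).add
    (measurable_Msq (hΦ 0) _ _ h)).add (measurable_Msq (hΦ 1) _ _ h)

lemma lintegral_SM {Φ : Fin 2 → ℂ → ℝ≥0∞} (hΦ : ∀ j, Measurable (Φ j)) (h : ℝ) (A : Set ℂ) :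
    ∫⁻ z in A, SM Φ h z = (∫⁻ z in A, M (Φ 0) 1 h (z + 0) ^ 2) +
      (∫⁻ z in A, M (Φ 1) Complex.I h (z + h * 1) ^ 2) +
      (∫⁻ z in A, M (Φ 0) 1 h (z + h * Complex.I) ^ 2) +
      ∫⁻ z in A, M (Φ 1) Complex.I h (z + 0) ^ 2 := by
  simp only [SM]
  rw [lintegral_add_right _ (measurable_Msq (hΦ 1) _ _ h),
    lintegral_add_right _ (measurable_Msq (hΦ 0) _ _ h),
    lintegral_add_right _ (measurable_Msq (hΦ 1) _ _ h)]

lemma lintegral_SM_le {Φ : Fin 2 → ℂ → ℝ≥0∞} (hΦ : ∀ j, Measurable (Φ j)) (h : ℝ) (A : Set ℂ) :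
    ∫⁻ z in A, SM Φ h z ≤
      ENNReal.ofReal h ^ 2 * (2 * ((∫⁻ z, Φ 0 z ^ 2) + ∫⁻ z, Φ 1 z ^ 2)) := by
  rw [lintegral_SM hΦ]
  refine (add_le_add (add_le_add (add_le_add (lintegral_M_sq_le (hΦ 0) ..)
    (lintegral_M_sq_le (hΦ 1) ..)) (lintegral_M_sq_le (hΦ 0) ..))
    (lintegral_M_sq_le (hΦ 1) ..)).trans (le_of_eq ?_)
  ring

lemma lintegral_SM_small {Φ : Fin 2 → ℂ → ℝ≥0∞} (hΦ : ∀ j, Measurable (Φ j))
    (hi : ∀ j, ∫⁻ z, Φ j z ^ 2 ≠ ∞) {ε : ℝ≥0∞} (hε : ε ≠ 0) : ∃ δ > 0, ∀ A : Set ℂ,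
      volume A < δ → ∀ h, ∫⁻ z in A, SM Φ h z ≤ ENNReal.ofReal h ^ 2 * ε := by
  have hε' : ε / 4 ≠ 0 := by simp [hε]
  obtain ⟨δ0, h0, H0⟩ := lintegral_M_sq_small (hΦ 0) (hi 0) hε'
  obtain ⟨δ1, h1, H1⟩ := lintegral_M_sq_small (hΦ 1) (hi 1) hε'
  refine ⟨min δ0 δ1, lt_min h0 h1, fun A hA h => ?_⟩
  have a0 := H0 A (hA.trans_le (min_le_left _ _))
  have a1 := H1 A (hA.trans_le (min_le_right _ _))
  rw [lintegral_SM hΦ]
  refine (add_le_add (add_le_add (add_le_add (a0 ..) (a1 ..)) (a0 ..)) (a1 ..)).trans (le_of_eq ?_)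
  have : ε = 4 * (ε / 4) := by rw [ENNReal.mul_div_cancel] <;> simp
  conv_rhs => rw [this]
  ring

def Small (f : ℝ → ℝ≥0∞) : Prop :=
  ∀ ε : ℝ≥0∞, ε ≠ 0 → ∀ᶠ h in 𝓝[>] (0 : ℝ), f h ≤ ENNReal.ofReal h ^ 2 * ε

lemma Small.add {f g : ℝ → ℝ≥0∞} (hf : Small f) (hg : Small g) : Small fun h => f h + g h := by
  intro ε hε
  have hε' : ε / 2 ≠ 0 := by simp [hε]
  filter_upwards [hf _ hε', hg _ hε'] with h a b
  refine (add_le_add a b).trans (le_of_eq ?_)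
  rw [← mul_add, ENNReal.add_halves]

lemma Small.two_mul {f : ℝ → ℝ≥0∞} (hf : Small f) : Small fun h => 2 * f h := by
  simpa only [_root_.two_mul] using hf.add hf

lemma mem_B_of {r h : ℝ} (_hh : 0 < h) (hr : h < (1 - r) / 2) {z : ℂ} (hz : z ∈ Metric.ball 0 r)
    {s : ℂ} (hs : ‖s‖ ≤ 2 * h) : z + s ∈ B := by
  simp only [Metric.mem_ball, dist_zero_right] at hz ⊢
  linarith [norm_add_le z s]

lemma verts {r h : ℝ} (hh : 0 < h) (hr : h < (1 - r) / 2) {z : ℂ} (hz : z ∈ Metric.ball 0 r) :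
    z ∈ B ∧ z + h * 1 ∈ B ∧ z + h * 1 + h * Complex.I ∈ B ∧ z + h * Complex.I ∈ B := by
  refine ⟨by simpa using mem_B_of hh hr hz (s := 0) (by simp; positivity),
    mem_B_of hh hr hz (by simp [abs_of_pos hh]; linarith), ?_,
    mem_B_of hh hr hz (by simp [abs_of_pos hh]; linarith)⟩
  rw [add_assoc]
  refine mem_B_of hh hr hz ((norm_add_le _ _).trans ?_)
  simp [abs_of_pos hh]; linarith

lemma ofReal_sq_le {x : ℝ} (hx : 0 ≤ x) {m : ℝ≥0∞} (h : ENNReal.ofReal x ≤ m) :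
    ENNReal.ofReal (x ^ 2) ≤ m ^ 2 := by
  rw [ENNReal.ofReal_pow hx]; exact pow_le_pow_left' h 2

variable {φ : ℝ → ℂ} {η ξ : ℂ → ℂ} {Φ : Fin 2 → ℂ → ℝ≥0∞}

lemma Cfg.hor (C : Cfg φ η ξ Φ) {L : ℝ}
    (hL : ∀ x ∈ Icc (-1 : ℝ) 1, ∀ y ∈ Icc (-1 : ℝ) 1, ‖φ x - φ y‖ ≤ L * |x - y|) {h : ℝ}
    (hh : 0 < h) : ∀ᵐ z, z ∈ B → z + h * 1 ∈ B → ENNReal.ofReal (len η ξ z (z + h * 1) ^ 2) ≤
      M (Φ 0) 1 h z ^ 2 + ENNReal.ofReal ((L * h) ^ 2) := by
  filter_upwards [C.horU h hh, C.horL h hh, ae_im_ne, C.low, ae_add C.low (h * 1)]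
    with z a b n c d hz hw
  rcases lt_or_gt_of_ne n with n | n
  · have n' : (z + h * 1).im < 0 := by simpa using n
    rw [len_lower η ξ n n', c hz n, d hw n']
    refine ENNReal.ofReal_add_le.trans (add_le_add (ofReal_sq_le (norm_nonneg _) (b hz hw n))
      (ENNReal.ofReal_le_ofReal ?_))
    have m : ∀ w ∈ B, w.re ∈ Icc (-1 : ℝ) 1 := fun w hw => by
      simp only [Metric.mem_ball, dist_zero_right] at hw
      exact abs_le.1 ((Complex.abs_re_le_norm w).trans hw.le)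
    have := hL _ (m _ hz) _ (m _ hw)
    simp only [mul_one, Complex.add_re, Complex.ofReal_re, sub_add_cancel_left, abs_neg,
      abs_of_pos hh] at this ⊢
    exact pow_le_pow_left₀ (norm_nonneg _) this 2
  · exact (ofReal_sq_le (len_nonneg ..) (a hz hw n)).trans le_self_add

lemma swap_vert (z : ℂ) (h : ℝ) :
    z + h * Complex.I + h * 1 = z + h * 1 + h * Complex.I := by ring

lemma Cfg.abs_Ar (C : Cfg φ η ξ Φ) {L : ℝ}
    (hL : ∀ x ∈ Icc (-1 : ℝ) 1, ∀ y ∈ Icc (-1 : ℝ) 1, ‖φ x - φ y‖ ≤ L * |x - y|) {r h : ℝ}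
    (hh : 0 < h) (hr : h < (1 - r) / 2) : ∀ᵐ z, z ∈ Metric.ball 0 r →
      ENNReal.ofReal |Ar η ξ h z| ≤ 2 * (SM Φ h z + 2 * ENNReal.ofReal ((L * h) ^ 2)) := by
  filter_upwards [C.hor hL hh, ae_add (C.hor hL hh) (h * Complex.I), C.vert h hh,
    ae_add (C.vert h hh) (h * 1)] with z a0 a2 a3 a1 hz
  obtain ⟨v0, v1, v2, v3⟩ := verts hh hr hz
  rw [swap_vert] at a2
  have b0 := a0 v0 v1
  have b1 := ofReal_sq_le (len_nonneg ..) (a1 v1 v2)
  have b2 := a2 v3 v2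
  have b3 := ofReal_sq_le (len_nonneg ..) (a3 v0 v3)
  refine (ENNReal.ofReal_le_ofReal (ar_cases η ξ _ _ _ _ rfl rfl).1).trans ?_
  rw [ENNReal.ofReal_mul (by norm_num), ENNReal.ofReal_ofNat]
  gcongr
  refine (ENNReal.ofReal_add_le.trans (add_le_add (ENNReal.ofReal_add_le.trans (add_le_add
    (ENNReal.ofReal_add_le.trans (add_le_add b0 b1)) b2)) b3)).trans (le_of_eq ?_)
  simp only [SM, add_zero]; ring

lemma measurable_sg (hξ : Measurable ξ) {f g : ℂ → ℂ} (hf : Measurable f) (hg : Measurable g) :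
    Measurable fun z => sg ξ (f z) (g z) := by
  unfold sg sgn
  refine Measurable.ite ?_ measurable_const (Measurable.ite ?_ measurable_const measurable_const)
  · exact (measurableSet_lt (f := fun z => (f z).im) (by fun_prop) measurable_const).inter
      (measurableSet_lt (f := fun z => (g z).im) (by fun_prop) measurable_const)
  · refine measurableSet_le measurable_const (Complex.measurable_re.comp ?_)
    exact (hξ.comp hf).mul (Complex.continuous_conj.measurable.comp (hξ.comp hg))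

lemma measurable_ell (hξ : Measurable ξ) {f g : ℂ → ℂ} (hf : Measurable f) (hg : Measurable g) :
    Measurable fun z => ell ξ (f z) (g z) := by
  have := measurable_sg hξ hf hg
  unfold ell
  fun_prop

/-- the bad part of one edge -/
noncomputable def bad (ξ : ℂ → ℂ) (Φ : Fin 2 → ℂ → ℝ≥0∞) (h : ℝ) (s e : ℂ) : ℂ → ℝ≥0∞ :=
  {z : ℂ | 0 < z.im ∧ ENNReal.ofReal (‖ξ (z + s)‖ ^ 2) ≤ 4 * SM Φ h z}.indicator
    fun z => ENNReal.ofReal (ell ξ (z + s) (z + s + h * e) ^ 2)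

lemma Cfg.measurable_bad (C : Cfg φ η ξ Φ) (h : ℝ) (s e : ℂ) : Measurable (bad ξ Φ h s e) := by
  have h1 := measurable_ell C.mξ (f := fun z => z + s) (g := fun z => z + s + h * e)
    (by fun_prop) (by fun_prop)
  have h2 := measurable_SM C.mΦ h
  have h3 := C.mξ
  refine Measurable.indicator (by fun_prop) ?_
  exact (measurableSet_lt measurable_const Complex.measurable_im).inter
    (measurableSet_le (f := fun z => ENNReal.ofReal (‖ξ (z + s)‖ ^ 2)) (by fun_prop)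
      (h2.const_mul 4))

lemma Cfg.edgeU (C : Cfg φ η ξ Φ) (j : Fin 2) {h : ℝ} (hh : 0 < h) :
    ∀ᵐ z, z ∈ B → z + h * dir j ∈ B → 0 < z.im →
      ENNReal.ofReal (ell ξ z (z + h * dir j) ^ 2) ≤ M (Φ j) (dir j) h z ^ 2 := by
  have : ∀ᵐ z, z ∈ B → z + h * dir j ∈ B → 0 < z.im →
      ENNReal.ofReal (len η ξ z (z + h * dir j)) ≤ M (Φ j) (dir j) h z := by
    fin_cases j
    · exact C.horU h hh
    · exact (C.vert h hh).mono fun z a b c _ => a b c
  filter_upwards [this] with z a b c d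
  exact ofReal_sq_le (norm_nonneg _) ((ENNReal.ofReal_le_ofReal (ell_le_len ..)).trans (a b c d))

lemma tendsto_shift {Z : Set ℂ} (hZ : MeasurableSet Z) (hZ' : volume Z ≠ ∞) :
    Tendsto (fun a : ℂ => volume {y | y ∈ Z ∧ y + a ∉ Z}) (𝓝 0) (𝓝 0) := by
  let F : C(ℂ × ℂ, ℂ) := ⟨fun p => p.2 + p.1, by fun_prop⟩
  have := tendsto_measure_symmDiff_preimage_nhds_zero (μ := volume) (ν := volume)
    (f := fun a => F.curry a) (g := F.curry 0) (l := 𝓝 0) (F.curry.continuous.tendsto 0)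
    (Eventually.of_forall fun a => measurePreserving_add_right volume a)
    (measurePreserving_add_right volume 0) hZ.nullMeasurableSet hZ'
  refine tendsto_of_tendsto_of_tendsto_of_le_of_le tendsto_const_nhds this (fun _ => bot_le)
    fun a => measure_mono fun y hy => ?_
  right
  simpa [F] using hy

lemma Cfg.tendsto_X (C : Cfg φ η ξ Φ) (s : ℝ → ℂ) : Tendsto (fun h : ℝ => volume
    {z | z + s h ∈ B ∧ ξ (z + s h) ≠ 0 ∧ ENNReal.ofReal (‖ξ (z + s h)‖ ^ 2) ≤ 4 * SM Φ h z})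
    (𝓝[>] 0) (𝓝 0) := by
  rw [ENNReal.tendsto_nhds_zero]
  intro ε hε
  have hε' : 0 < ε / 2 := ENNReal.half_pos hε.ne'
  let W : ℕ → Set ℂ := fun n => {y | y ∈ B ∧ ξ y ≠ 0 ∧ ‖ξ y‖ ^ 2 ≤ 1 / (n + 1)}
  have mW : ∀ n, MeasurableSet (W n) := fun n => by
    have := C.mξ
    exact measurableSet_ball.inter ((C.mξ (measurableSet_singleton 0)).compl.inter
      (measurableSet_le (f := fun y => ‖ξ y‖ ^ 2) (by fun_prop) measurable_const))
  have aW : Antitone W := fun n m hnm y hy => ⟨hy.1, hy.2.1, hy.2.2.trans (by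
    gcongr)⟩
  have tW := tendsto_measure_iInter_atTop (μ := volume) (fun n => (mW n).nullMeasurableSet) aW
    ⟨0, ((measure_mono fun y hy => hy.1).trans_lt measure_ball_lt_top).ne⟩
  have eW : ⋂ n, W n = ∅ := by
    rw [eq_empty_iff_forall_notMem]
    intro y hy
    rw [mem_iInter] at hy
    obtain ⟨n, hn⟩ := exists_nat_one_div_lt (show 0 < ‖ξ y‖ ^ 2 by
      have := (hy 0).2.1; positivity)
    exact absurd (hy n).2.2 (not_le.2 hn)
  rw [eW, measure_empty] at tW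
  obtain ⟨n, hn⟩ := ((ENNReal.tendsto_nhds_zero.1 tW) _ hε').exists
  set t : ℝ≥0∞ := ENNReal.ofReal (1 / (n + 1))
  have ht : t ≠ 0 := by simp only [t, ne_eq, ENNReal.ofReal_eq_zero, not_le]; positivity
  set N := 4 * (2 * ((∫⁻ z, Φ 0 z ^ 2) + ∫⁻ z, Φ 1 z ^ 2)) / t
  have hN : N ≠ ∞ := ENNReal.div_ne_top (ENNReal.mul_ne_top (by simp) (ENNReal.mul_ne_top (by simp)
    (ENNReal.add_ne_top.2 ⟨C.iΦ 0, C.iΦ 1⟩))) ht
  have t2 : Tendsto (fun h : ℝ => ENNReal.ofReal h ^ 2 * N) (𝓝[>] 0) (𝓝 0) := by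
    have h1 : Tendsto (fun h : ℝ => ENNReal.ofReal h ^ 2) (𝓝[>] 0) (𝓝 0) := by
      have := ((ENNReal.continuous_pow 2).comp ENNReal.continuous_ofReal).tendsto 0
      simpa [Function.comp_def] using this.mono_left nhdsWithin_le_nhds
    simpa using ENNReal.Tendsto.mul_const h1 (Or.inr hN)
  filter_upwards [(ENNReal.tendsto_nhds_zero.1 t2) _ hε'] with h hh
  calc _ ≤ volume ((fun z => z + s h) ⁻¹' W n ∪ {z | t ≤ 4 * SM Φ h z}) := by
        refine measure_mono fun z hz => ?_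
        by_cases c : ‖ξ (z + s h)‖ ^ 2 ≤ 1 / (n + 1)
        · exact Or.inl ⟨hz.1, hz.2.1, c⟩
        · exact Or.inr ((ENNReal.ofReal_le_ofReal (not_le.1 c).le).trans hz.2.2)
    _ ≤ ε / 2 + ε / 2 := by
        refine (measure_union_le _ _).trans (add_le_add ?_ (le_trans ?_ hh))
        · rwa [measure_preimage_add_right]
        · refine (meas_ge_le_lintegral_div ((measurable_SM C.mΦ h).const_mul 4).aemeasurable ht
            ENNReal.ofReal_ne_top).trans ?_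
          rw [lintegral_const_mul _ (measurable_SM C.mΦ h)]
          have := lintegral_SM_le C.mΦ h univ
          rw [Measure.restrict_univ] at this
          calc _ ≤ 4 * (ENNReal.ofReal h ^ 2 *
                (2 * ((∫⁻ z, Φ 0 z ^ 2) + ∫⁻ z, Φ 1 z ^ 2))) / t := by gcongr
            _ = _ := by simp only [N, div_eq_mul_inv]; ring
    _ = ε := ENNReal.add_halves ε

lemma ell_zero_left {z w : ℂ} (h : ξ z = 0) : ell ξ z w = ‖ξ w‖ := by
  rcases sg_cases ξ z w with e | e <;> simp [ell, h, e]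

lemma Cfg.small_bad (C : Cfg φ η ξ Φ) {r : ℝ} (hr : r < 1) (j : Fin 2) {c : ℂ} (hc : ‖c‖ ≤ 1)
    (hc' : 0 ≤ c.im) : Small fun h => ∫⁻ z in Metric.ball 0 r, bad ξ Φ h (h * c) (dir j) z := by
  intro ε hε
  have hε' : ε / 2 ≠ 0 := by simp [hε]
  have hd : ‖dir j‖ = 1 := by fin_cases j <;> simp [dir]
  have hd' : 0 ≤ (dir j).im := by fin_cases j <;> simp [dir]
  obtain ⟨θ, θ0, θ1, hθ⟩ : ∃ θ : ℝ, 0 < θ ∧ θ < 1 ∧
      ENNReal.ofReal θ ^ 2 * ∫⁻ z, Φ j z ^ 2 ≤ ε / 2 := by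
    have h1 : Tendsto (fun h : ℝ => ENNReal.ofReal h ^ 2) (𝓝[>] 0) (𝓝 0) := by
      have := ((ENNReal.continuous_pow 2).comp ENNReal.continuous_ofReal).tendsto 0
      simpa [Function.comp_def] using this.mono_left nhdsWithin_le_nhds
    have h2 := ENNReal.Tendsto.mul_const h1 (Or.inr (C.iΦ j))
    rw [zero_mul] at h2
    obtain ⟨θ, a, b⟩ := (((ENNReal.tendsto_nhds_zero.1 h2) _ (pos_iff_ne_zero.2 hε')).and
      (Ioo_mem_nhdsGT one_pos)).exists
    exact ⟨θ, b.1, b.2, a⟩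
  obtain ⟨δ, hδ, H⟩ := lintegral_M_sq_small (C.mΦ j) (C.iΦ j) hε'
  let Z : Set ℂ := {y | y ∈ B ∧ ξ y = 0}
  have mZ : MeasurableSet Z := measurableSet_ball.inter (C.mξ (measurableSet_singleton 0))
  have tY : Tendsto (fun h : ℝ => volume {y | y ∈ Z ∧ y + ((1 - θ) * h : ℝ) * dir j ∉ Z})
      (𝓝[>] 0) (𝓝 0) := by
    refine (tendsto_shift mZ ((measure_mono fun y hy => hy.1).trans_lt
      measure_ball_lt_top).ne).comp (Tendsto.mono_left ?_ nhdsWithin_le_nhds)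
    exact (by fun_prop : Continuous fun h : ℝ => (((1 - θ) * h : ℝ) : ℂ) * dir j).tendsto' 0 0
      (by simp)
  have tXY := (C.tendsto_X fun h => h * c).add tY
  rw [add_zero] at tXY
  filter_upwards [tXY.eventually (gt_mem_nhds hδ), Ioo_mem_nhdsGT
    (show 0 < (1 - r) / 2 by linarith)] with h hXY ⟨hh, hhr⟩
  let X : Set ℂ := {z | z + h * c ∈ B ∧ ξ (z + h * c) ≠ 0 ∧
    ENNReal.ofReal (‖ξ (z + h * c)‖ ^ 2) ≤ 4 * SM Φ h z} ∪
    (fun z => z + h * c) ⁻¹' {y | y ∈ Z ∧ y + ((1 - θ) * h : ℝ) * dir j ∉ Z}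
  have vX : volume X < δ := by
    refine (measure_union_le _ _).trans_lt ?_
    rwa [measure_preimage_add_right]
  have pw : ∀ᵐ z, z ∈ Metric.ball 0 r → bad ξ Φ h (h * c) (dir j) z ≤
      X.indicator (fun z => M (Φ j) (dir j) h (z + h * c) ^ 2) z +
        M (Φ j) (dir j) (θ * h) (z + (h * c + ((1 - θ) * h : ℝ) * dir j)) ^ 2 := by
    filter_upwards [ae_add (C.edgeU j hh) (h * c),
      ae_add (C.edgeU j (mul_pos θ0 hh)) (h * c + ((1 - θ) * h : ℝ) * dir j)] with z a b hz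
    by_cases hb : z ∈ {z : ℂ | 0 < z.im ∧ ENNReal.ofReal (‖ξ (z + h * c)‖ ^ 2) ≤ 4 * SM Φ h z}
    swap
    · rw [bad, indicator_of_notMem hb]; exact bot_le
    rw [bad, indicator_of_mem hb]
    have n1 : ‖(h : ℂ) * c‖ ≤ h := by
      rw [norm_mul, Complex.norm_real, Real.norm_of_nonneg hh.le]; nlinarith
    have n2 : ∀ t : ℝ, 0 ≤ t → t ≤ h → z + (h * c + t * dir j) ∈ B := fun t t0 t1 =>
      mem_B_of hh hhr hz ((norm_add_le _ _).trans (by
        rw [norm_mul (t : ℂ), hd, Complex.norm_real, Real.norm_of_nonneg t0]; linarith))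
    have y0 : z + h * c ∈ B := mem_B_of hh hhr hz (by linarith)
    have y1 : z + h * c + h * dir j ∈ B := by rw [add_assoc]; exact n2 h hh.le le_rfl
    have t0 : 0 ≤ (1 - θ) * h := mul_nonneg (by linarith) hh.le
    have y2 := n2 ((1 - θ) * h) t0 (by nlinarith)
    have i0 : 0 < (z + h * c).im := by
      have := mul_nonneg hh.le hc'
      simp; linarith [hb.1]
    by_cases hX : z ∈ X
    · rw [indicator_of_mem hX]
      exact (a y0 y1 i0).trans le_self_add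
    · have z1 : ξ (z + h * c) = 0 := by
        by_contra hn
        exact hX (Or.inl ⟨y0, hn, hb.2⟩)
      have z2 : ξ (z + (h * c + ((1 - θ) * h : ℝ) * dir j)) = 0 := by
        by_contra hn
        exact hX (Or.inr ⟨⟨y0, z1⟩, fun h' => hn (by rw [← add_assoc]; exact h'.2)⟩)
      have e : z + (h * c + ((1 - θ) * h : ℝ) * dir j) + ((θ * h : ℝ) : ℂ) * dir j =
          z + h * c + h * dir j := by push_cast; ring
      rw [e, ell_zero_left z2] at b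
      rw [ell_zero_left z1]
      refine (b y2 y1 ?_).trans le_add_self
      have := mul_nonneg t0 hd'
      rw [← add_assoc, Complex.add_im, Complex.im_ofReal_mul]
      linarith
  refine (lintegral_mono_ae ((ae_restrict_iff' measurableSet_ball).2 pw)).trans ?_
  rw [lintegral_add_right _ (measurable_Msq (C.mΦ j) _ _ _)]
  refine (add_le_add (((setLIntegral_le_lintegral _ _).trans (lintegral_indicator_le _ _)).trans
    (H X vX _ _ _)) (lintegral_M_sq_le (C.mΦ j) ..)).trans ?_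
  rw [ENNReal.ofReal_mul θ0.le, mul_pow, mul_comm (ENNReal.ofReal θ ^ 2), mul_assoc]
  refine (add_le_add le_rfl (mul_le_mul_right hθ _)).trans (le_of_eq ?_)
  rw [← mul_add, ENNReal.add_halves]

end Pool.Agent.Lib.MP_e2f52c_an
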