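import Pool.Agent.Lib.MP_e2f52c_an.Upper

open MeasureTheory Set Filter Topology
open scoped ENNReal

namespace Pool.Agent.Lib.MP_e2f52c_an

variable {φ : ℝ → ℂ} {η ξ : ℂ → ℂ} {Φ : Fin 2 → ℂ → ℝ≥0∞}

lemma ofReal_add4 {a b c d : ℝ} {A B C D : ℝ≥0∞} (ha : ENNReal.ofReal a ≤ A)
    (hb : ENNReal.ofReal b ≤ B) (hc : ENNReal.ofReal c ≤ C) (hd : ENNReal.ofReal d ≤ D) :
    ENNReal.ofReal (a + b + c + d) ≤ A + B + C + D :=
  ENNReal.ofReal_add_le.trans (add_le_add (ENNReal.ofReal_add_le.trans (add_le_add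
    (ENNReal.ofReal_add_le.trans (add_le_add ha hb)) hc)) hd)

lemma ofReal_div4 {S : ℝ} {A : ℝ≥0∞} (h : ENNReal.ofReal S ≤ A) :
    ENNReal.ofReal (S / 4) ≤ A / 4 := by
  rw [ENNReal.ofReal_div_of_pos (by norm_num), ENNReal.ofReal_ofNat]; gcongr

noncomputable def cross (Φ : Fin 2 → ℂ → ℝ≥0∞) (L h : ℝ) : ℂ → ℝ≥0∞ :=
  {z : ℂ | z.im ∈ Icc (-h) 0}.indicator
    fun z => 2 * (SM Φ h z + 2 * ENNReal.ofReal ((L * h) ^ 2))

lemma bad_eq {h : ℝ} {s e z : ℂ} (h1 : 0 < z.im)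
    (h2 : ENNReal.ofReal (‖ξ (z + s)‖ ^ 2) ≤ 4 * SM Φ h z) :
    bad ξ Φ h s e z = ENNReal.ofReal (ell ξ (z + s) (z + s + h * e) ^ 2) := by
  rw [bad, indicator_of_mem]; exact ⟨h1, h2⟩

lemma Cfg.Ar_le (C : Cfg φ η ξ Φ) {L : ℝ}
    (hL : ∀ x ∈ Icc (-1 : ℝ) 1, ∀ y ∈ Icc (-1 : ℝ) 1, ‖φ x - φ y‖ ≤ L * |x - y|) {r h : ℝ}
    (hh : 0 < h) (hr : h < (1 - r) / 2) : ∀ᵐ z, z ∈ Metric.ball 0 r →
      ENNReal.ofReal (Ar η ξ h z) ≤ SM Φ h z / 4 + (cross Φ L h z +
        2 * (bad ξ Φ h (h * (0 : ℂ)) (dir 0) z + bad ξ Φ h (h * (1 : ℂ)) (dir 1) z +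
          bad ξ Φ h (h * Complex.I) (dir 0) z + bad ξ Φ h (h * (0 : ℂ)) (dir 1) z)) := by
  filter_upwards [C.abs_Ar hL hh hr, C.horU h hh, ae_add (C.horU h hh) (h * Complex.I),
    C.horL h hh, ae_add (C.horL h hh) (h * Complex.I), C.vert h hh,
    ae_add (C.vert h hh) (h * 1), C.low, ae_add C.low (h * 1),
    ae_add C.low (h * 1 + h * Complex.I), ae_add C.low (h * Complex.I)]
    with z ab a0 a2 c0 c2 a3 a1 l0 l1 l2 l3 hz
  obtain ⟨v0, v1, v2, v3⟩ := verts hh hr hz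
  rw [swap_vert] at a2 c2
  rw [← add_assoc] at l2
  have b1 := ofReal_sq_le (len_nonneg ..) (a1 v1 v2)
  have b3 := ofReal_sq_le (len_nonneg ..) (a3 v0 v3)
  have i1 : (z + h * 1).im = z.im := by simp
  have i2 : (z + h * 1 + h * Complex.I).im = z.im + h := by simp
  have i3 : (z + h * Complex.I).im = z.im + h := by simp
  by_cases hc : z.im ∈ Icc (-h) 0
  · refine le_trans ?_ (le_add_self.trans' le_self_add)
    rw [cross, indicator_of_mem (show z ∈ {z : ℂ | z.im ∈ Icc (-h) 0} from hc)]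
    exact (ENNReal.ofReal_le_ofReal (le_abs_self _)).trans (ab hz)
  rw [mem_Icc, not_and_or, not_le, not_le] at hc
  rcases hc with hc | hc
  · have j0 : z.im < 0 := by linarith
    have j1 : (z + h * 1).im < 0 := by linarith
    have j2 : (z + h * 1 + h * Complex.I).im < 0 := by linarith
    have j3 : (z + h * Complex.I).im < 0 := by linarith
    refine le_trans ?_ le_self_add
    rw [Ar, ar_lower η ξ j0 j1 j2 j3 (by rw [l0 v0 j0, l3 v3 j3]; simp)
      (by rw [l1 v1 j1, l2 v2 j2]; simp)]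
    have q := (le_abs_self _).trans (abs_quad_le (η z + ξ z) (η (z + h * 1) + ξ (z + h * 1))
      (η (z + h * 1 + h * Complex.I) + ξ (z + h * 1 + h * Complex.I))
      (η (z + h * Complex.I) + ξ (z + h * Complex.I)))
    rw [len_lower η ξ j1 j2] at b1
    rw [len_lower η ξ j0 j3] at b3
    have := ofReal_div4 (ofReal_add4 (ofReal_sq_le (norm_nonneg _) (c0 v0 v1 j0))
      ((ENNReal.ofReal_le_ofReal (le_add_of_nonneg_right (sq_nonneg _))).trans b1)
      (ofReal_sq_le (norm_nonneg _) (c2 v3 v2 j3))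
      ((ENNReal.ofReal_le_ofReal (le_add_of_nonneg_right (sq_nonneg _))).trans b3))
    refine le_trans (ENNReal.ofReal_le_ofReal (by linarith)) (this.trans (le_of_eq ?_))
    simp only [SM, add_zero]
  · have b0 := ofReal_sq_le (len_nonneg ..) (a0 v0 v1 hc)
    have b2 := ofReal_sq_le (len_nonneg ..) (a2 v3 v2 (by linarith))
    have hS := ofReal_add4 b0 b1 b2 b3
    have eS : M (Φ 0) 1 h z ^ 2 + M (Φ 1) Complex.I h (z + h * 1) ^ 2 +
      M (Φ 0) 1 h (z + h * Complex.I) ^ 2 + M (Φ 1) Complex.I h z ^ 2 = SM Φ h z := by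
      simp only [SM, add_zero]
    rw [eS] at hS
    rcases (ar_cases η ξ z (z + h * 1) (z + h * 1 + h * Complex.I) (z + h * Complex.I)
      rfl rfl).2 with g | ⟨⟨n0, n1, n3⟩, g⟩
    · exact ((ENNReal.ofReal_le_ofReal g).trans (ofReal_div4 hS)).trans le_self_add
    · refine (ENNReal.ofReal_le_ofReal g).trans (ENNReal.ofReal_add_le.trans
        (add_le_add (ofReal_div4 hS) (le_add_self.trans' ?_)))
      rw [ENNReal.ofReal_mul (by norm_num), ENNReal.ofReal_ofNat]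
      have key : ∀ x : ℝ, 0 ≤ x → x ≤ len η ξ z (z + h * 1) +
          len η ξ (z + h * 1) (z + h * 1 + h * Complex.I) +
          len η ξ (z + h * Complex.I) (z + h * 1 + h * Complex.I) +
          len η ξ z (z + h * Complex.I) → ENNReal.ofReal (x ^ 2) ≤ 4 * SM Φ h z := by
        intro x x0 hx
        refine le_trans ?_ (mul_le_mul_right hS 4)
        rw [← ENNReal.ofReal_ofNat 4, ← ENNReal.ofReal_mul (by norm_num)]
        refine ENNReal.ofReal_le_ofReal ((pow_le_pow_left₀ x0 hx 2).trans ?_)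
        generalize len η ξ z (z + h * 1) = l0
        generalize len η ξ (z + h * 1) (z + h * 1 + h * Complex.I) = l1
        generalize len η ξ (z + h * Complex.I) (z + h * 1 + h * Complex.I) = l2
        generalize len η ξ z (z + h * Complex.I) = l3
        nlinarith [sq_nonneg (l0 - l1), sq_nonneg (l0 - l2), sq_nonneg (l0 - l3),
          sq_nonneg (l1 - l2), sq_nonneg (l1 - l3), sq_nonneg (l2 - l3)]
      have k0 := key _ (norm_nonneg _) n0
      have k1 := key _ (norm_nonneg _) n1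
      have k3 := key _ (norm_nonneg _) n3
      refine mul_le_mul_right (ofReal_add4 (le_of_eq ?_) (le_of_eq ?_) (le_of_eq ?_)
        (le_of_eq ?_)) 2
      · rw [bad_eq hc (by rwa [mul_zero, add_zero]), mul_zero, add_zero]; rfl
      · rw [bad_eq hc k1]; rfl
      · rw [bad_eq hc k3, ← swap_vert]; rfl
      · rw [bad_eq hc (by rwa [mul_zero, add_zero]), mul_zero, add_zero]; rfl

lemma tendsto_strip (r : ℝ) (hr : r < 1) : Tendsto (fun h : ℝ =>
    volume ({z : ℂ | z.im ∈ Icc (-h) 0} ∩ Metric.ball 0 r)) (𝓝[>] 0) (𝓝 0) := by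
  have h1 : Tendsto (fun h : ℝ => ENNReal.ofReal (2 * h)) (𝓝[>] 0) (𝓝 0) := by
    have := (ENNReal.continuous_ofReal.comp (continuous_const_mul (2 : ℝ))).tendsto 0
    simpa [Function.comp_def] using this.mono_left nhdsWithin_le_nhds
  refine tendsto_of_tendsto_of_tendsto_of_le_of_le tendsto_const_nhds h1 (fun _ => bot_le)
    fun h => ?_
  calc _ ≤ volume (Complex.measurableEquivRealProd ⁻¹' (Icc (-1) 1 ×ˢ Icc (-h) 0)) := by
        refine measure_mono fun z hz => ⟨?_, hz.1⟩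
        have := hz.2
        simp only [Metric.mem_ball, dist_zero_right] at this
        exact abs_le.1 ((Complex.abs_re_le_norm z).trans (by linarith))
    _ = _ := by
        rw [Complex.volume_preserving_equiv_real_prod.measure_preimage_equiv, Measure.volume_eq_prod,
          Measure.prod_prod, Real.volume_Icc, Real.volume_Icc, ← ENNReal.ofReal_mul (by norm_num)]
        congr 1; ring

lemma measurable_strip (h : ℝ) : MeasurableSet {z : ℂ | z.im ∈ Icc (-h) 0} :=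
  Complex.measurable_im measurableSet_Icc

lemma dom_small (hΦ : ∀ j, Measurable (Φ j)) (hi : ∀ j, ∫⁻ z, Φ j z ^ 2 ≠ ∞) (L : ℝ)
    {ε : ℝ≥0∞} (hε : ε ≠ 0) : ∃ δ > 0, ∀ A : Set ℂ, volume A < δ → ∀ h, 0 < h →
      ∫⁻ z in A, 2 * (SM Φ h z + 2 * ENNReal.ofReal ((L * h) ^ 2)) ≤ ENNReal.ofReal h ^ 2 * ε := by
  have hε' : ε / 4 ≠ 0 := by simp [hε]
  obtain ⟨δ, hδ, H⟩ := lintegral_SM_small hΦ hi hε'
  obtain ⟨δ', hδ', H'⟩ := ENNReal.exists_nnreal_pos_mul_lt
    (a := 2 * ENNReal.ofReal (L ^ 2)) (ENNReal.mul_ne_top (by simp) ENNReal.ofReal_ne_top) hε'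
  refine ⟨min δ δ', lt_min hδ (by exact_mod_cast hδ'), fun A hA h hh => ?_⟩
  rw [lintegral_const_mul _ ((measurable_SM hΦ h).add_const _),
    lintegral_add_right _ measurable_const, lintegral_const, Measure.restrict_apply_univ]
  have a1 := H A (hA.trans_le (min_le_left _ _)) h
  have a2 : 2 * ENNReal.ofReal ((L * h) ^ 2) * volume A ≤ ENNReal.ofReal h ^ 2 * (ε / 4) := by
    rw [mul_pow, ENNReal.ofReal_mul (sq_nonneg _), ENNReal.ofReal_pow hh.le]
    calc _ = ENNReal.ofReal h ^ 2 * (volume A * (2 * ENNReal.ofReal (L ^ 2))) := by ring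
      _ ≤ ENNReal.ofReal h ^ 2 * (δ' * (2 * ENNReal.ofReal (L ^ 2))) := by
          gcongr; exact hA.le.trans (min_le_right _ _)
      _ ≤ _ := by gcongr
  refine (mul_le_mul_right (add_le_add a1 a2) 2).trans (le_of_eq ?_)
  have : ε = 4 * (ε / 4) := by rw [ENNReal.mul_div_cancel] <;> simp
  conv_rhs => rw [this]
  ring

lemma Cfg.small_cross (C : Cfg φ η ξ Φ) (L : ℝ) {r : ℝ} (hr : r < 1) :
    Small fun h => ∫⁻ z in Metric.ball 0 r, cross Φ L h z := by
  intro ε hε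
  obtain ⟨δ, hδ, H⟩ := dom_small C.mΦ C.iΦ L hε
  filter_upwards [(tendsto_strip r hr).eventually (gt_mem_nhds hδ), self_mem_nhdsWithin]
    with h a hh
  rw [cross, lintegral_indicator (measurable_strip h), Measure.restrict_restrict (measurable_strip h)]
  exact H _ a h hh

theorem Cfg.upper (C : Cfg φ η ξ Φ) {L : ℝ}
    (hL : ∀ x ∈ Icc (-1 : ℝ) 1, ∀ y ∈ Icc (-1 : ℝ) 1, ‖φ x - φ y‖ ≤ L * |x - y|) {r : ℝ}
    (hr : r < 1) {ε : ℝ≥0∞} (hε : ε ≠ 0) : ∀ᶠ h in 𝓝[>] (0 : ℝ),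
      ∫⁻ z in Metric.ball 0 r, ENNReal.ofReal (Ar η ξ h z) ≤ ENNReal.ofReal h ^ 2 *
        (((∫⁻ z, Φ 0 z ^ 2) + ∫⁻ z, Φ 1 z ^ 2) / 2 + ε) := by
  have S := (C.small_cross L hr).add ((((C.small_bad hr 0 (c := 0) (by simp) (by simp)).add
    (C.small_bad hr 1 (c := 1) (by simp) (by simp))).add
    (C.small_bad hr 0 (c := Complex.I) (by simp) (by simp))).add
    (C.small_bad hr 1 (c := 0) (by simp) (by simp))).two_mul
  filter_upwards [S ε hε, Ioo_mem_nhdsGT (show 0 < (1 - r) / 2 by linarith)] with h a ⟨hh, hhr⟩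
  refine (lintegral_mono_ae ((ae_restrict_iff' measurableSet_ball).2 (C.Ar_le hL hh hhr))).trans ?_
  have mb := C.measurable_bad h
  have m4 : Measurable fun z => bad ξ Φ h (h * (0 : ℂ)) (dir 0) z +
      bad ξ Φ h (h * (1 : ℂ)) (dir 1) z + bad ξ Φ h (h * Complex.I) (dir 0) z +
      bad ξ Φ h (h * (0 : ℂ)) (dir 1) z := (((mb _ _).add (mb _ _)).add (mb _ _)).add (mb _ _)
  rw [lintegral_add_left ((measurable_SM C.mΦ h).div_const 4),
    lintegral_add_right _ (m4.const_mul 2), lintegral_const_mul _ m4,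
    lintegral_add_right _ (mb _ _), lintegral_add_right _ (mb _ _),
    lintegral_add_right _ (mb _ _), mul_add (ENNReal.ofReal h ^ 2)]
  refine add_le_add ?_ a
  simp only [div_eq_mul_inv]
  rw [lintegral_mul_const _ (measurable_SM C.mΦ h)]
  refine (mul_le_mul_left (lintegral_SM_le C.mΦ h _) _).trans (le_of_eq ?_)
  have : (2 : ℝ≥0∞) * 4⁻¹ = 2⁻¹ := by
    rw [show (4 : ℝ≥0∞) = 2 * 2 by norm_num, ENNReal.mul_inv (by simp) (by simp), ← mul_assoc,
      ENNReal.mul_inv_cancel (by simp) (by simp), one_mul]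
  rw [← this]; ring

end Pool.Agent.Lib.MP_e2f52c_an
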